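import Pool.Agent.Lib.MP_21db46_co.Carrier

/-! Homology subdivisions: transfer map, chain homotopy, and local exactness. -/

namespace Pool.Agent.Lib.MP_21db46_co

open Finset

variable (K : Type*) [Field K] {V : Type*} [LinearOrder V] [Fintype V]
  {W : Type*} [LinearOrder W] [Fintype W]

/-- The homological consequences of being a topological subdivision. -/
structure HSub (Δ : Set (Finset V)) (Δ' : Set (Finset W)) (σ : Finset W → Finset V) : Prop where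
  low : IsLowerSet Δ
  low' : IsLowerSet Δ'
  empty_mem' : ∅ ∈ Δ'
  map_mem : ∀ G ∈ Δ', σ G ∈ Δ
  mono : ∀ G ∈ Δ', ∀ G' ⊆ G, σ G' ⊆ σ G
  map_empty : σ ∅ = ∅
  eq_empty : ∀ G ∈ Δ', σ G = ∅ → G = ∅
  bdry : ∀ F ∈ Δ, ∀ G ∈ Δ', σ G ⊂ F → ∀ n, ExS K K {H | H ∈ Δ' ∧ σ H ⊆ F ∧ G ⊆ H} n
  inter : ∀ G ∈ Δ', ∀ n, ExS K K {H | H ∈ Δ' ∧ σ H = σ G ∧ ¬ G ⊆ H} n

/-- Transfer data of a subdivision with respect to a labelling. -/
structure Transfer (Δ : Set (Finset V)) (Δ' : Set (Finset W)) (σ : Finset W → Finset V)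
    (lam : W → V) where
  τ : (Finset V → K) →ₗ[K] (Finset W → K)
  η : (Finset W → K) →ₗ[K] (Finset W → K)
  img : ∀ G ∈ Δ', G.image lam ⊆ σ G
  τ_mem : ∀ F ∈ Δ, τ (bv K F) ∈ ch K {H | (H ∈ Δ' ∧ σ H ⊆ F) ∧ H.card = F.card}
  bd_τ : ∀ F ∈ Δ, bd K (τ (bv K F)) = τ (bd K (bv K F))
  push_τ : ∀ F ∈ Δ, push K lam (τ (bv K F)) = bv K F
  η_mem : ∀ G ∈ Δ', η (bv K G) ∈ ch K {H | (H ∈ Δ' ∧ σ H ⊆ σ G) ∧ H.card = G.card + 1}
  homot : ∀ G ∈ Δ', bv K G = τ (push K lam (bv K G)) + bd K (η (bv K G)) + η (bd K (bv K G))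

variable {K}
variable {Δ : Set (Finset V)} {Δ' : Set (Finset W)} {σ : Finset W → Finset V}

theorem HSub.low_restr (h : HSub K Δ Δ' σ) {A : Set (Finset V)} (hA : IsLowerSet A) :
    IsLowerSet {H | H ∈ Δ' ∧ σ H ∈ A} := fun H H' hle hH =>
  ⟨h.low' hle hH.1, hA (h.mono H hH.1 H' hle) hH.2⟩

theorem HSub.acyclic (h : HSub K Δ Δ' σ) {F : Finset V} (hF : F ∈ Δ) (hne : F.Nonempty) (n : ℕ)
    (z : Finset W → K) (hz : z ∈ ch K {H | (H ∈ Δ' ∧ σ H ⊆ F) ∧ H.card = n}) (hD : bd K z = 0) :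
    ∃ y ∈ ch K {H | (H ∈ Δ' ∧ σ H ⊆ F) ∧ H.card = n + 1}, bd K y = z := by
  have hl : IsLowerSet {H | H ∈ Δ' ∧ σ H ⊆ F} := h.low_restr (isLowerSet_Iic F)
  obtain ⟨e, he, hen, hb⟩ := h.bdry F hF ∅ h.empty_mem'
    (by rw [h.map_empty]; exact empty_ssubset.2 hne) n z
    (ch_mono (fun H hH => by exact ⟨hH.1.1, hH.1.2, empty_subset H⟩) hz)
    (ch_mono (fun H hH => hH.2) hz) (fun H _ => by rw [hD]; rfl)
  have he' : e ∈ ch K {H | H ∈ Δ' ∧ σ H ⊆ F} := ch_mono (fun H hH => by exact ⟨hH.1, hH.2.1⟩) he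
  refine ⟨e, mem_ch'.2 fun H hH => ⟨mem_ch'.1 he' H hH, mem_ch'.1 hen H hH⟩, ?_⟩
  ext H
  by_cases hH : H ∈ Δ' ∧ σ H ⊆ F
  · exact hb H ⟨hH.1, hH.2, empty_subset H⟩
  · rw [hz H fun h' => hH h'.1]
    exact sub_of_lower (K := K) (M := K) hl e he' H hH

theorem HSub.image_subset (h : HSub K Δ Δ' σ) {lam : W → V}
    (hlam : ∀ w, {w} ∈ Δ' → lam w ∈ σ {w}) {G : Finset W} (hG : G ∈ Δ') : G.image lam ⊆ σ G := by
  intro v hv
  obtain ⟨w, hw, rfl⟩ := mem_image.1 hv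
  have hs : {w} ⊆ G := singleton_subset_iff.2 hw
  exact h.mono G hG _ hs (hlam w (h.low' hs hG))

theorem HSub.nonempty_transfer (h : HSub K Δ Δ' σ) {lam : W → V}
    (hlam : ∀ w, {w} ∈ Δ' → lam w ∈ σ {w}) : Nonempty (Transfer K Δ Δ' σ lam) := by
  have himg : ∀ G ∈ Δ', G.image lam ⊆ σ G := fun G hG => h.image_subset hlam hG
  obtain ⟨t, t0, ht⟩ := acyclic_carrier (K := K) h.low (bd K)
    (fun F => ch K {H | (H ∈ Δ' ∧ σ H ⊆ F) ∧ H.card = F.card})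
    (fun F => ch K {H | (H ∈ Δ' ∧ σ H ⊆ F) ∧ H.card = F.card - 1}) 1 0 (bv K ∅)
    (bv_mem_ch (by exact ⟨⟨h.empty_mem', by rw [h.map_empty]⟩, rfl⟩)) bd_bv_empty
    (fun _ _ _ => Submodule.zero_mem _)
    (fun F _ v hv => ch_mono fun H hH =>
      by exact ⟨⟨hH.1.1, hH.1.2.trans (erase_subset v F)⟩, by rw [hH.2, card_erase_of_mem hv]⟩)
    (fun F hF hne z hz hD => by
      have := h.acyclic hF hne _ z hz hD
      rwa [Nat.sub_add_cancel (card_pos.2 hne)] at this)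
    (fun F _ => by simp [lin_apply])
  have τ_mem : ∀ F ∈ Δ, lin K t (bv K F) ∈ ch K {H | (H ∈ Δ' ∧ σ H ⊆ F) ∧ H.card = F.card} :=
    fun F hF => by rw [lin_bv]; exact (ht F hF).1
  have bd_τ : ∀ F ∈ Δ, bd K (lin K t (bv K F)) = lin K t (bd K (bv K F)) :=
    fun F hF => by rw [lin_bv]; simpa using (ht F hF).2
  have bd_τ' : ∀ c ∈ ch K Δ, bd K (lin K t c) = lin K t (bd K c) := fun c hc =>
    ch_ext (L := bd K ∘ₗ lin K t) (L' := lin K t ∘ₗ bd K) bd_τ hc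
  have push_mem : ∀ G ∈ Δ', push K lam (bv K G) ∈ ch K {F | F ⊆ σ G ∧ F.card = G.card} :=
    fun G hG => ch_mono (fun F hF => by exact ⟨hF.1 ▸ himg G hG, hF.2⟩) (push_bv_mem K lam G)
  have push_τ : ∀ F ∈ Δ, push K lam (lin K t (bv K F)) = bv K F := by
    intro F
    induction F using Finset.strongInduction with
    | H F ih =>
      intro hF
      rcases F.eq_empty_or_nonempty with rfl | hne
      · rw [lin_bv, t0, push_bv_empty]
      have h1 : push K lam (lin K t (bv K F)) ∈ ch K {H | H ⊆ F ∧ H.card = F.card} :=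
        map_mem_of_ch (fun G hG => ch_mono (fun H hH => by exact ⟨hH.1.trans hG.1.2, hH.2.trans hG.2⟩)
          (push_mem G hG.1.1)) (τ_mem F hF)
      have h2 : push K lam (lin K t (bv K F)) - bv K F ∈ ch K {H | H ⊆ F ∧ H.card = F.card} :=
        Submodule.sub_mem _ h1 (bv_mem_ch ⟨subset_rfl, rfl⟩)
      have h3 : push K lam (lin K t (bd K (bv K F))) = bd K (bv K F) :=
        ch_ext (L := push K lam ∘ₗ lin K t) (L' := LinearMap.id) (fun H hH => by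
          obtain ⟨v, hv, rfl⟩ := hH
          exact ih _ (erase_ssubset hv) (h.low (erase_subset v F) hF)) (bd_bv_mem F)
      obtain ⟨y, hy, hyn, hb⟩ := ex_simplex (K := K) (M := K) hne F.card _
        (ch_mono (fun H hH => hH.1) h2) (ch_mono (fun H hH => hH.2) h2) (by
          simp only [simpDG_D, map_sub, bd_push, bd_τ F hF, h3, sub_self, Submodule.zero_mem])
      have hy0 : y = 0 := by
        ext H
        by_contra hne
        have a1 : H ⊆ F := mem_ch'.1 hy H hne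
        have a2 : H.card = F.card + 1 := mem_ch'.1 hyn H hne
        have := card_le_card a1
        omega
      simpa [hy0, sub_eq_zero] using hb
  obtain ⟨e, -, he⟩ := acyclic_carrier (K := K) h.low' (bd K)
    (fun G => ch K {H | (H ∈ Δ' ∧ σ H ⊆ σ G) ∧ H.card = G.card + 1})
    (fun G => ch K {H | (H ∈ Δ' ∧ σ H ⊆ σ G) ∧ H.card = G.card}) (-1)
    (fun G => bv K G - lin K t (push K lam (bv K G))) 0 (Submodule.zero_mem _)
    (by rw [push_bv_empty, lin_bv, t0]; simp)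
    (fun G hG _ => Submodule.sub_mem _ (bv_mem_ch (by exact ⟨⟨hG, subset_rfl⟩, rfl⟩))
      (map_mem_of_ch (fun F hF => ch_mono
        (fun H hH => by exact ⟨⟨hH.1.1, hH.1.2.trans hF.1⟩, hH.2.trans hF.2⟩)
        (τ_mem F (h.low hF.1 (h.map_mem G hG)))) (push_mem G hG)))
    (fun G hG v hv => ch_mono fun H hH =>
      by exact ⟨⟨hH.1.1, hH.1.2.trans (h.mono G hG _ (erase_subset v G))⟩, by
        rw [hH.2, card_erase_of_mem hv, Nat.sub_add_cancel (card_pos.2 ⟨v, hv⟩)]⟩)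
    (fun G hG hne z hz hD => h.acyclic (h.map_mem G hG)
      (nonempty_iff_ne_empty.2 fun h0 => hne.ne_empty (h.eq_empty G hG h0)) _ z hz hD)
    (fun G hG => by
      have h1 : lin K (fun G => bv K G - lin K t (push K lam (bv K G))) (bd K (bv K G)) =
          (LinearMap.id - lin K t ∘ₗ push K lam : (Finset W → K) →ₗ[K] (Finset W → K))
            (bd K (bv K G)) :=
        ch_ext (S := Set.univ) (fun H _ => by simp) (fun _ h => absurd trivial h)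
      rw [h1, map_sub, bd_τ' _ (ch_mono (fun F hF => h.low hF.1 (h.map_mem G hG))
        (push_mem G hG)), bd_push]
      simp)
  exact ⟨⟨lin K t, lin K e, himg, τ_mem, bd_τ, push_τ,
    fun G hG => by rw [lin_bv]; exact (he G hG).1,
    fun G hG => by rw [lin_bv, (he G hG).2, neg_smul, one_smul]; abel⟩⟩

namespace Transfer

variable {lam : W → V} (T : Transfer K Δ Δ' σ lam)
variable {M : Type*} [AddCommGroup M] [Module K M]
include T

theorem push_mem {G : Finset W} (hG : G ∈ Δ') :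
    push K lam (bv K G) ∈ ch K {F | F ⊆ σ G ∧ F.card = G.card} :=
  ch_mono (fun _ hF => by exact ⟨hF.1 ▸ T.img G hG, hF.2⟩) (push_bv_mem K lam G)

theorem bd_τM {c : Finset V → M} (hc : c ∈ ch K Δ) :
    bd K (mext M T.τ c) = mext M T.τ (bd K c) := by
  rw [← mext_bd, ← mext_bd, mext_mext, mext_mext]
  exact mext_congr T.bd_τ hc

theorem push_τM {c : Finset V → M} (hc : c ∈ ch K Δ) :
    mext M (push K lam) (mext M T.τ c) = c := by
  rw [mext_mext]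
  exact (mext_congr (L' := LinearMap.id) T.push_τ hc).trans (mext_id c)

theorem homotM {c : Finset W → M} (hc : c ∈ ch K Δ') :
    c = mext M T.τ (mext M (push K lam) c) + bd K (mext M T.η c) + mext M T.η (bd K c) := by
  rw [← mext_bd, ← mext_bd, mext_mext, mext_mext, mext_mext, ← mext_add, ← mext_add]
  exact (mext_id c).symm.trans (mext_congr T.homot hc)

omit T in
theorem bd_pushM (lam : W → V) (c : Finset W → M) :
    bd K (mext M (push K lam) c) = mext M (push K lam) (bd K c) := by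
  rw [← mext_bd, ← mext_bd, mext_mext, mext_mext]
  exact mext_congr (S := Set.univ) (fun F _ => bd_push K lam _) (fun _ h => absurd trivial h)

theorem ex_restr (h : HSub K Δ Δ' σ) {A B : Set (Finset V)} (hA : IsLowerSet A)
    (hB : IsLowerSet B) (hAΔ : A ⊆ Δ) (hBA : B ⊆ A) {n : ℕ}
    (hex : (simpDG K K V).Ex (ch K A) (ch K B) n) :
    (simpDG K K W).Ex (ch K {H | H ∈ Δ' ∧ σ H ∈ A}) (ch K {H | H ∈ Δ' ∧ σ H ∈ B}) n := by
  have hp : ∀ {A : Set (Finset V)}, IsLowerSet A → ∀ c ∈ ch K {H | H ∈ Δ' ∧ σ H ∈ A},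
      mext K (push K lam) c ∈ ch K A := fun hA c hc =>
    mext_mem_ch (fun G hG => ch_mono (fun F hF => hA hF.1 hG.2) (T.push_mem hG.1)) hc
  have hτ : ∀ {A : Set (Finset V)}, IsLowerSet A → A ⊆ Δ → ∀ c ∈ ch K A,
      mext K T.τ c ∈ ch K {H | H ∈ Δ' ∧ σ H ∈ A} := fun hA hAΔ c hc =>
    mext_mem_ch (fun F hF => ch_mono (fun H hH => by exact ⟨hH.1.1, hA hH.1.2 hF⟩)
      (T.τ_mem F (hAΔ hF))) hc
  have hη : ∀ {A : Set (Finset V)}, IsLowerSet A → ∀ c ∈ ch K {H | H ∈ Δ' ∧ σ H ∈ A},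
      mext K T.η c ∈ ch K {H | H ∈ Δ' ∧ σ H ∈ A} := fun hA c hc =>
    mext_mem_ch (fun G hG => ch_mono (fun H hH => by exact ⟨hH.1.1, hA hH.1.2 hG.2⟩)
      (T.η_mem G hG.1)) hc
  intro x hx hxn hD
  have hx' : x ∈ ch K {H | H ∈ Δ' ∧ H.card = n} :=
    mem_ch'.2 fun H hH => ⟨(mem_ch'.1 hx H hH).1, mem_ch'.1 hxn H hH⟩
  obtain ⟨y, hy, hyn, hb⟩ := hex (mext K (push K lam) x) (hp hA x hx)
    (mext_mem_ch (fun G hG => ch_mono (fun F hF => hF.2.trans hG.2) (T.push_mem hG.1)) hx')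
    (by rw [simpDG_D, bd_pushM]; exact hp hB _ hD)
  have hy' : y ∈ ch K {H | H ∈ Δ ∧ H.card = n + 1} :=
    mem_ch'.2 fun H hH => ⟨hAΔ (mem_ch'.1 hy H hH), mem_ch'.1 hyn H hH⟩
  refine ⟨mext K T.τ y + mext K T.η x, Submodule.add_mem _ (hτ hA hAΔ y hy) (hη hA x hx),
    Submodule.add_mem _
      (mext_mem_ch (fun F hF => ch_mono (fun H hH => hH.2.trans hF.2) (T.τ_mem F hF.1)) hy')
      (mext_mem_ch (fun G hG => ch_mono (fun H hH => by
        have := hH.2; rw [hG.2] at this; exact this) (T.η_mem G hG.1)) hx'), ?_⟩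
  have h1 : x - bd K (mext K T.τ y + mext K T.η x) =
      mext K T.τ (mext K (push K lam) x - bd K y) + mext K T.η (bd K x) := by
    rw [map_add, T.bd_τM (ch_mono hAΔ hy), map_sub]
    have h0 := T.homotM (ch_mono (fun H hH => hH.1) hx)
    linear_combination (exp := 1) h0
  rw [simpDG_D, h1]
  exact Submodule.add_mem _ (hτ hB (hBA.trans hAΔ) _ hb) (hη hB _ hD)

/-- The faces not containing `G` whose carrier contains the carrier of `G` form an acyclic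
family. -/
theorem ex_cost (h : HSub K Δ Δ' σ) {G : Finset W} (hG : G ∈ Δ') (A : Finset (Finset V))
    (hA : IsLowerSet (A : Set (Finset V))) (hAΔ : (A : Set (Finset V)) ⊆ Δ) (n : ℕ) :
    (simpDG K K W).Ex
      (ch K {H | H ∈ Δ' ∧ (¬ σ G ⊆ σ H ∨ (σ H ∈ A ∧ ¬ G ⊆ H))})
      (ch K {H | H ∈ Δ' ∧ ¬ σ G ⊆ σ H}) n := by
  classical
  have l0 : IsLowerSet {H | H ∈ Δ' ∧ ¬ σ G ⊆ σ H} := fun H H' hle hH =>
    ⟨h.low' hle hH.1, fun h' => hH.2 (h'.trans (h.mono H hH.1 H' hle))⟩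
  have l1 : ∀ A : Finset (Finset V), IsLowerSet (A : Set (Finset V)) →
      IsLowerSet {H | H ∈ Δ' ∧ (¬ σ G ⊆ σ H ∨ (σ H ∈ A ∧ ¬ G ⊆ H))} := fun A hA H H' hle hH =>
    ⟨h.low' hle hH.1, hH.2.imp (fun h1 h' => h1 (h'.trans (h.mono H hH.1 H' hle)))
      fun h1 => ⟨hA (h.mono H hH.1 H' hle) h1.1, fun h' => h1.2 (h'.trans hle)⟩⟩
  induction A using Finset.strongInduction generalizing n with
  | H A ih =>
    rcases A.eq_empty_or_nonempty with rfl | hne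
    · simpa using DG.Ex.self _ _
    obtain ⟨F, hF⟩ := A.exists_maximal hne
    have hFA : F ∈ A := hF.1
    have lerase : IsLowerSet ((A.erase F : Finset (Finset V)) : Set (Finset V)) := by
      intro F1 F2 hle h1
      simp only [coe_erase, Set.mem_sdiff, Set.mem_singleton_iff] at h1 ⊢
      refine ⟨hA hle h1.1, ?_⟩
      rintro rfl
      exact h1.2 (le_antisymm (hF.2 h1.1 hle) hle)
    refine DG.Ex.trans (B := ch K {H | H ∈ Δ' ∧ (¬ σ G ⊆ σ H ∨ (σ H ∈ A.erase F ∧ ¬ G ⊆ H))})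
      (ch_mono fun H hH => by exact ⟨hH.1, hH.2.imp id fun h1 => ⟨mem_of_mem_erase h1.1, h1.2⟩⟩)
      (ch_mono fun H hH => by exact ⟨hH.1, Or.inl hH.2⟩) ?_
      (ih _ (erase_ssubset hFA) lerase ((coe_subset.2 (erase_subset F A)).trans hAΔ) n)
    rw [ex_iff_exS (l1 A hA) (l1 _ lerase)]
    have hset : ∀ A : Finset (Finset V), F ∈ A →
        {H | H ∈ Δ' ∧ (¬ σ G ⊆ σ H ∨ (σ H ∈ A ∧ ¬ G ⊆ H))} \
        {H | H ∈ Δ' ∧ (¬ σ G ⊆ σ H ∨ (σ H ∈ A.erase F ∧ ¬ G ⊆ H))} =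
        {H | H ∈ Δ' ∧ σ H = F ∧ σ G ⊆ F ∧ ¬ G ⊆ H} := by
      intro A hFA
      ext H
      simp only [Set.mem_sdiff, Set.mem_ofPred_eq, mem_erase]
      grind
    rw [hset A hFA]
    by_cases h1 : σ G ⊆ F
    swap
    · intro c hc _ _
      refine ⟨0, Submodule.zero_mem _, Submodule.zero_mem _, fun H hH => absurd hH.2.2.1 h1⟩
    rcases h1.eq_or_ssubset with h2 | h2
    · convert h.inter G hG n using 1
      ext H; simp [h2]
    have hFΔ : F ∈ Δ := hAΔ hFA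
    have lp : IsLowerSet ((F.powerset : Finset (Finset V)) : Set (Finset V)) := by
      intro F1 F2 hle h1
      simp only [coe_powerset, Set.mem_preimage, Set.mem_powerset_iff, coe_subset] at h1 ⊢
      exact hle.trans h1
    have lpe : IsLowerSet ((F.powerset.erase F : Finset (Finset V)) : Set (Finset V)) := by
      intro F1 F2 hle h1
      simp only [coe_erase, Set.mem_sdiff, Set.mem_singleton_iff, mem_coe, mem_powerset] at h1 ⊢
      refine ⟨hle.trans h1.1, ?_⟩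
      rintro rfl
      exact h1.2 (le_antisymm h1.1 hle)
    rw [← hset F.powerset (mem_powerset_self F), ← ex_iff_exS (l1 _ lp) (l1 _ lpe)]
    refine DG.Ex.upper (B' := ch K {H | H ∈ Δ' ∧ ¬ σ G ⊆ σ H})
      (ch_mono fun H hH => ⟨hH.1, hH.2.imp id fun h1 => ⟨mem_of_mem_erase h1.1, h1.2⟩⟩)
      (ch_mono fun H hH => by exact ⟨hH.1, Or.inl hH.2⟩) ?_ (fun m _ => ih _ ?_ lpe ?_ m)
    · have lB : IsLowerSet {F' | F' ⊆ F ∧ ¬ σ G ⊆ F'} := fun F1 F2 hle h1 =>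
        ⟨hle.trans h1.1, fun h' => h1.2 (h'.trans hle)⟩
      have lc : IsLowerSet {H | H ∈ Δ' ∧ σ H ⊆ F ∧ ¬ G ⊆ H} := fun H H' hle hH =>
        ⟨h.low' hle hH.1, (h.mono H hH.1 H' hle).trans hH.2.1, fun h' => hH.2.2 (h'.trans hle)⟩
      obtain ⟨v, hv, hv0⟩ := exists_of_ssubset h2
      have e1 := T.ex_restr h (isLowerSet_Iic F) lB (fun F' hF' => h.low hF' hFΔ)
        (fun F' hF' => hF'.1) (n := n) (by
          rw [ex_iff_exS (isLowerSet_Iic F) lB]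
          convert exS_interval (K := K) (M := K) hv hv0 n using 1
          ext H; simp only [Set.mem_sdiff, Set.mem_Iic, Set.mem_ofPred_eq]; tauto)
      have e2 : (simpDG K K W).Ex (ch K {H | H ∈ Δ' ∧ σ H ∈ Set.Iic F})
          (ch K {H | H ∈ Δ' ∧ σ H ⊆ F ∧ ¬ G ⊆ H}) (n + 1) := by
        rw [ex_iff_exS (h.low_restr (isLowerSet_Iic F)) lc]
        convert h.bdry F hFΔ G hG h2 (n + 1) using 1
        ext H; simp only [Set.mem_sdiff, Set.mem_Iic, Set.mem_ofPred_eq]; tauto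
      have e3 := DG.Ex.lower (ch_mono fun H hH => by exact ⟨hH.1, hH.2.1⟩)
        (ch_mono fun H hH => by exact ⟨hH.1, hH.2.1, fun h' => hH.2.2 (h.mono H hH.1 G h')⟩) e1 e2
      rw [ex_iff_exS lc (h.low_restr lB)] at e3
      rw [ex_iff_exS (l1 _ lp) l0]
      convert e3 using 1
      ext H; simp only [Set.mem_sdiff, Set.mem_ofPred_eq, mem_powerset]; tauto
    · refine (erase_ssubset (mem_powerset_self F)).trans_subset fun F' hF' => ?_
      exact hA (mem_powerset.1 hF') hFA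
    · intro F' hF'
      exact h.low (mem_powerset.1 (mem_of_mem_erase hF')) hFΔ

/-- Local exactness passes to the subdivision. -/
theorem exS_star (h : HSub K Δ Δ' σ) {G : Finset W} (hG : G ∈ Δ') {n : ℕ}
    (hex : ExS K K {F | F ∈ Δ ∧ σ G ⊆ F} n) : ExS K K {H | H ∈ Δ' ∧ G ⊆ H} n := by
  classical
  have lB : IsLowerSet {F | F ∈ Δ ∧ ¬ σ G ⊆ F} := fun F1 F2 hle h1 =>
    ⟨h.low hle h1.1, fun h' => h1.2 (h'.trans hle)⟩
  have lc : IsLowerSet {H | H ∈ Δ' ∧ ¬ G ⊆ H} := fun H H' hle hH =>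
    ⟨h.low' hle hH.1, fun h' => hH.2 (h'.trans hle)⟩
  have e1 := T.ex_restr h h.low lB subset_rfl (fun F hF => hF.1) (n := n) (by
    rw [ex_iff_exS h.low lB]
    convert hex using 1
    ext H; simp only [Set.mem_sdiff, Set.mem_ofPred_eq]; tauto)
  have s1 : {H | H ∈ Δ' ∧ σ H ∈ Δ} = Δ' := by
    ext H; exact ⟨fun h' => h'.1, fun h' => ⟨h', h.map_mem H h'⟩⟩
  have s2 : {H | H ∈ Δ' ∧ σ H ∈ {F | F ∈ Δ ∧ ¬ σ G ⊆ F}} = {H | H ∈ Δ' ∧ ¬ σ G ⊆ σ H} := by
    ext H; exact ⟨fun h' => ⟨h'.1, h'.2.2⟩, fun h' => ⟨h'.1, h.map_mem H h'.1, h'.2⟩⟩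
  rw [s1, s2] at e1
  have e2 := fun m => T.ex_cost h hG (univ.filter (· ∈ Δ)) (by simpa using h.low)
    (by simp) m
  have s3 : {H | H ∈ Δ' ∧ (¬ σ G ⊆ σ H ∨ (σ H ∈ univ.filter (· ∈ Δ) ∧ ¬ G ⊆ H))} =
      {H | H ∈ Δ' ∧ ¬ G ⊆ H} := by
    ext H
    simp only [Set.mem_ofPred_eq, mem_filter, mem_univ, true_and]
    refine ⟨fun h' => ⟨h'.1, fun h1 => h'.2.elim (fun h2 => h2 (h.mono H h'.1 G h1))
      fun h2 => h2.2 h1⟩, fun h' => ⟨h'.1, Or.inr ⟨h.map_mem H h'.1, h'.2⟩⟩⟩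
  rw [s3] at e2
  have e3 := DG.Ex.upper (ch_mono fun H hH => hH.1)
    (ch_mono fun H hH => by exact ⟨hH.1, fun h' => hH.2 (h.mono H hH.1 G h')⟩) e1 (fun m _ => e2 m)
  rw [ex_iff_exS h.low' lc] at e3
  convert e3 using 1
  ext H; simp only [Set.mem_sdiff, Set.mem_ofPred_eq]; tauto

theorem card_le (h : HSub K Δ Δ' σ) {d : ℕ} (hd : ∀ F ∈ Δ, F.card ≤ d) :
    ∀ G ∈ Δ', G.card ≤ d := by
  classical
  intro G₀ hG₀
  by_contra hlt
  obtain ⟨G, hG⟩ := (univ.filter fun G => G ∈ Δ' ∧ d < G.card).exists_maximal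
    ⟨G₀, by simp [hG₀, not_le.1 hlt]⟩
  have hG1 : G ∈ Δ' ∧ d < G.card := by simpa using hG.1
  obtain ⟨e, he, hen, hb⟩ := T.exS_star h hG1.1 (n := G.card) (fun c hc hcn _ =>
    ⟨0, Submodule.zero_mem _, Submodule.zero_mem _, fun H hH => by
      rw [hcn H fun h' => by
        have := hd H hH.1
        have h'' : H.card = G.card := h'
        omega]
      simp⟩) (bv K G) (bv_mem_ch ⟨hG1.1, subset_rfl⟩) (bv_mem_ch rfl) (fun H hH => by
      refine bd_bv_mem G H ?_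
      rintro ⟨v, hv, rfl⟩
      exact notMem_erase v G (hH.2 hv))
  have he0 : e = 0 := by
    ext H
    by_contra hne
    have a1 := mem_ch'.1 he H hne
    have a2 : H.card = G.card + 1 := mem_ch'.1 hen H hne
    have := card_le_card (hG.2 (y := H) (by simp [a1.1]; omega) a1.2)
    omega
  have := hb G ⟨hG1.1, subset_rfl⟩
  simp [he0, bv] at this

theorem exists_card_eq {F : Finset V} (hF : F ∈ Δ) : ∃ G ∈ Δ', G.card = F.card := by
  by_contra hno
  have h0 : T.τ (bv K F) = 0 := by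
    ext H
    exact T.τ_mem F hF H fun h' => hno ⟨H, h'.1.1, h'.2⟩
  have := congrFun (T.push_τ F hF) F
  simp [h0, bv] at this

end Transfer

end Pool.Agent.Lib.MP_21db46_co
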