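import Pool.Agent.Lib.MP_21db46_co.Retract
import Pool.Agent.Lib.MP_21db46_co.Subdiv

/-! Homological properties of triangulated balls; a topological subdivision is a homology
subdivision. -/

namespace Pool.Agent.Lib.MP_21db46_co

open Finset unitInterval Metric

variable {K : Type*} [Field K] {W : Type*} [LinearOrder W] [Fintype W]

section Ball

variable {E : Type*} [NormedAddCommGroup E] [InnerProductSpace ℝ E]
variable {S : Set (Finset W)}

theorem shrink_mem (b : closedBall (0 : E) 1) (t : I) :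
    (1 - (t : ℝ)) • (b : E) ∈ closedBall (0 : E) 1 := by
  have h := mem_closedBall_zero_iff.1 b.2
  rw [mem_closedBall_zero_iff, norm_smul, Real.norm_of_nonneg (one_minus_nonneg t)]
  nlinarith [t.2.1, t.2.2, norm_nonneg (b : E)]

/-- shrinking a ball to its centre -/
def shrink (p : closedBall (0 : E) 1 × I) : closedBall (0 : E) 1 :=
  ⟨(1 - (p.2 : ℝ)) • (p.1 : E), shrink_mem p.1 p.2⟩

theorem continuous_shrink : Continuous (shrink (E := E)) :=
  Continuous.subtype_mk (by fun_prop) _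

theorem shrink_zero (b : closedBall (0 : E) 1) : shrink (b, 0) = b := by
  ext; simp [shrink]

theorem shrink_one (b : closedBall (0 : E) 1) :
    shrink (b, 1) = ⟨0, mem_closedBall_self zero_le_one⟩ := by
  ext; simp [shrink]

theorem shrink_ne {b c : closedBall (0 : E) 1} (hc : ‖(c : E)‖ = 1) (hbc : b ≠ c) (t : I) :
    shrink (b, t) ≠ c := by
  intro h
  have h1 : ‖(1 - (t : ℝ)) • (b : E)‖ = 1 :=
    (congrArg (fun z : closedBall (0 : E) 1 => ‖(z : E)‖) h).trans hc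
  rw [norm_smul, Real.norm_of_nonneg (one_minus_nonneg t)] at h1
  have h2 := mem_closedBall_zero_iff.1 b.2
  have h3 : (t : ℝ) = 0 := by nlinarith [t.2.1, t.2.2, norm_nonneg (b : E)]
  have h4 : t = 0 := Subtype.ext h3
  rw [h4, shrink_zero] at h
  exact hbc h

theorem ex_ball (l : IsLowerSet S) (φ : rl S ≃ₜ closedBall (0 : E) 1) (n : ℕ) :
    (simpDG K K W).Ex (ch K S) ⊥ n :=
  ex_of_contraction l (φ.symm ⟨0, mem_closedBall_self zero_le_one⟩).2
    (fun q => (φ.symm (shrink (φ q.1, q.2)) : W → ℝ))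
    (continuous_subtype_val.comp (φ.symm.continuous.comp (continuous_shrink.comp (by fun_prop))))
    (fun _ => Subtype.coe_prop _) (fun x => by simp [shrink_zero])
    (fun x => by simp [shrink_one]) n

omit [LinearOrder W] in
theorem low_cost (l : IsLowerSet S) (G : Finset W) : IsLowerSet {H | H ∈ S ∧ ¬ G ⊆ H} :=
  fun _ _ hle hH => ⟨l hle hH.1, fun h => hH.2 (h.trans hle)⟩

omit [LinearOrder W] in
theorem ne_of_mem_cost (l : IsLowerSet S) {x y : W → ℝ}
    (hy : y ∈ rl {H | H ∈ S ∧ ¬ supp x ⊆ H}) : y ≠ x := by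
  rintro rfl
  exact ((mem_rl (low_cost l _)).1 hy).2.2 subset_rfl

omit [LinearOrder W] in
/-- The complement of the open star of a boundary point is contractible. -/
theorem cost_contraction (l : IsLowerSet S) (φ : rl S ≃ₜ closedBall (0 : E) 1) (x : rl S)
    (hx : ‖(φ x : E)‖ = 1) :
    ∃ p ∈ rl {H | H ∈ S ∧ ¬ supp x.1 ⊆ H}, ∃ C : rl {H | H ∈ S ∧ ¬ supp x.1 ⊆ H} × I → W → ℝ,
      Continuous C ∧ (∀ q, C q ∈ rl {H | H ∈ S ∧ ¬ supp x.1 ⊆ H}) ∧ (∀ y, C (y, 0) = y.1) ∧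
        ∀ y, C (y, 1) = p := by
  obtain ⟨ρ, ρc, ρ1, ρ2⟩ := exists_retraction ((mem_rl l).1 x.2).1
  have lc := low_cost l (supp x.1)
  have ρ3 : ∀ z : rl S, z ≠ x → ρ z ∈ rl {H | H ∈ S ∧ ¬ supp x.1 ⊆ H} := fun z hz => by
    obtain ⟨h1, h2⟩ := (mem_rl l).1 z.2
    obtain ⟨h3, h4, h5, -⟩ := ρ1 z h1 fun h => hz (Subtype.ext h)
    exact (mem_rl lc).2 ⟨h3, l h4 h2, h5⟩
  let ι : rl {H | H ∈ S ∧ ¬ supp x.1 ⊆ H} → rl S := Set.inclusion (rl_mono fun _ h => h.1)
  have hι : Continuous ι := continuous_inclusion _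
  have hne : ∀ q : rl {H | H ∈ S ∧ ¬ supp x.1 ⊆ H} × I,
      φ.symm (shrink (φ (ι q.1), q.2)) ≠ x := fun q h =>
    shrink_ne (b := φ (ι q.1)) hx
      (fun h' => ne_of_mem_cost l q.1.2 (congrArg Subtype.val (φ.injective h'))) q.2
      (φ.symm_apply_eq.1 h)
  have h0 : φ.symm ⟨0, mem_closedBall_self zero_le_one⟩ ≠ x := fun h => by
    rw [← h] at hx; simp at hx
  refine ⟨_, ρ3 _ h0, fun q => ρ (φ.symm (shrink (φ (ι q.1), q.2))), ?_, fun q => ρ3 _ (hne q),
    fun y => ?_, fun y => by simp [shrink_one]⟩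
  · refine ρc.comp_continuous (continuous_subtype_val.comp
      (φ.symm.continuous.comp (continuous_shrink.comp (by fun_prop)))) fun q => ?_
    exact ⟨((mem_rl l).1 (Subtype.coe_prop _)).1, fun h => hne q (Subtype.ext h)⟩
  · obtain ⟨h1, h2⟩ := (mem_rl lc).1 y.2
    simpa [shrink_zero, ι] using ρ2 y h1 h2.2

theorem exS_star_of_boundary (l : IsLowerSet S) (φ : rl S ≃ₜ closedBall (0 : E) 1) (x : rl S)
    (hx : ‖(φ x : E)‖ = 1) (n : ℕ) : ExS K K {H | H ∈ S ∧ supp x.1 ⊆ H} n := by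
  obtain ⟨p, hp, C, hC, h1, h2, h3⟩ := cost_contraction l φ x hx
  have lc := low_cost l (supp x.1)
  have e := DG.Ex.upper (ch_mono fun H (hH : H ∈ {H | H ∈ S ∧ ¬ supp x.1 ⊆ H}) => hH.1) bot_le
    (ex_ball (K := K) l φ n)
    (fun m _ => ex_of_contraction lc hp C hC h1 (fun y => by rw [h2]) h3 m)
  rw [ex_iff_exS l lc] at e
  convert e using 1
  ext H; simp only [Set.mem_sdiff, Set.mem_ofPred_eq]; tauto

theorem ex_cost_of_interior (l : IsLowerSet S) (φ : rl S ≃ₜ closedBall (0 : E) 1) (x : rl S)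
    (hx : ‖(φ x : E)‖ < 1) {B : Set (Finset W)} (lB : IsLowerSet B) (eB : ∅ ∈ B)
    (hB : ∀ y : rl S, y.1 ∈ rl B ↔ ‖(φ y : E)‖ = 1) (hBc : B ⊆ {H | H ∈ S ∧ ¬ supp x.1 ⊆ H})
    (n : ℕ) : (simpDG K K W).Ex (ch K {H | H ∈ S ∧ ¬ supp x.1 ⊆ H}) (ch K B) n := by
  have : Nonempty W := (supp_nonempty ((mem_rl l).1 x.2).1).to_type
  obtain ⟨ρ, ρc, ρ1, ρ2⟩ := exists_retraction ((mem_rl l).1 x.2).1
  obtain ⟨τ, τc, τ1, τ2⟩ := exists_radial hx
  set c : E := (φ x : E) with hc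
  have lc := low_cost l (supp x.1)
  have ρ3 : ∀ z : rl S, z ≠ x → ρ z ∈ rl {H | H ∈ S ∧ ¬ supp x.1 ⊆ H} := fun z hz => by
    obtain ⟨h1, h2⟩ := (mem_rl l).1 z.2
    obtain ⟨h3, h4, h5, -⟩ := ρ1 z h1 fun h => hz (Subtype.ext h)
    exact (mem_rl lc).2 ⟨h3, l h4 h2, h5⟩
  let ι : rl {H | H ∈ S ∧ ¬ supp x.1 ⊆ H} → rl S := Set.inclusion (rl_mono fun _ h => h.1)
  have hι : Continuous ι := continuous_inclusion _
  have hb : ∀ y, (φ (ι y) : E) ≠ c := fun y h =>
    ne_of_mem_cost l y.2 (congrArg Subtype.val (φ.injective (Subtype.ext h)))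
  let k : rl {H | H ∈ S ∧ ¬ supp x.1 ⊆ H} × I → E := fun q =>
    (1 - (q.2 : ℝ)) • (φ (ι q.1) : E) + (q.2 : ℝ) • (c + τ (φ (ι q.1)) • ((φ (ι q.1) : E) - c))
  have hτ : Continuous fun y => τ (φ (ι y)) := τc.comp_continuous (by fun_prop) hb
  have hφ : Continuous fun y => (φ (ι y) : E) := by fun_prop
  have ht : Continuous fun q : rl {H | H ∈ S ∧ ¬ supp x.1 ⊆ H} × I => (q.2 : ℝ) := by fun_prop
  have kc : Continuous k :=
    ((continuous_const.sub ht).smul (hφ.comp continuous_fst)).add (ht.smul (continuous_const.add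
      ((hτ.comp continuous_fst).smul ((hφ.comp continuous_fst).sub continuous_const))))
  have km : ∀ q, k q ∈ closedBall (0 : E) 1 := fun q =>
    convex_closedBall (0 : E) 1 (φ (ι q.1)).2 (mem_closedBall_zero_iff.2 (τ1 _ (hb q.1)).2.le)
      (one_minus_nonneg q.2) q.2.2.1 (by ring)
  have kne : ∀ q, φ.symm ⟨k q, km q⟩ ≠ x := fun q h => by
    have h1 : k q = c := by rw [hc, ← h]; simp
    have h2 : k q - c = (1 - (q.2 : ℝ) + q.2 * τ (φ (ι q.1))) • ((φ (ι q.1) : E) - c) := by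
      simp only [k]; module
    have h3 : 0 < 1 - (q.2 : ℝ) + q.2 * τ (φ (ι q.1)) := by
      have h4 := (τ1 _ (hb q.1)).1
      rcases q.2.2.1.eq_or_lt with h5 | h5
      · rw [← h5]; simp
      · have := mul_pos h5 h4
        linarith [q.2.2.2]
    rw [h1, sub_self] at h2
    exact hb q.1 (sub_eq_zero.1 ((smul_eq_zero.1 h2.symm).resolve_left h3.ne'))
  have fixB : ∀ z : rl S, z.1 ∈ rl B → ρ z = z := fun z hz =>
    ρ2 z ((mem_rl l).1 z.2).1 (hBc ((mem_rl lB).1 hz).2).2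
  refine ex_of_deformation lc lB hBc eB (fun q => ρ (φ.symm ⟨k q, km q⟩)) ?_
    (fun q => ρ3 _ (kne q)) (fun y => ?_) (fun y t hy => ?_) (fun y => ?_) n
  · refine ρc.comp_continuous (continuous_subtype_val.comp
      (φ.symm.continuous.comp (kc.subtype_mk _))) fun q => ?_
    exact ⟨((mem_rl l).1 (Subtype.coe_prop _)).1, fun h => kne q (Subtype.ext h)⟩
  · have h1 : (⟨k (y, 0), km _⟩ : closedBall (0 : E) 1) = φ (ι y) := by ext; simp [k]
    obtain ⟨h2, h3⟩ := (mem_rl lc).1 y.2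
    simp only [h1, Homeomorph.symm_apply_apply]
    exact (ρ1 y h2 (ne_of_mem_cost l y.2)).2.1
  · have h0 := τ2 _ ((hB (ι y)).1 hy)
    have h1 : (⟨k (y, t), km _⟩ : closedBall (0 : E) 1) = φ (ι y) := by
      ext; simp only [k, h0]; module
    simp only [h1, Homeomorph.symm_apply_apply]
    rw [fixB _ hy]; exact hy
  · have h1 : (φ.symm ⟨k (y, 1), km _⟩).1 ∈ rl B := by
      rw [hB]; simpa [k] using (τ1 _ (hb y)).2
    rw [fixB _ h1]; exact h1

end Ball

omit [LinearOrder W] in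
/-- Invariance of the boundary along open simplices. -/
theorem boundary_invariance {n : ℕ} {S : Set (Finset W)} (l : IsLowerSet S)
    (φ : rl S ≃ₜ closedBall (0 : EuclideanSpace ℝ (Fin n)) 1) (x y : rl S)
    (hxy : supp x.1 = supp y.1) (hx : ‖(φ x : EuclideanSpace ℝ (Fin n))‖ = 1) :
    ‖(φ y : EuclideanSpace ℝ (Fin n))‖ = 1 := by
  by_contra hy
  have hy1 : ‖(φ y : EuclideanSpace ℝ (Fin n))‖ < 1 :=
    lt_of_le_of_ne (mem_closedBall_zero_iff.1 (φ y).2) hy
  have hcc := cost_contraction l φ x hx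
  rw [hxy] at hcc
  obtain ⟨p, hp, C, hC, C1, C2, C3⟩ := hcc
  obtain ⟨ρ, ρc, ρ1, -⟩ := exists_retraction ((mem_rl l).1 y.2).1
  obtain ⟨τ, τc, τ1, τ2⟩ := exists_radial hy1
  obtain ⟨α, β, αc, βc, hα, hβ⟩ := exists_sphere_retract n
  set c : EuclideanSpace ℝ (Fin n) := (φ y : EuclideanSpace ℝ (Fin n)) with hc
  have lc := low_cost l (supp y.1)
  have low : IsLowerSet {H : Finset (Fin (n + 1)) | H ≠ univ} := fun H H' hle hH h =>
    hH (eq_univ_of_forall fun v => hle (h ▸ mem_univ v))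
  let z : rl {H : Finset (Fin (n + 1)) | H ≠ univ} → rl S := fun q =>
    φ.symm ⟨α q, mem_closedBall_zero_iff.2 (hα q q.2).1.le⟩
  have zc : Continuous z :=
    φ.symm.continuous.comp ((αc.comp_continuous continuous_subtype_val fun q => q.2).subtype_mk _)
  have zne : ∀ q, (z q).1 ≠ y.1 := fun q h => by
    have h1 : z q = y := Subtype.ext h
    apply hy
    rw [hc, ← h1]; simpa [z] using (hα q q.2).1
  have zs : ∀ q, (z q).1 ∈ stdSimplex ℝ W := fun q => ((mem_rl l).1 (z q).2).1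
  have ρm : ∀ q, ρ (z q) ∈ rl {H | H ∈ S ∧ ¬ supp y.1 ⊆ H} := fun q => by
    obtain ⟨h3, h4, h5, -⟩ := ρ1 _ (zs q) (zne q)
    exact (mem_rl lc).2 ⟨h3, l h4 ((mem_rl l).1 (z q).2).2, h5⟩
  have ρzc : Continuous fun q => ρ (z q) :=
    ρc.comp_continuous (continuous_subtype_val.comp zc) fun q => ⟨zs q, zne q⟩
  let a : I → ℝ := fun t => min (2 * (t : ℝ)) 1
  let b : I → I := fun t => Set.projIcc 0 1 zero_le_one (2 * (t : ℝ) - 1)
  have ac : Continuous a := by fun_prop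
  have bc : Continuous b := continuous_projIcc.comp (by fun_prop)
  let g : rl {H : Finset (Fin (n + 1)) | H ≠ univ} × I → W → ℝ := fun q =>
    (1 - a q.2) • (z q.1).1 + a q.2 • C (⟨ρ (z q.1), ρm q.1⟩, b q.2)
  have gc : Continuous g := by
    have : Continuous fun q : rl {H : Finset (Fin (n + 1)) | H ≠ univ} × I =>
        C (⟨ρ (z q.1), ρm q.1⟩, b q.2) :=
      hC.comp (((ρzc.comp continuous_fst).subtype_mk _).prodMk (bc.comp continuous_snd))
    exact ((continuous_const.sub (ac.comp continuous_snd)).smul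
      (continuous_subtype_val.comp (zc.comp continuous_fst))).add
      ((ac.comp continuous_snd).smul this)
  have gm : ∀ q, g q ∈ rl S ∧ g q ≠ y.1 := fun q => by
    by_cases ht : 2 * (q.2 : ℝ) ≤ 1
    · have h1 : b q.2 = 0 := Set.projIcc_of_le_left _ (by linarith)
      have h2 : 0 ≤ a q.2 := le_min (by linarith [q.2.2.1]) zero_le_one
      have h3 : a q.2 ≤ 1 := min_le_right _ _
      obtain ⟨h4, h5, -, h6⟩ := ρ1 _ (zs q.1) (zne q.1)
      simp only [g, h1, C2]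
      refine ⟨geomFace_subset_rl ((mem_rl l).1 (z q.1).2).2 (convex_geomFace _
        (mem_geomFace.2 ⟨zs _, subset_rfl⟩) (mem_geomFace.2 ⟨h4, h5⟩) (by linarith) h2
        (by ring)), h6 _ h2 h3⟩
    · have h1 : a q.2 = 1 := min_eq_right (by linarith)
      simp only [g, h1, sub_self, zero_smul, one_smul, zero_add]
      exact ⟨rl_mono (fun _ h => h.1) (C1 _), ne_of_mem_cost l (C1 _)⟩
  let u : rl {H : Finset (Fin (n + 1)) | H ≠ univ} × I → EuclideanSpace ℝ (Fin n) := fun q =>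
    φ ⟨g q, (gm q).1⟩
  have uc : Continuous u := continuous_subtype_val.comp (φ.continuous.comp (gc.subtype_mk _))
  have une : ∀ q, u q ≠ c := fun q h =>
    (gm q).2 (congrArg Subtype.val (φ.injective (Subtype.ext h)))
  have rne : ∀ b, b ≠ c → c + τ b • (b - c) ≠ 0 := fun b hb h => by
    have := (τ1 b hb).2
    rw [h] at this; simp at this
  have pS : p ∈ rl S := rl_mono (fun _ h => h.1) hp
  have pne : (φ ⟨p, pS⟩ : EuclideanSpace ℝ (Fin n)) ≠ c := fun h =>
    ne_of_mem_cost l hp (congrArg Subtype.val (φ.injective (Subtype.ext h)))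
  refine sphere_not_acyclic n (ex_of_contraction low (hβ _ (rne _ pne))
    (fun q => β (c + τ (u q) • (u q - c))) ?_ (fun q => hβ _ (rne _ (une q))) (fun q => ?_)
    (fun q => ?_) n)
  · have : Continuous fun q => τ (u q) := τc.comp_continuous uc une
    exact βc.comp_continuous (continuous_const.add (this.smul (uc.sub continuous_const)))
      fun q => rne _ (une q)
  · have h1 : (⟨g (q, 0), (gm _).1⟩ : rl S) = z q := by ext1; simp [g, a]
    have h2 : u (q, 0) = α q := by simp only [u, h1]; simp [z]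
    simp only [h2, τ2 _ (hα q q.2).1, one_smul, add_sub_cancel, (hα q q.2).2, subset_rfl]
  · have h0 : b 1 = 1 := Set.projIcc_of_right_le _ (by norm_num)
    have h1 : (⟨g (q, 1), (gm _).1⟩ : rl S) = ⟨p, pS⟩ := by ext1; simp [g, a, h0, C3]
    simp only [u, h1]

end Pool.Agent.Lib.MP_21db46_co
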