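import Pool.Agent.Lib.MP_21db46_co.Chain

/-! Excision, acyclic carriers, push-forward of chains, extension of coefficients. -/

namespace Pool.Agent.Lib.MP_21db46_co

open Finset

section Lin

variable {K : Type*} [Field K] {ι : Type*} [Fintype ι] [DecidableEq ι]
variable {E : Type*} [AddCommGroup E] [Module K E]

/-- basis vector -/
abbrev bv (K : Type*) [Field K] {ι : Type*} [DecidableEq ι] (F : ι) : ι → K := Pi.single F 1

/-- the linear map with prescribed values on the basis -/
def lin (K : Type*) [Field K] {E : Type*} [AddCommGroup E] [Module K E] {ι : Type*} [Fintype ι]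
    (h : ι → E) : (ι → K) →ₗ[K] E := Fintype.linearCombination K h

omit [DecidableEq ι] in
theorem lin_apply (h : ι → E) (c : ι → K) : lin K h c = ∑ F, c F • h F :=
  Fintype.linearCombination_apply K h c

@[simp] theorem lin_bv (h : ι → E) (F : ι) : lin K h (bv K F) = h F := by
  simp [lin, bv]

theorem eq_sum_bv (c : ι → K) : c = ∑ F, c F • bv K F := by
  ext H; simp [Finset.sum_apply, bv, Pi.single_apply]

theorem ch_ext {S : Set ι} {L L' : (ι → K) →ₗ[K] E} (h : ∀ F ∈ S, L (bv K F) = L' (bv K F))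
    {c : ι → K} (hc : c ∈ ch K S) : L c = L' c := by
  rw [eq_sum_bv c, map_sum, map_sum]
  refine Finset.sum_congr rfl fun F _ => ?_
  by_cases hF : F ∈ S
  · rw [map_smul, map_smul, h F hF]
  · rw [hc F hF, zero_smul, map_zero, map_zero]

theorem map_mem_of_ch {S : Set ι} {L : (ι → K) →ₗ[K] E} {U : Submodule K E}
    (h : ∀ F ∈ S, L (bv K F) ∈ U) {c : ι → K} (hc : c ∈ ch K S) : L c ∈ U := by
  rw [eq_sum_bv c, map_sum]
  refine U.sum_mem fun F _ => ?_
  by_cases hF : F ∈ S
  · rw [map_smul]; exact U.smul_mem _ (h F hF)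
  · rw [hc F hF, zero_smul, map_zero]; exact U.zero_mem

theorem bv_mem_ch {S : Set ι} {F : ι} (hF : F ∈ S) : bv K F ∈ ch K S := single_mem_ch hF 1

variable {κ : Type*} [Fintype κ] [DecidableEq κ] (M : Type*) [AddCommGroup M] [Module K M]

/-- Extension of a linear map between free modules to coefficients in `M`. -/
def mext (L : (ι → K) →ₗ[K] (κ → K)) : (ι → M) →ₗ[K] (κ → M) where
  toFun c H := ∑ F, L (bv K F) H • c F
  map_add' c c' := by ext H; simp [Finset.sum_add_distrib]
  map_smul' r c := by ext H; simp [Finset.smul_sum, smul_comm r]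

variable {M}

omit [Fintype κ] [DecidableEq κ] in
theorem mext_apply (L : (ι → K) →ₗ[K] (κ → K)) (c : ι → M) (H : κ) :
    mext M L c H = ∑ F, L (bv K F) H • c F := rfl

theorem mext_mext {μ : Type*} (L : (ι → K) →ₗ[K] (κ → K)) (L' : (κ → K) →ₗ[K] (μ → K))
    (c : ι → M) : mext M L' (mext M L c) = mext M (L' ∘ₗ L) c := by
  ext H
  simp only [mext_apply, Finset.smul_sum, smul_smul, LinearMap.comp_apply]
  rw [Finset.sum_comm]
  refine Finset.sum_congr rfl fun F _ => ?_
  rw [← Finset.sum_smul]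
  congr 1
  conv_rhs => rw [eq_sum_bv (L (bv K F)), map_sum, Finset.sum_apply]
  exact Finset.sum_congr rfl fun G _ => by simp [mul_comm]

theorem mext_id (c : ι → M) : mext M (LinearMap.id : (ι → K) →ₗ[K] (ι → K)) c = c := by
  ext H; simp [mext_apply, bv, Pi.single_apply]

omit [Fintype κ] [DecidableEq κ] in
theorem mext_add (L L' : (ι → K) →ₗ[K] (κ → K)) (c : ι → M) :
    mext M (L + L') c = mext M L c + mext M L' c := by
  ext H; simp [mext_apply, add_smul, Finset.sum_add_distrib]

omit [Fintype κ] [DecidableEq κ] in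
theorem mext_congr {S : Set ι} {L L' : (ι → K) →ₗ[K] (κ → K)}
    (h : ∀ F ∈ S, L (bv K F) = L' (bv K F)) {c : ι → M} (hc : c ∈ ch K S) :
    mext M L c = mext M L' c := by
  ext H
  refine Finset.sum_congr rfl fun F _ => ?_
  by_cases hF : F ∈ S
  · rw [h F hF]
  · rw [hc F hF, smul_zero, smul_zero]

omit [Fintype κ] [DecidableEq κ] in
theorem mext_mem_ch {S : Set ι} {T : Set κ} {L : (ι → K) →ₗ[K] (κ → K)}
    (h : ∀ F ∈ S, L (bv K F) ∈ ch K T) {c : ι → M} (hc : c ∈ ch K S) :
    mext M L c ∈ ch K T := by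
  intro H hH
  refine Finset.sum_eq_zero fun F _ => ?_
  by_cases hF : F ∈ S
  · rw [h F hF H hH, zero_smul]
  · rw [hc F hF, smul_zero]

omit [Fintype κ] [DecidableEq κ] in
theorem mext_self (L : (ι → K) →ₗ[K] (κ → K)) (c : ι → K) : mext K L c = L c := by
  ext H
  conv_rhs => rw [eq_sum_bv c, map_sum, Finset.sum_apply]
  exact Finset.sum_congr rfl fun F _ => by simp [mul_comm]

end Lin

section Excision

variable {K : Type*} [Field K] {V : Type*} [LinearOrder V] [Fintype V]
variable {M : Type*} [AddCommGroup M] [Module K M]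

theorem bd_bv_apply (F H : Finset V) :
    bd K (bv K F) H = ∑ v ∈ Hᶜ, if insert v H = F then (sgn v H : K) else 0 := by
  rw [bd_apply]
  refine Finset.sum_congr rfl fun v _ => ?_
  simp [bv, Pi.single_apply]

theorem mext_bd (c : Finset V → M) :
    mext M (bd K : (Finset V → K) →ₗ[K] (Finset V → K)) c = bd K c := by
  ext H
  rw [mext_apply, bd_apply]
  simp only [bd_bv_apply, Finset.sum_smul]
  rw [Finset.sum_comm]
  refine Finset.sum_congr rfl fun v _ => ?_
  simp [Int.cast_smul_eq_zsmul]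

theorem bd_bv_mem (F : Finset V) :
    bd K (bv K F) ∈ ch K {H | ∃ v ∈ F, H = F.erase v} :=
  bd_mem_ch (S := {F}) (bv_mem_ch rfl) fun H v hv h =>
    ⟨v, by rw [← Set.mem_singleton_iff.1 h]; simp, by
      rw [← Set.mem_singleton_iff.1 h, erase_insert hv]⟩

theorem bd_bv_empty : bd K (bv K (∅ : Finset V)) = 0 :=
  (simpDG K K V).D_gr0 _ (bv_mem_ch (by simp))

variable (K M) in
/-- exactness of the complex spanned by the family `S` (a difference of two complexes) -/
def ExS (S : Set (Finset V)) (n : ℕ) : Prop :=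
  ∀ c : Finset V → M, c ∈ ch K S → c ∈ ch K {H | H.card = n} → (∀ H ∈ S, bd K c H = 0) →
    ∃ e : Finset V → M, e ∈ ch K S ∧ e ∈ ch K {H | H.card = n + 1} ∧ ∀ H ∈ S, bd K e H = c H

theorem indicator_mem_ch {ι : Type*} (S : Set ι) (c : ι → M) : S.indicator c ∈ ch K S :=
  fun _ hH => Set.indicator_of_notMem hH c

theorem indicator_mem_ch_of {ι : Type*} (S : Set ι) {T : Set ι} {c : ι → M} (hc : c ∈ ch K T) :
    S.indicator c ∈ ch K T := fun H hH => by
  rw [Set.indicator_apply_eq_zero]; exact fun _ => hc H hH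

theorem sub_indicator_mem_ch {ι : Type*} {S T : Set ι} {c : ι → M} (hc : c ∈ ch K S) :
    c - (S \ T).indicator c ∈ ch K T := by
  intro H hH
  by_cases hS : H ∈ S
  · rw [Pi.sub_apply, Set.indicator_of_mem (show H ∈ S \ T from ⟨hS, hH⟩), sub_self]
  · rw [Pi.sub_apply, Set.indicator_of_notMem (fun h => hS h.1), hc H hS, sub_self]

theorem ex_iff_exS {S T : Set (Finset V)} (hS : IsLowerSet S) (hT : IsLowerSet T) (n : ℕ) :
    (simpDG K M V).Ex (ch K S) (ch K T) n ↔ ExS K M (S \ T) n := by
  constructor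
  · intro h c hc hcn hD
    have hcS : c ∈ ch K S := ch_mono Set.sdiff_subset hc
    obtain ⟨y, hy, hyn, hb⟩ := h c hcS hcn (fun H hH => by
      by_cases hHS : H ∈ S
      · exact hD H ⟨hHS, hH⟩
      · exact sub_of_lower hS c hcS H hHS)
    refine ⟨(S \ T).indicator y, indicator_mem_ch _ _, indicator_mem_ch_of _ hyn, fun H hH => ?_⟩
    have h1 := sub_of_lower (K := K) (M := M) hT _ (sub_indicator_mem_ch (T := T) hy) H hH.2
    have h2 := hb H hH.2
    simp only [simpDG_D, map_sub, Pi.sub_apply] at h1 h2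
    rw [← sub_eq_zero.1 h1, ← sub_eq_zero.1 h2]
  · intro h x hx hxn hD
    have h1 := sub_of_lower (K := K) (M := M) hT _ (sub_indicator_mem_ch (T := T) hx)
    obtain ⟨e, he, hen, hb⟩ := h ((S \ T).indicator x) (indicator_mem_ch _ _)
      (indicator_mem_ch_of _ hxn) (fun H hH => by
        have h2 := h1 H hH.2
        have h3 := hD H hH.2
        simp only [simpDG_D, map_sub, Pi.sub_apply] at h2 h3
        rw [← sub_eq_zero.1 h2, h3])
    have heS : e ∈ ch K S := ch_mono Set.sdiff_subset he
    refine ⟨e, heS, hen, fun H hH => ?_⟩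
    by_cases hHS : H ∈ S
    · rw [Pi.sub_apply, simpDG_D, hb H ⟨hHS, hH⟩,
        Set.indicator_of_mem (show H ∈ S \ T from ⟨hHS, hH⟩), sub_self]
    · rw [Pi.sub_apply, hx H hHS, sub_of_lower hS e heS H hHS, sub_self]

/-- A proper interval of the Boolean lattice is acyclic. -/
theorem exS_interval {F₀ F : Finset V} {v : V} (hv : v ∈ F) (hv0 : v ∉ F₀) (n : ℕ) :
    ExS K M {H | F₀ ⊆ H ∧ H ⊆ F} n := by
  intro c hc hcn hD
  refine ⟨cre K v c, cre_mem_ch hc fun H hH _ =>
    ⟨hH.1.trans (subset_insert v H), insert_subset hv hH.2⟩,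
    cre_mem_ch hcn fun H hH hvH => ?_, fun H hH => ?_⟩
  · simp only [Set.mem_ofPred_eq] at hH ⊢
    rw [card_insert_of_notMem hvH, hH]
  · rw [bd_cre, Pi.sub_apply, cre_apply]
    split_ifs with hvH
    · rw [hD (H.erase v) ⟨subset_erase.2 ⟨hH.1, hv0⟩, (erase_subset v H).trans hH.2⟩]; simp
    · simp

theorem ex_simplex {F : Finset V} (hF : F.Nonempty) (n : ℕ) :
    (simpDG K M V).Ex (ch K (Set.Iic F)) ⊥ n := by
  obtain ⟨v, hv⟩ := hF
  rw [← ch_empty, ex_iff_exS (isLowerSet_Iic F) isLowerSet_empty]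
  convert exS_interval (K := K) (M := M) (F₀ := ∅) hv (notMem_empty v) n using 1
  ext H; simp

end Excision

section Carrier

variable {K : Type*} [Field K] {V : Type*} [LinearOrder V] [Fintype V]
variable {E : Type*} [AddCommGroup E] [Module K E]

/-- The acyclic carrier theorem, for chain maps (`g = 0`, `ε = 1`) and for chain homotopies
(`ε = -1`) at once. -/
theorem acyclic_carrier {S : Set (Finset V)} (hS : IsLowerSet S) (D : E →ₗ[K] E)
    (Φ Ψ : Finset V → Submodule K E) (ε : K) (g : Finset V → E) (a : E)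
    (ha : a ∈ Φ ∅) (hDa : D a = g ∅)
    (hg : ∀ F ∈ S, F.Nonempty → g F ∈ Ψ F)
    (hΦ : ∀ F ∈ S, ∀ v ∈ F, Φ (F.erase v) ≤ Ψ F)
    (hex : ∀ F ∈ S, F.Nonempty → ∀ z ∈ Ψ F, D z = 0 → ∃ y ∈ Φ F, D y = z)
    (hDg : ∀ F ∈ S, D (g F) + ε • lin K g (bd K (bv K F)) = 0) :
    ∃ h : Finset V → E, h ∅ = a ∧ ∀ F ∈ S, h F ∈ Φ F ∧
      D (h F) = g F + ε • lin K h (bd K (bv K F)) := by
  classical
  have key : ∀ n : ℕ, ∃ h : Finset V → E, h ∅ = a ∧ ∀ F ∈ S, F.card ≤ n → h F ∈ Φ F ∧
      D (h F) = g F + ε • lin K h (bd K (bv K F)) := by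
    intro n
    induction n with
    | zero =>
      refine ⟨fun _ => a, rfl, fun F _ hF => ?_⟩
      obtain rfl : F = ∅ := by simpa using hF
      exact ⟨ha, by simp [bd_bv_empty, hDa]⟩
    | succ n ih =>
      obtain ⟨h, h0, hh⟩ := ih
      have step : ∀ F, F ∈ S ∧ F.card = n + 1 →
          ∃ y ∈ Φ F, D y = g F + ε • lin K h (bd K (bv K F)) := by
        rintro F ⟨hF, hFn⟩
        have hne : F.Nonempty := card_pos.1 (by omega)
        have hsub : ∀ H ∈ {H | ∃ v ∈ F, H = F.erase v}, H ∈ S ∧ H.card ≤ n := by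
          rintro _ ⟨v, hv, rfl⟩
          exact ⟨hS (erase_subset v F) hF, by rw [card_erase_of_mem hv]; omega⟩
        refine hex F hF hne _ (Submodule.add_mem _ (hg F hF hne) (Submodule.smul_mem _ _
          (map_mem_of_ch (fun H hH => ?_) (bd_bv_mem F)))) ?_
        · obtain ⟨v, hv, rfl⟩ := id hH
          rw [lin_bv]
          exact hΦ F hF v hv (hh _ (hsub _ hH).1 (hsub _ hH).2).1
        · have h1 : (D ∘ₗ lin K h) (bd K (bv K F)) =
              (lin K g + ε • (lin K h ∘ₗ bd K)) (bd K (bv K F)) :=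
            ch_ext (fun H hH => by
              simp only [LinearMap.comp_apply, lin_bv, LinearMap.add_apply, LinearMap.smul_apply]
              exact (hh _ (hsub _ hH).1 (hsub _ hH).2).2) (bd_bv_mem F)
          simp only [LinearMap.comp_apply, LinearMap.add_apply, LinearMap.smul_apply, bd_bd,
            map_zero, smul_zero, add_zero] at h1
          rw [map_add, map_smul, h1, hDg F hF]
      choose! y hy using step
      refine ⟨fun F => if F ∈ S ∧ F.card = n + 1 then y F else h F, by simp [h0],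
        fun F hF hFn => ?_⟩
      have h2 : lin K (fun F => if F ∈ S ∧ F.card = n + 1 then y F else h F) (bd K (bv K F)) =
          lin K h (bd K (bv K F)) := by
        refine ch_ext (fun H hH => ?_) (bd_bv_mem F)
        obtain ⟨v, hv, rfl⟩ := hH
        have : (F.erase v).card ≠ n + 1 := by
          rw [card_erase_of_mem hv]; have := card_pos.2 ⟨v, hv⟩; omega
        simp only [lin_bv, this, and_false, if_false]
      rw [h2]
      by_cases hc : F.card = n + 1
      · simp only [hF, hc, and_self, if_true]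
        exact hy F ⟨hF, hc⟩
      · simp only [hc, and_false, if_false]
        exact hh F hF (by omega)
  obtain ⟨h, h0, hh⟩ := key (Fintype.card V)
  exact ⟨h, h0, fun F hF => hh F hF (card_le_univ F)⟩

end Carrier

section Push

variable (K : Type*) [Field K] {V : Type*} [LinearOrder V]

/-- the oriented chain of a list of vertices -/
def wl : List V → (Finset V → K)
  | [] => bv K ∅
  | a :: l => cre K a (wl l)

theorem wl_mem (l : List V) : wl K l ∈ ch K {H | H = l.toFinset ∧ H.card = l.length} := by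
  induction l with
  | nil => exact single_mem_ch (by simp) 1
  | cons a l ih =>
    refine cre_mem_ch ih fun H hH ha => ?_
    simp only [Set.mem_ofPred_eq] at hH ⊢
    rw [card_insert_of_notMem ha, hH.2, hH.1]; simp

variable {W : Type*} [LinearOrder W] [Fintype W]

/-- push-forward of oriented chains along a vertex map -/
noncomputable def push (f : W → V) : (Finset W → K) →ₗ[K] (Finset V → K) :=
  lin K fun G => wl K ((G.sort (· ≤ ·)).map f)

theorem push_bv_mem (f : W → V) (G : Finset W) :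
    push K f (bv K G) ∈ ch K {H | H = G.image f ∧ H.card = G.card} := by
  rw [push, lin_bv]
  refine ch_mono ?_ (wl_mem K ((G.sort (· ≤ ·)).map f))
  rintro H ⟨h1, h2⟩
  refine ⟨?_, by simpa using h2⟩
  rw [h1]; ext v; simp

theorem push_bv_empty (f : W → V) : push K f (bv K ∅) = bv K ∅ := by
  rw [push, lin_bv]; simp [wl]

omit [Fintype W] in
theorem cre_bv_of_lt {a : W} {s : Finset W} (h : ∀ x ∈ s, a < x) :
    cre K a (bv K s) = bv K (insert a s) := by
  have ha : a ∉ s := fun h' => lt_irrefl a (h a h')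
  ext H
  rw [cre_apply]
  by_cases hH : H = insert a s
  · subst hH
    rw [if_pos (mem_insert_self a s), erase_insert ha, sgn_insert_self, sgn_of_lt h]
    simp [bv]
  · rw [bv, bv, Pi.single_eq_of_ne hH]
    split_ifs with haH
    · rw [Pi.single_eq_of_ne, smul_zero]
      rintro rfl
      exact hH (insert_erase haH).symm
    · rfl

theorem push_cre (f : W → V) {a : W} {c : Finset W → K} (hc : c ∈ ch K {H | ∀ x ∈ H, a < x}) :
    push K f (cre K a c) = cre K (f a) (push K f c) := by
  refine ch_ext (L := push K f ∘ₗ cre K a) (L' := cre K (f a) ∘ₗ push K f) (fun s hs => ?_) hc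
  have ha : a ∉ s := fun h' => lt_irrefl a (hs a h')
  simp only [LinearMap.comp_apply]
  rw [cre_bv_of_lt K hs, push, lin_bv, lin_bv, sort_insert _ (fun b hb => (hs b hb).le) ha]
  rfl

theorem bd_push [Fintype V] (f : W → V) (c : Finset W → K) :
    bd K (push K f c) = push K f (bd K c) := by
  refine ch_ext (S := Set.univ) (L := bd K ∘ₗ push K f) (L' := push K f ∘ₗ bd K)
    (fun G _ => ?_) (fun _ h => absurd trivial h)
  simp only [LinearMap.comp_apply]
  induction G using Finset.induction_on_min with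
  | empty => rw [push_bv_empty, bd_bv_empty, bd_bv_empty, map_zero]
  | insert a s hs ih =>
    rw [← cre_bv_of_lt K hs, push_cre K f (bv_mem_ch hs), bd_cre, bd_cre, map_sub, ih trivial,
      push_cre K f]
    refine ch_mono ?_ (bd_bv_mem s)
    rintro _ ⟨v, _, rfl⟩ x hx
    exact hs x (mem_of_mem_erase hx)

end Push

end Pool.Agent.Lib.MP_21db46_co
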