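import Pool.Agent.Lib.MP_21db46_co.Hom

/-! Oriented chains on finite subsets: annihilation and creation operators, weighted boundary. -/

namespace Pool.Agent.Lib.MP_21db46_co

open Finset

section CAR

variable {V : Type*} [LinearOrder V]

/-- the sign of `v` relative to `H` -/
def sgn (v : V) (H : Finset V) : ℤ := (-1) ^ (H.filter (· < v)).card

theorem sgn_mul_self (v : V) (H : Finset V) : sgn v H * sgn v H = 1 := by
  rw [sgn, ← pow_add, ← two_mul, pow_mul]; simp

theorem sgn_insert {v w : V} {H : Finset V} (hw : w ∉ H) :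
    sgn v (insert w H) = (if w < v then -1 else 1) * sgn v H := by
  unfold sgn
  rw [filter_insert]
  split_ifs with h
  · rw [card_insert_of_notMem (by simp [hw]), pow_succ]; ring
  · simp

theorem sgn_insert_self (v : V) (H : Finset V) : sgn v (insert v H) = sgn v H := by
  unfold sgn; rw [filter_insert]; simp

theorem sgn_erase_self (v : V) (H : Finset V) : sgn v (H.erase v) = sgn v H := by
  by_cases h : v ∈ H
  · conv_rhs => rw [← insert_erase h]
    rw [sgn_insert_self]
  · rw [erase_eq_of_notMem h]

theorem sgn_of_lt {v : V} {H : Finset V} (h : ∀ w ∈ H, v < w) : sgn v H = 1 := by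
  unfold sgn
  rw [filter_eq_empty_iff.2 fun w hw => not_lt.2 (h w hw).le]; simp

variable (R : Type*) [CommRing R] {M : Type*} [AddCommGroup M] [Module R M]

/-- annihilation operator -/
def ann (v : V) : (Finset V → M) →ₗ[R] (Finset V → M) where
  toFun c H := if v ∈ H then 0 else sgn v H • c (insert v H)
  map_add' c c' := by ext H; by_cases h : v ∈ H <;> simp [h]
  map_smul' r c := by
    ext H; by_cases h : v ∈ H <;> simp [h, smul_comm r]

/-- creation operator -/
def cre (v : V) : (Finset V → M) →ₗ[R] (Finset V → M) where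
  toFun c H := if v ∈ H then sgn v H • c (H.erase v) else 0
  map_add' c c' := by ext H; by_cases h : v ∈ H <;> simp [h]
  map_smul' r c := by
    ext H; by_cases h : v ∈ H <;> simp [h, smul_comm r]

theorem ann_apply (v : V) (c : Finset V → M) (H : Finset V) :
    ann R v c H = if v ∈ H then 0 else sgn v H • c (insert v H) := rfl

theorem cre_apply (v : V) (c : Finset V → M) (H : Finset V) :
    cre R v c H = if v ∈ H then sgn v H • c (H.erase v) else 0 := rfl

theorem ann_ann_self (v : V) (c : Finset V → M) : ann R v (ann R v c) = 0 := by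
  ext H; simp [ann_apply]

theorem ann_ann (v w : V) (c : Finset V → M) :
    ann R v (ann R w c) + ann R w (ann R v c) = 0 := by
  rcases eq_or_ne v w with rfl | hvw
  · simp [ann_ann_self]
  ext H
  by_cases hv : v ∈ H <;> by_cases hw : w ∈ H <;>
    simp only [ann_apply, Pi.add_apply, Pi.zero_apply, mem_insert, hv, hw, hvw, hvw.symm,
      if_true, if_false, or_true, or_false, smul_zero, add_zero]
  rw [sgn_insert hv, sgn_insert hw, insert_comm v w, smul_smul, smul_smul, ← add_smul]
  rcases lt_or_gt_of_ne hvw with h | h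
  · simp [h, h.not_gt, mul_comm]
  · simp [h, h.not_gt, mul_comm]

theorem ann_cre_self (v : V) (c : Finset V → M) :
    ann R v (cre R v c) + cre R v (ann R v c) = c := by
  ext H
  by_cases hv : v ∈ H
  · simp [ann_apply, cre_apply, hv, smul_smul, sgn_erase_self, sgn_mul_self]
  · simp [ann_apply, cre_apply, hv, smul_smul, sgn_insert_self, sgn_mul_self]

theorem ann_cre_ne {v w : V} (hvw : v ≠ w) (c : Finset V → M) :
    ann R v (cre R w c) + cre R w (ann R v c) = 0 := by
  ext H
  by_cases hv : v ∈ H <;> by_cases hw : w ∈ H <;>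
    simp only [ann_apply, cre_apply, Pi.add_apply, Pi.zero_apply, mem_insert, mem_erase, hv, hw,
      hvw, hvw.symm, ne_eq, not_false_eq_true, and_true, and_false,
      if_true, if_false, or_true, or_false, smul_zero, add_zero]
  have h1 : sgn v H = (if w < v then -1 else 1) * sgn v (H.erase w) := by
    conv_lhs => rw [← insert_erase hw]
    exact sgn_insert (notMem_erase w H)
  rw [sgn_insert hv, erase_insert_of_ne hvw, smul_smul, smul_smul, ← add_smul, h1]
  rcases lt_or_gt_of_ne hvw with h | h
  · simp [h, h.not_gt, mul_comm]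
  · simp [h, h.not_gt, mul_comm]

variable [Fintype V]

/-- weighted boundary -/
def wbd (w : V → R) : (Finset V → M) →ₗ[R] (Finset V → M) := ∑ v, w v • ann R v

theorem wbd_apply (w : V → R) (c : Finset V → M) :
    wbd R w c = ∑ v, w v • ann R v c := by
  simp [wbd, LinearMap.sum_apply]

theorem wbd_wbd (w : V → R) (c : Finset V → M) : wbd R w (wbd R w c) = 0 := by
  rw [wbd_apply, wbd_apply]
  simp only [map_sum, map_smul, smul_sum, smul_smul]
  rw [← Finset.sum_product']
  refine Finset.sum_involution (fun p _ => p.swap) ?_ ?_ ?_ ?_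
  · intro p _
    simp only [Prod.fst_swap, Prod.snd_swap]
    rw [mul_comm (w p.2), ← smul_add, ann_ann, smul_zero]
  · intro p _ h heq
    apply h
    have : p.2 = p.1 := congrArg Prod.fst heq
    rw [this, ann_ann_self, smul_zero]
  · intro p _; simp
  · intro p _; simp

theorem wbd_cre (w : V → R) (x : V) (c : Finset V → M) :
    wbd R w (cre R x c) = w x • c - cre R x (wbd R w c) := by
  rw [wbd_apply, wbd_apply, map_sum, eq_sub_iff_add_eq, ← Finset.sum_add_distrib,
    Finset.sum_eq_single x]
  · rw [map_smul, ← smul_add, ann_cre_self]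
  · intro v _ hv
    rw [map_smul, ← smul_add, ann_cre_ne R hv, smul_zero]
  · simp

theorem ann_wbd (w : V → R) (x : V) (c : Finset V → M) :
    ann R x (wbd R w c) = - wbd R w (ann R x c) := by
  rw [wbd_apply, wbd_apply, map_sum, eq_neg_iff_add_eq_zero, ← Finset.sum_add_distrib]
  refine Finset.sum_eq_zero fun v _ => ?_
  rw [map_smul, ← smul_add, ann_ann, smul_zero]

theorem wbd_apply_apply (w : V → R) (c : Finset V → M) (H : Finset V) :
    wbd R w c H = ∑ v ∈ Hᶜ, sgn v H • w v • c (insert v H) := by
  rw [wbd_apply, Finset.sum_apply, ← Finset.sum_subset (subset_univ Hᶜ)]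
  · refine Finset.sum_congr rfl fun v hv => ?_
    simp [ann_apply, mem_compl.1 hv, smul_comm (w v)]
  · intro v _ hv
    simp [ann_apply, notMem_compl.1 hv]

/-- the simplicial boundary with coefficients in `M` -/
def bd : (Finset V → M) →ₗ[R] (Finset V → M) := wbd R (fun _ => (1 : R))

theorem bd_apply (c : Finset V → M) (H : Finset V) :
    bd R c H = ∑ v ∈ Hᶜ, sgn v H • c (insert v H) := by
  simp [bd, wbd_apply_apply]

theorem bd_bd (c : Finset V → M) : bd R (bd R c) = 0 := wbd_wbd R _ c

theorem bd_cre (x : V) (c : Finset V → M) : bd R (cre R x c) = c - cre R x (bd R c) := by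
  simpa [bd] using wbd_cre R (fun _ => (1 : R)) x c

end CAR

section Supp

variable (R : Type*) [CommRing R] {M : Type*} [AddCommGroup M] [Module R M]

/-- functions supported on `S` -/
def ch {ι : Type*} (S : Set ι) : Submodule R (ι → M) where
  carrier := {c | ∀ H, H ∉ S → c H = 0}
  add_mem' ha hb H hH := by simp [ha H hH, hb H hH]
  zero_mem' _ _ := rfl
  smul_mem' r c hc H hH := by simp [hc H hH]

variable {R}

theorem mem_ch {ι : Type*} {S : Set ι} {c : ι → M} :
    c ∈ ch R S ↔ ∀ H, H ∉ S → c H = 0 := Iff.rfl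

theorem mem_ch' {ι : Type*} {S : Set ι} {c : ι → M} :
    c ∈ ch R S ↔ ∀ H, c H ≠ 0 → H ∈ S :=
  forall_congr' fun _ => not_imp_comm

theorem ch_mono {ι : Type*} {S T : Set ι} (h : S ⊆ T) : (ch R S : Submodule R (ι → M)) ≤ ch R T :=
  fun _ hc H hH => hc H fun h' => hH (h h')

theorem ch_inter {ι : Type*} (S T : Set ι) :
    (ch R (S ∩ T) : Submodule R (ι → M)) = ch R S ⊓ ch R T := by
  ext c
  simp only [Submodule.mem_inf, mem_ch', Set.mem_inter_iff]
  exact ⟨fun h => ⟨fun H hH => (h H hH).1, fun H hH => (h H hH).2⟩,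
    fun h H hH => ⟨h.1 H hH, h.2 H hH⟩⟩

theorem ch_empty {ι : Type*} : (ch R (∅ : Set ι) : Submodule R (ι → M)) = ⊥ := by
  rw [eq_bot_iff]; intro c hc; ext H; exact hc H (by simp)

theorem single_mem_ch {ι : Type*} [DecidableEq ι] {S : Set ι} {F : ι} (hF : F ∈ S) (x : M) :
    (Pi.single F x : ι → M) ∈ ch R S := fun H hH => by
  have : H ≠ F := by rintro rfl; exact hH hF
  simp [this]

variable {V : Type*} [LinearOrder V]

theorem cre_mem_ch {S T : Set (Finset V)} {v : V} {c : Finset V → M} (hc : c ∈ ch R S)
    (h : ∀ H ∈ S, v ∉ H → insert v H ∈ T) : cre R v c ∈ ch R T := by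
  intro H hH
  rw [cre_apply]
  split_ifs with hv
  · rw [hc (H.erase v), smul_zero]
    intro hS
    have := h _ hS (notMem_erase v H)
    rw [insert_erase hv] at this
    exact hH this
  · rfl

theorem ann_mem_ch {S T : Set (Finset V)} {v : V} {c : Finset V → M} (hc : c ∈ ch R S)
    (h : ∀ H, v ∉ H → insert v H ∈ S → H ∈ T) : ann R v c ∈ ch R T := by
  intro H hH
  rw [ann_apply]
  split_ifs with hv
  · rfl
  · rw [hc (insert v H) fun hS => hH (h H hv hS), smul_zero]

variable [Fintype V]

theorem wbd_mem_ch {S T : Set (Finset V)} (w : V → R) {c : Finset V → M} (hc : c ∈ ch R S)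
    (h : ∀ H v, v ∉ H → insert v H ∈ S → H ∈ T) : wbd R w c ∈ ch R T := by
  rw [wbd_apply]
  exact Submodule.sum_mem _ fun v _ => Submodule.smul_mem _ _ (ann_mem_ch hc fun H => h H v)

theorem bd_mem_ch {S T : Set (Finset V)} {c : Finset V → M} (hc : c ∈ ch R S)
    (h : ∀ H v, v ∉ H → insert v H ∈ S → H ∈ T) : bd R c ∈ ch R T := wbd_mem_ch _ hc h

theorem wbd_congr_at (w : V → R) {c c' : Finset V → M} {H : Finset V}
    (h : ∀ v, v ∉ H → c (insert v H) = c' (insert v H)) : wbd R w c H = wbd R w c' H := by
  rw [wbd_apply_apply, wbd_apply_apply]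
  exact Finset.sum_congr rfl fun v hv => by rw [h v (mem_compl.1 hv)]

theorem bd_congr_at {c c' : Finset V → M} {H : Finset V}
    (h : ∀ v, v ∉ H → c (insert v H) = c' (insert v H)) : bd R c H = bd R c' H :=
  wbd_congr_at _ h

end Supp

section Simp

variable (K : Type*) [Field K] (M : Type*) [AddCommGroup M] [Module K M]
variable (V : Type*) [LinearOrder V] [Fintype V]

/-- The simplicial chain complex of the full simplex with coefficients in `M`. -/
def simpDG : DG K (Finset V → M) where
  D := bd K
  gr n := ch K {H | H.card = n}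
  DD := bd_bd K
  D_gr n x hx := bd_mem_ch hx fun H v hv h => by
    simpa [card_insert_of_notMem hv] using h
  D_gr0 x hx := by
    have : bd K x ∈ (ch K (∅ : Set (Finset V)) : Submodule K (Finset V → M)) :=
      bd_mem_ch hx fun H v hv h => by simp [card_insert_of_notMem hv] at h
    simpa [ch_empty] using this

variable {K M V}

@[simp] theorem simpDG_D : (simpDG K M V).D = bd K := rfl
@[simp] theorem simpDG_gr (n : ℕ) : (simpDG K M V).gr n = ch K {H | H.card = n} := rfl

theorem sub_of_lower {S : Set (Finset V)} (hS : IsLowerSet S) :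
    (simpDG K M V).Sub (ch K S) := fun _ hx =>
  bd_mem_ch hx fun H v _ h => hS (subset_insert v H) h

end Simp

end Pool.Agent.Lib.MP_21db46_co
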