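import Pool.Agent.Lib.MP_21db46_co.Deform

/-! The comparison of a complex with its subdivision. -/

namespace Pool.Agent.Lib.MP_21db46_co

open Finset MvPolynomial Module

variable {K : Type*} [Field K] {V : Type*} [LinearOrder V] [Fintype V]
  {W : Type*} [LinearOrder W] [Fintype W]
  {κ : Type*} [LinearOrder κ] [Fintype κ] {ν : Type*} [DecidableEq ν] [Fintype ν]

/-- the linear forms killed by the retraction -/
noncomputable def kerL (p : ν → MvPolynomial ν K) : Submodule K (MvPolynomial ν K) :=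
  (PA K univ 1).map (LinearMap.id - (aeval p).toLinearMap)

theorem Sys.kerL_le (Y : Sys K V ν) (G : Finset V) : kerL (Y.p G) ≤ PA K univ 1 := by
  rintro _ ⟨f, hf, rfl⟩
  exact Submodule.sub_mem _ hf
    (PA_mono (subset_univ _) _ (aeval_mem_PA (Y.p_mem G) (mem_PA_iff.1 hf).1))

theorem Sys.finrank_kerL (Y : Sys K V ν) (G : Finset V) :
    finrank K (PA K (univ : Finset ν) 1) ≤ finrank K (kerL (Y.p G)) + G.card := by
  rw [finrank_eq_map_add_inf_ker (LinearMap.id - (aeval (Y.p G)).toLinearMap) (PA K univ 1)]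
  refine Nat.add_le_add_left ?_ _
  have : G.card = finrank K (PA K (Y.S G) 1) := by
    rw [finrank_PA, Nat.multichoose_one_right, Y.card_S]
  rw [this]
  refine Submodule.finrank_mono ?_
  rintro f ⟨hf, hk⟩
  have h1 : f - aeval (Y.p G) f = 0 := hk
  rw [sub_eq_zero.1 h1]
  exact aeval_mem_PA (Y.p_mem G) (mem_PA_iff.1 hf).1

theorem Sys.spans_of_le (Y : Sys K V ν) {G : Finset V} {p : ν → MvPolynomial ν K}
    (hp : ∀ x, aeval (Y.p G) (p x) = Y.p G x) {θ : κ → MvPolynomial ν K}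
    (h : PA K univ 1 ≤ kerL p ⊔ Submodule.span K (Set.range θ)) :
    ∀ y ∈ Y.S G, X y ∈ Submodule.span K (Set.range fun r => aeval (Y.p G) (θ r)) := by
  intro y hy
  obtain ⟨_, ⟨f, -, rfl⟩, s, hs, e⟩ := Submodule.mem_sup.1 (h (X_mem_PA (mem_univ y)))
  have h1 := congrArg (aeval (Y.p G)) e
  simp only [LinearMap.sub_apply, LinearMap.id_apply, AlgHom.toLinearMap_apply, map_add, map_sub,
    aeval_aeval hp, sub_self, zero_add, aeval_X, Y.p_self G y hy] at h1
  rw [← h1]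
  have := Submodule.mem_map_of_mem (f := (aeval (Y.p G)).toLinearMap) hs
  rwa [Submodule.map_span, ← Set.range_comp] at this

variable {Δ : Set (Finset V)} {Δ' : Set (Finset W)} {σ : Finset W → Finset V} {lam : W → V}

theorem Transfer.τ_DT (T : Transfer K Δ Δ' σ lam) (θ : κ → MvPolynomial ν K) {c : EE K V κ ν}
    (hc : c ∈ ch K Δ) : mext (Finset κ → MvPolynomial ν K) T.τ (DT θ c) =
      DT θ (mext (Finset κ → MvPolynomial ν K) T.τ c) := by
  rw [DT_apply, DT_apply, map_add, T.bd_τM hc,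
    mext_dl θ fun F G h h' => (mem_ch'.1 (T.τ_mem F (mem_ch'.1 hc F h')) G h).2]

theorem arith_aux {a b c e f f0 g i k l m n o r : ℕ} (hlt : c + e < a + b) (hge : f0 ≤ f)
    (a1 : k + f ≤ g + i) (a3 : k + f0 = g + l) (a7 : n + b ≤ m + o) (a8 : r + o ≤ n + e)
    (b2 : i ≤ c) (b4 : m ≤ l) (b9 : a ≤ r) : False := by omega

theorem compare (T : Transfer K Δ Δ' σ lam) (h : HSub K Δ Δ' σ) [Infinite K]
    {θ : κ → MvPolynomial (V ⊕ W) K} (hθ : ∀ r, θ r ∈ PA K univ 1) (j d : ℕ)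
    (hl : LocEx K Δ d) : {t : K | t ≠ 0 ∧
      finrank K (((sysS lam t).dg θ).Z (Tf K κ (sysS lam t).S Δ' j j) d ⊔
        ((sysS lam t).dg θ).B (Tf K κ (sysS lam t).S Δ' j (j + 1)) d : Submodule K _) +
      finrank K (((killSys K Function.Embedding.inl).dg θ).B
        (Tf K κ (killSys K Function.Embedding.inl).S Δ j (j + 1)) d) <
      finrank K (((killSys K Function.Embedding.inl).dg θ).Z
          (Tf K κ (killSys K Function.Embedding.inl).S Δ j j) d ⊔
        ((killSys K Function.Embedding.inl).dg θ).B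
          (Tf K κ (killSys K Function.Embedding.inl).S Δ j (j + 1)) d : Submodule K _) +
      finrank K (((sysT lam (0 : K)).dg θ).B (Tf K κ (sysT lam (0 : K)).S Δ' j (j + 1)) d)}.Finite := by
  set Y : Sys K V (V ⊕ W) := killSys K Function.Embedding.inl with hY
  set Y0 : Sys K W (V ⊕ W) := sysT lam (0 : K) with hY0
  let FF : ℕ → Submodule K (EE K W κ (V ⊕ W)) := fun n =>
    TT K (fun _ => univ) j fun G A => (G ∈ Δ' ∧ A.card < j + 1) ∧ G.card + A.card = n
  let ω := (Y.dg θ).Z (Tf K κ Y.S Δ j (min 1 j)) d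
  let τ := mext (Finset κ → MvPolynomial (V ⊕ W) K) T.τ
  let L := mext (Finset κ → MvPolynomial (V ⊕ W) K) (push K lam)
  let W0 := (FF (d + 1)).map (DT θ) ⊔ ω.map τ
  let φ : K → EE K W κ (V ⊕ W) →ₗ[K] EE K W κ (V ⊕ W) := fun t => LinearMap.id - fw (pT lam t)
  have hω : ∀ z ∈ ω, z ∈ TT K Y.S j fun G A => (G ∈ Δ ∧ A.card < min 1 j) ∧ G.card + A.card = d :=
    fun z hz => Y.dg_pc θ _ _ _ _ ▸ hz.1
  have hωc : ∀ z ∈ ω, z ∈ ch K Δ := fun z hz => TT_mem_ch (fun _ _ h => h.1.1) (hω z hz)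
  have hτω : ∀ z ∈ ω, τ z ∈ TT K (fun _ => univ) j
      fun G A => (G ∈ Δ' ∧ A.card < min 1 j) ∧ G.card + A.card = d := fun z hz =>
    mext_mem_TT (fun F G A hq h1 => by
      have := mem_ch'.1 (T.τ_mem F hq.1.1) G h1
      exact ⟨⟨⟨this.1.1, hq.1.2⟩, by rw [this.2, hq.2]⟩, PA_mono (subset_univ _) _⟩) (hω z hz)
  have hDF : ∀ n, ∀ y ∈ FF (n + 1), DT θ y ∈ FF n := fun n y hy =>
    DT_mem_TT hθ (fun G A h => by have := h.1.2; omega)
      (fun G A v hv h' => ⟨⟨h.low' (subset_insert v G) h'.1.1, h'.1.2⟩, by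
        have := h'.2; rw [card_insert_of_notMem hv] at this; omega⟩)
      (fun G A r hr h' => by
        have h1 := h'.2; have h2 := h'.1.2
        rw [card_insert_of_notMem hr] at h1 h2
        exact ⟨⟨h'.1.1, by omega⟩, by omega⟩) hy
  have hW : ∀ t, W0 ⊔ (FF d).map (φ t) ≤ FF d := fun t => by
    refine sup_le (sup_le ?_ ?_) ?_
    · rintro _ ⟨y, hy, rfl⟩; exact hDF d y hy
    · rintro _ ⟨z, hz, rfl⟩
      exact TT_mono (fun _ => subset_rfl) (fun G A h => ⟨⟨h.1.1, by have := h.1.2; omega⟩, h.2⟩)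
        (hτω z hz)
    · rintro _ ⟨y, hy, rfl⟩
      exact Submodule.sub_mem _ hy (TT_mono (fun _ => subset_univ _) (fun _ _ h => h)
        (fw_mem_TT (sysT lam t).p_mem hy))
  have hpc : ∀ (Y' : Sys K W (V ⊕ W)) n, (FF n).map (fw Y'.p) =
      (Y'.dg θ).pc (Tf K κ Y'.S Δ' j (j + 1)) n := fun Y' n => by
    rw [Tf, Y'.dg_pc]
    refine le_antisymm ?_ fun y hy => ⟨y, TT_mono (fun _ => subset_univ _) (fun _ _ h => h) hy,
      Y'.fw_of_mem hy⟩
    rintro _ ⟨y, hy, rfl⟩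
    exact fw_mem_TT Y'.p_mem hy
  have hB : ∀ (Y' : Sys K W (V ⊕ W)), ((FF (d + 1)).map (DT θ)).map (fw Y'.p) =
      (Y'.dg θ).B (Tf K κ Y'.S Δ' j (j + 1)) d := fun Y' => by
    rw [DG.B, ← hpc]
    refine le_antisymm ?_ ?_
    · rintro _ ⟨_, ⟨y, hy, rfl⟩, rfl⟩
      exact ⟨_, ⟨y, hy, rfl⟩, Y'.fw_DT_fw θ y⟩
    · rintro _ ⟨_, ⟨y, hy, rfl⟩, rfl⟩
      exact ⟨_, ⟨y, hy, rfl⟩, (Y'.fw_DT_fw θ y).symm⟩
  have : FiniteDimensional K (FF d) := inferInstance
  have : FiniteDimensional K W0 := Submodule.finiteDimensional_of_le (le_sup_left.trans (hW 0))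
  refine (finrank_sup_map_semicont W0 (FF d) φ fun f => (PD.const f).sub (pd_fw_pT f)).subset ?_
  rintro t ⟨ht, hlt⟩
  by_contra hge
  rw [Set.mem_ofPred_eq, not_lt] at hge
  have a1 := finrank_codim_map_le (fw (sysS lam t).p) (hW t)
  have a2 : (W0 ⊔ (FF d).map (φ t)).map (fw (sysS lam t).p) ≤
      ((sysS lam t).dg θ).Z (Tf K κ (sysS lam t).S Δ' j j) d ⊔
        ((sysS lam t).dg θ).B (Tf K κ (sysS lam t).S Δ' j (j + 1)) d := by
    rw [Submodule.map_sup, Submodule.map_sup, hB]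
    refine sup_le (sup_le le_sup_right (le_trans ?_ le_sup_left)) ?_
    · rintro _ ⟨_, ⟨z, hz, rfl⟩, rfl⟩
      refine ⟨?_, ?_⟩
      · rw [Tf, Sys.dg_pc]
        exact TT_mono (fun _ => subset_rfl) (fun G A h => ⟨⟨h.1.1, by have := h.1.2; omega⟩, h.2⟩)
          (fw_mem_TT (sysS lam t).p_mem (hτω z hz))
      · change fw _ (DT θ (fw _ (τ z))) = 0
        rw [Sys.fw_DT_fw, ← T.τ_DT θ (hωc z hz)]
        have hz0 : fw Y.p (DT θ z) = 0 := hz.2
        ext1 G; ext1 A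
        rw [fw_apply, mext_apply₂, map_sum]
        refine sum_eq_zero fun F _ => ?_
        rw [map_smul]
        by_cases h1 : T.τ (bv K F) G = 0
        · rw [h1, zero_smul]
        by_cases hF : F ∈ Δ
        swap
        · rw [DT_mem_sp θ (q' := fun G _ => G ∈ Δ)
            (fun G A v _ h' => h.low (subset_insert v G) h'.1.1) (fun G A r _ h' => h'.1.1)
            (hω z hz).2 F A hF, map_zero, smul_zero]
        have h2 := mem_ch'.1 (T.τ_mem F hF) G h1
        have h3 : DT θ z F A ∈ supported K (Set.range (Sum.inl : V → V ⊕ W)) := by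
          rw [DT_apply_apply, sum_eq_zero (s := Aᶜ), smul_zero, add_zero]
          · refine Subalgebra.sum_mem _ fun v _ => zsmul_mem (supported_mono ?_
              (mem_PA_iff.1 ((hω z hz).1 _ A)).2) _
            intro x hx
            obtain ⟨v, -, rfl⟩ := mem_map.1 hx
            exact ⟨v, rfl⟩
          · intro r hr
            rw [(hω z hz).2 F _ fun h' => by
              have := h'.1.2; rw [card_insert_of_notMem (mem_compl.1 hr)] at this; omega]
            simp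
        have h4 : aeval ((sysS lam t).p G) (DT θ z F A) =
            ((aeval ((sysS lam t).p G)).comp (aeval (Y.p F))) (DT θ z F A) := by
          refine algHom_eq_of_supported ?_ h3
          rintro _ ⟨v, rfl⟩
          rw [AlgHom.comp_apply, aeval_X, aeval_X]
          by_cases hv : v ∈ F
          · rw [Y.p_self F (Sum.inl v) (mem_map_of_mem Function.Embedding.inl hv), aeval_X]
          · rw [show Y.p F (Sum.inl v) = 0 from (killSys_isStd _).2 F v hv, map_zero]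
            exact pS_inl t fun h' => hv (h2.1.2 (T.img G h2.1.1 h'))
        have h5 : aeval (Y.p F) (DT θ z F A) = 0 := congrFun (congrFun hz0 F) A
        rw [h4, AlgHom.comp_apply, h5, map_zero, smul_zero]
    · rintro _ ⟨_, ⟨y, hy, rfl⟩, rfl⟩
      have : fw (sysS lam t).p (φ t y) = 0 := by
        ext1 G; ext1 A
        change aeval (pS lam t G) (y G A - aeval (pT lam t G) (y G A)) = 0
        rw [map_sub, aeval_aeval (pS_pT ht G), sub_self]
      rw [this]; exact Submodule.zero_mem _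
  have a3 := finrank_codim_map_eq (fw Y0.p) (hW 0) (by
    rintro y ⟨hy, hk⟩
    refine Submodule.mem_sup_right ⟨y, hy, ?_⟩
    have : fw (pT lam 0) y = 0 := hk
    change y - fw (pT lam 0) y = y
    rw [this, sub_zero])
  have a4 : (Y0.dg θ).B (Tf K κ Y0.S Δ' j (j + 1)) d ⊔ (ω.map τ).map (fw Y0.p) ≤
      (W0 ⊔ (FF d).map (φ 0)).map (fw Y0.p) := by
    rw [Submodule.map_sup, Submodule.map_sup, hB]
    exact le_sup_left
  have hLfw : ∀ c, L (fw Y0.p c) = fw Y.p (L c) := fun c => mext_fw (fun G F h1 => by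
    have := mem_ch'.1 (push_bv_mem K lam G) F h1
    rw [this.1]
    exact pT_zero (this.1 ▸ this.2)) c
  have a5 : ((ω.map τ).map (fw Y0.p)).map L = ω := by
    have : ∀ z ∈ ω, L (fw Y0.p (τ z)) = z := fun z hz => by
      rw [hLfw, T.push_τM (hωc z hz), Y.fw_of_mem (hω z hz)]
    refine le_antisymm ?_ fun z hz => ⟨_, ⟨_, ⟨z, hz, rfl⟩, rfl⟩, this z hz⟩
    rintro _ ⟨_, ⟨_, ⟨z, hz, rfl⟩, rfl⟩, rfl⟩
    rwa [this z hz]
  have a6 : ((Y0.dg θ).B (Tf K κ Y0.S Δ' j (j + 1)) d).map L ≤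
      (Y.dg θ).B (Tf K κ Y.S Δ j (j + 1)) d := by
    rw [← hB]
    rintro _ ⟨_, ⟨_, ⟨y, hy, rfl⟩, rfl⟩, rfl⟩
    refine ⟨fw Y.p (L y), ?_, ?_⟩
    · rw [Tf, Sys.dg_pc]
      refine fw_mem_TT (S' := fun _ => univ) Y.p_mem (mext_mem_TT (fun G F A hq h1 => ?_) hy)
      have := mem_ch'.1 (T.push_mem hq.1.1) F h1
      exact ⟨⟨⟨h.low this.1 (h.map_mem G hq.1.1), hq.1.2⟩, by rw [this.2, hq.2]⟩, le_rfl⟩
    · rw [Sys.dg_D, Sys.fw_DT_fw, hLfw, push_DT]
  have a7 := finrank_codim_map_le L (le_sup_left : (Y0.dg θ).B (Tf K κ Y0.S Δ' j (j + 1)) d ≤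
    (Y0.dg θ).B (Tf K κ Y0.S Δ' j (j + 1)) d ⊔ (ω.map τ).map (fw Y0.p))
  rw [Submodule.map_sup, a5] at a7
  have a8 := finrank_sup_sub_anti (O := ω) a6
  have a9 : (Y.dg θ).Z (Tf K κ Y.S Δ j j) d ⊔ (Y.dg θ).B (Tf K κ Y.S Δ j (j + 1)) d ≤
      (Y.dg θ).B (Tf K κ Y.S Δ j (j + 1)) d ⊔ ω := by
    refine sup_le ?_ le_sup_left
    rcases Nat.eq_zero_or_pos j with rfl | hj
    · exact le_sup_right
    · have e : min 1 j = 1 := min_eq_left hj
      simp only [ω, e]
      exact (killSys_isStd Function.Embedding.inl).Z_le hθ h.low hl hj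
  have b2 := Submodule.finrank_mono a2
  have b4 := Submodule.finrank_mono a4
  have b9 := Submodule.finrank_mono a9
  rw [hpc, Sys.finrank_pc] at a1 a3
  exact arith_aux hlt hge a1 a3 a7 a8 b2 b4 b9

end Pool.Agent.Lib.MP_21db46_co
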