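import Pool.Agent.Lib.MP_21db46_co.Compare

/-! The inequality between the alternating sums of dimensions. -/

namespace Pool.Agent.Lib.MP_21db46_co

open Finset MvPolynomial Module

variable {K : Type*} [Field K] {V : Type*} [LinearOrder V] [Fintype V]
  {W : Type*} [LinearOrder W] [Fintype W]
variable {Δ : Set (Finset V)} {Δ' : Set (Finset W)} {σ : Finset W → Finset V} {lam : W → V}

theorem core (T : Transfer K Δ Δ' σ lam) (h : HSub K Δ Δ' σ) [Infinite K] {d : ℕ}
    (hl : LocEx K Δ d) (hd : ∀ F ∈ Δ, F.card ≤ d) (j : ℕ) :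
    (-1) ^ j * eulT (Fin d) Δ j (d + j) ≤ (-1) ^ j * eulT (Fin d) Δ' j (d + j) := by
  have hd' := T.card_le h hd
  let Y : Sys K V (V ⊕ W) := killSys K Function.Embedding.inl
  obtain ⟨θ, hθ, hgen⟩ := exists_generic (α := Δ ⊕ Δ') (PA K univ 1) d
    (Sum.elim (fun F => kerL (Y.p F)) fun G => kerL ((sysT lam (0 : K)).p G))
    (by
      rintro (F | G)
      exacts [Y.kerL_le F, (sysT lam 0).kerL_le G])
    (by
      rintro (F | G)
      exacts [(Y.finrank_kerL F).trans (Nat.add_le_add_left (hd F F.2) _),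
        ((sysT lam 0).finrank_kerL G).trans (Nat.add_le_add_left (hd' G G.2) _)])
  have hsp : Submodule.span K (Set.range θ) ≤ PA K univ 1 :=
    Submodule.span_le.2 (Set.range_subset_iff.2 hθ)
  have : FiniteDimensional K (Submodule.span K (Set.range θ)) :=
    Submodule.finiteDimensional_of_le hsp
  have hfin := fun G : Finset W => finrank_sup_map_semicont (Submodule.span K (Set.range θ))
    (PA K univ 1) (fun t : K => LinearMap.id - (aeval (pT lam t G)).toLinearMap)
    fun f => (PD.const f).sub (pd_aeval_pT G f)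
  obtain ⟨t, ht⟩ := (((Set.finite_iUnion hfin).union (Set.finite_singleton 0)).union
    (compare T h hθ j d hl)).exists_notMem
  simp only [Set.mem_union, Set.mem_iUnion, Set.mem_ofPred_eq, Set.mem_singleton_iff, not_or,
    not_exists, not_lt, not_and] at ht
  obtain ⟨⟨h1, h2⟩, h3⟩ := ht
  have h4 := h3 h2
  have s1 : Y.Spans θ Δ := fun F hF => Y.spans_of_le (Y.comp F F subset_rfl) (hgen (.inl ⟨F, hF⟩))
  have s2 : (sysT lam (0 : K)).Spans θ Δ' := fun G hG =>
    Sys.spans_of_le _ (Sys.comp _ G G subset_rfl) (hgen (.inr ⟨G, hG⟩))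
  have s3 : (sysS lam t).Spans θ Δ' := fun G hG => by
    refine (sysS lam t).spans_of_le (G := G) (p := pT lam t G) (pS_pT h2 G) ?_
    have e1 : Submodule.span K (Set.range θ) ⊔ kerL (pT lam t G) ≤ PA K univ 1 :=
      sup_le hsp ((sysT lam t).kerL_le G)
    have e2 : PA K univ 1 ≤ Submodule.span K (Set.range θ) ⊔ kerL (pT lam 0 G) :=
      (hgen (.inr ⟨G, hG⟩)).trans (sup_comm _ _).le
    have : FiniteDimensional K (Submodule.span K (Set.range θ) ⊔ kerL (pT lam 0 G) :
        Submodule K _) := Submodule.finiteDimensional_of_le (sup_le hsp ((sysT lam 0).kerL_le G))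
    rw [sup_comm]
    exact (Submodule.eq_of_le_of_finrank_le e1 ((Submodule.finrank_mono e2).trans (h1 G))).ge
  have c1 := (killSys K (Function.Embedding.inl : V ↪ V ⊕ W)).finrank_B hθ h.low s1 j
    (by simpa using hd)
  have c2 := (sysT lam (0 : K)).finrank_B hθ h.low' s2 j (by simpa using hd')
  have c3 := (killSys_isStd (Function.Embedding.inl : V ↪ V ⊕ W)).finrank_sup hθ h.low hl j
  have c4 := (sysS_isStd (lam := lam) t).finrank_sup hθ h.low' (T.locEx h hl) j
  rw [Fintype.card_fin] at c1 c2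
  rw [← T.Bet_eq h] at c4
  zify at h4
  rw [c3, c4, c2, c1] at h4
  linarith

end Pool.Agent.Lib.MP_21db46_co
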