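import Pool.Agent.Lib.MP_21db46_co.Hom

/-! Semicontinuity of ranks in polynomial families and generic choices over infinite fields. -/

namespace Pool.Agent.Lib.MP_21db46_co

open Module Polynomial

variable {K : Type*} [Field K] {E : Type*} [AddCommGroup E] [Module K E]

/-- a vector valued function depends polynomially on the parameter -/
def PD (g : K → E) : Prop := ∀ ψ : E →ₗ[K] K, ∃ p : K[X], ∀ t, ψ (g t) = p.eval t

theorem PD.const (x : E) : PD fun _ : K => x := fun ψ => ⟨C (ψ x), fun t => by simp⟩

theorem PD.add {g g' : K → E} (h : PD g) (h' : PD g') : PD fun t => g t + g' t := fun ψ => by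
  obtain ⟨p, hp⟩ := h ψ
  obtain ⟨p', hp'⟩ := h' ψ
  exact ⟨p + p', fun t => by simp [hp, hp']⟩

theorem PD.sub {g g' : K → E} (h : PD g) (h' : PD g') : PD fun t => g t - g' t := fun ψ => by
  obtain ⟨p, hp⟩ := h ψ
  obtain ⟨p', hp'⟩ := h' ψ
  exact ⟨p - p', fun t => by simp [hp, hp']⟩

theorem PD.pi {ι : Type*} [Fintype ι] [DecidableEq ι] {g : K → ι → E}
    (h : ∀ i, PD fun t => g t i) : PD g := fun ψ => by
  choose p hp using fun i => h i (ψ ∘ₗ LinearMap.single K (fun _ => E) i)
  refine ⟨∑ i, p i, fun t => ?_⟩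
  rw [eval_finsetSum, ← Finset.univ_sum_single (g t), map_sum]
  exact Finset.sum_congr rfl fun i _ => hp i t

theorem PD.of_eval {A : Type*} [CommRing A] [Algebra K A] (q : A[X]) :
    PD fun t : K => q.eval (algebraMap K A t) := fun ψ => by
  induction q using Polynomial.induction_on' with
  | add p q hp hq =>
    obtain ⟨p', hp'⟩ := hp
    obtain ⟨q', hq'⟩ := hq
    exact ⟨p' + q', fun t => by simp only [eval_add, map_add]; rw [hp', hq']⟩
  | monomial n a =>
    refine ⟨monomial n (ψ a), fun t => ?_⟩
    beta_reduce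
    rw [eval_monomial, eval_monomial, ← map_pow, mul_comm, ← Algebra.smul_def, map_smul,
      smul_eq_mul, mul_comm]

theorem finrank_range_semicont {U : Type*} [AddCommGroup U] [Module K U] [FiniteDimensional K U]
    (Φ : K → U →ₗ[K] E) (h : ∀ u, PD fun t => Φ t u) :
    {t | finrank K (LinearMap.range (Φ t)) < finrank K (LinearMap.range (Φ 0))}.Finite := by
  classical
  let b := Module.finBasis K (LinearMap.range (Φ 0))
  choose x hx using fun k => (b k).2
  choose ψ hψ using fun l => LinearMap.exists_extend (b.coord l)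
  choose p hp using fun k l => h (x k) (ψ l)
  let M : Matrix (Fin (finrank K (LinearMap.range (Φ 0)))) _ K[X] := Matrix.of p
  have hM : ∀ t, (M.det).eval t = (Matrix.of fun k l => ψ l (Φ t (x k))).det := fun t => by
    rw [← coe_evalRingHom, RingHom.map_det]
    congr 1
    ext k l
    simp [M, hp]
  have h0 : M.det ≠ 0 := by
    intro h0
    have h1 := hM 0
    have h2 : (Matrix.of fun k l => ψ l (Φ 0 (x k))) = 1 := by
      ext k l
      have := LinearMap.congr_fun (hψ l) (b k)
      simp only [LinearMap.comp_apply, Submodule.subtype_apply] at this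
      rw [Matrix.of_apply, hx, this, Matrix.one_apply]
      simp [Finsupp.single_apply]
    rw [h0, h2] at h1
    simp at h1
  refine (finite_setOfPred_isRoot h0).subset fun t ht => ?_
  by_contra hr
  have h1 := Matrix.linearIndependent_rows_of_det_ne_zero
    (A := Matrix.of fun k l => ψ l (Φ t (x k))) (by rw [← hM]; exact hr)
  have h2 : LinearIndependent K fun k => (⟨Φ t (x k), x k, rfl⟩ : LinearMap.range (Φ t)) :=
    LinearIndependent.of_comp (LinearMap.pi ψ ∘ₗ (LinearMap.range (Φ t)).subtype) h1
  have h3 := h2.fintype_card_le_finrank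
  rw [Fintype.card_fin] at h3
  exact absurd ht (not_lt.2 h3)

theorem finrank_sup_map_semicont (W F : Submodule K E) [FiniteDimensional K W]
    [FiniteDimensional K F] (φ : K → E →ₗ[K] E) (h : ∀ f, PD fun t => φ t f) :
    {t | finrank K (W ⊔ F.map (φ t) : Submodule K E) <
      finrank K (W ⊔ F.map (φ 0) : Submodule K E)}.Finite := by
  have h1 := finrank_range_semicont (fun t => W.subtype.coprod (φ t ∘ₗ F.subtype)) fun u =>
    (PD.const (u.1 : E)).add (h u.2)
  have h2 : ∀ t, LinearMap.range (W.subtype.coprod (φ t ∘ₗ F.subtype)) = W ⊔ F.map (φ t) :=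
    fun t => by rw [LinearMap.range_coprod, LinearMap.range_comp]; simp
  refine h1.subset fun t ht => ?_
  rw [Set.mem_ofPred_eq, h2, h2]
  exact ht

theorem exists_generic [Infinite K] {α : Type*} [Finite α] (L : Submodule K E)
    [FiniteDimensional K L] (d : ℕ) (U : α → Submodule K E) (hU : ∀ a, U a ≤ L)
    (hd : ∀ a, finrank K L ≤ finrank K (U a) + d) :
    ∃ θ : Fin d → E, (∀ r, θ r ∈ L) ∧ ∀ a, L ≤ U a ⊔ Submodule.span K (Set.range θ) := by
  induction d generalizing U with
  | zero =>
    exact ⟨Fin.elim0, fun r => r.elim0, fun a =>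
      (Submodule.eq_of_le_of_finrank_le (hU a) (hd a)).ge.trans le_sup_left⟩
  | succ d ih =>
    obtain ⟨x, hx⟩ := Submodule.exists_forall_notMem_of_forall_ne_top
      (fun a : {a // U a ≠ L} => (U a).comap L.subtype) fun a h =>
        a.2 (le_antisymm (hU a) (Submodule.comap_subtype_eq_top.1 h))
    have hU' : ∀ a, U a ⊔ Submodule.span K {x.1} ≤ L := fun a =>
      sup_le (hU a) ((Submodule.span_singleton_le_iff_mem _ _).2 x.2)
    obtain ⟨θ, h1, h2⟩ := ih (fun a => U a ⊔ Submodule.span K {x.1}) hU' fun a => by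
      have : FiniteDimensional K (U a ⊔ Submodule.span K {x.1} : Submodule K E) :=
        Submodule.finiteDimensional_of_le (hU' a)
      by_cases ha : U a = L
      · exact (Submodule.finrank_mono (ha.ge.trans le_sup_left)).trans (Nat.le_add_right _ _)
      · have h3 : U a < U a ⊔ Submodule.span K {x.1} := by
          refine lt_of_le_of_ne le_sup_left fun h => hx ⟨a, ha⟩ ?_
          rw [Submodule.mem_comap, h]
          exact Submodule.mem_sup_right (Submodule.mem_span_singleton_self _)
        have h4 := Submodule.finrank_lt_finrank_of_lt h3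
        have := hd a
        omega
    refine ⟨Fin.cons x.1 θ, fun r => Fin.cases x.2 h1 r, fun a => (h2 a).trans ?_⟩
    rw [Fin.range_cons, Submodule.span_insert, sup_assoc]

end Pool.Agent.Lib.MP_21db46_co
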