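import Pool.Agent.Lib.MP_21db46_co.Std
import Pool.Agent.Lib.MP_21db46_co.Generic

/-! Transfer of total complexes and the deformation of systems attached to a labelling. -/

namespace Pool.Agent.Lib.MP_21db46_co

open Finset MvPolynomial

variable {K : Type*} [Field K] {V : Type*} [LinearOrder V] [Fintype V]
  {W : Type*} [LinearOrder W] [Fintype W]
  {κ : Type*} [LinearOrder κ] [Fintype κ] {ν : Type*} [DecidableEq ν]

section Mext

variable (L : (Finset V → K) →ₗ[K] (Finset W → K))

omit [LinearOrder W] [Fintype W] [LinearOrder κ] [Fintype κ] [DecidableEq ν] in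
theorem mext_apply₂ (c : EE K V κ ν) (G : Finset W) (A : Finset κ) :
    mext (Finset κ → MvPolynomial ν K) L c G A = ∑ F, L (bv K F) G • c F A := by
  rw [mext_apply, Finset.sum_apply]; rfl

variable {L}

omit [LinearOrder W] [Fintype W] [LinearOrder κ] [Fintype κ] in
theorem mext_mem_TT {S : Finset V → Finset ν} {S' : Finset W → Finset ν} {j : ℕ}
    {q : Finset V → Finset κ → Prop} {q' : Finset W → Finset κ → Prop}
    (h : ∀ F G A, q F A → L (bv K F) G ≠ 0 →
      q' G A ∧ PA K (S F) (j - A.card) ≤ PA K (S' G) (j - A.card))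
    {c : EE K V κ ν} (hc : c ∈ TT K S j q) :
    mext (Finset κ → MvPolynomial ν K) L c ∈ TT K S' j q' := by
  have key : ∀ F G A, L (bv K F) G • c F A = 0 ∨
      (q' G A ∧ L (bv K F) G • c F A ∈ PA K (S' G) (j - A.card)) := fun F G A => by
    by_cases h1 : L (bv K F) G = 0
    · left; rw [h1, zero_smul]
    by_cases h2 : q F A
    · right; exact ⟨(h F G A h2 h1).1, Submodule.smul_mem _ _ ((h F G A h2 h1).2 (hc.1 F A))⟩
    · left; rw [hc.2 F A h2, smul_zero]
  refine ⟨fun G A => ?_, fun G A hq => ?_⟩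
  · rw [mext_apply₂]
    refine Submodule.sum_mem _ fun F _ => (key F G A).elim (fun h => ?_) fun h => h.2
    rw [h]; exact Submodule.zero_mem _
  · rw [mext_apply₂]
    exact sum_eq_zero fun F _ => (key F G A).resolve_right fun h => hq h.1

omit [LinearOrder W] [Fintype W] [DecidableEq ν] in
theorem mext_dl (θ : κ → MvPolynomial ν K) {c : EE K V κ ν}
    (h : ∀ F G, L (bv K F) G ≠ 0 → c F ≠ 0 → G.card = F.card) :
    mext (Finset κ → MvPolynomial ν K) L (dl θ c) =
      dl θ (mext (Finset κ → MvPolynomial ν K) L c) := by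
  ext1 G
  rw [dl_apply, mext_apply, mext_apply, map_sum, smul_sum]
  refine sum_congr rfl fun F _ => ?_
  rw [dl_apply, LinearMap.map_smul_of_tower, smul_comm]
  by_cases h1 : L (bv K F) G = 0
  · simp [h1]
  by_cases h2 : c F = 0
  · simp [h2]
  rw [h F G h1 h2]

omit [LinearOrder W] [Fintype W] [LinearOrder κ] [Fintype κ] [DecidableEq ν] in
theorem mext_fw {p : Finset V → ν → MvPolynomial ν K} {p' : Finset W → ν → MvPolynomial ν K}
    (h : ∀ F G, L (bv K F) G ≠ 0 → p' G = p F) (c : EE K V κ ν) :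
    mext (Finset κ → MvPolynomial ν K) L (fw p c) =
      fw p' (mext (Finset κ → MvPolynomial ν K) L c) := by
  ext1 G; ext1 A
  rw [fw_apply, mext_apply₂, mext_apply₂, map_sum]
  refine sum_congr rfl fun F _ => ?_
  rw [map_smul, fw_apply]
  by_cases h1 : L (bv K F) G = 0
  · simp [h1]
  rw [h F G h1]

end Mext

omit [LinearOrder V] [Fintype V] [LinearOrder κ] [Fintype κ] in
theorem TT_mem_ch {S : Finset V → Finset ν} {j : ℕ} {q : Finset V → Finset κ → Prop}
    {Γ : Set (Finset V)} (h : ∀ G A, q G A → G ∈ Γ) {c : EE K V κ ν} (hc : c ∈ TT K S j q) :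
    c ∈ ch K Γ := fun G hG => funext fun A => hc.2 G A fun h' => hG (h G A h')

theorem push_DT (lam : W → V) (θ : κ → MvPolynomial ν K) (c : EE K W κ ν) :
    mext (Finset κ → MvPolynomial ν K) (push K lam) (DT θ c) =
      DT θ (mext (Finset κ → MvPolynomial ν K) (push K lam) c) := by
  rw [DT_apply, DT_apply, map_add, Transfer.bd_pushM,
    mext_dl θ fun F G h _ => (mem_ch'.1 (push_bv_mem K lam F) G h).2]

theorem sub_QQ {Γ : Set (Finset V)} (l : IsLowerSet Γ) (j : ℕ) : qdg.Sub (QQ K κ ν Γ j) := by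
  intro c hc
  refine ⟨fun G A => ?_, fun G A h => ?_⟩
  · change bd K c G A ∈ _
    rw [bd_apply, Finset.sum_apply]
    exact Submodule.sum_mem _ fun v _ => zsmul_mem (hc.1 _ A) _
  · change bd K c G A = 0
    rw [bd_apply, Finset.sum_apply]
    refine sum_eq_zero fun v _ => ?_
    rw [Pi.smul_apply, hc.2 _ A fun h' => h ⟨l (subset_insert v G) h'.1, h'.2⟩, smul_zero]

theorem qdg_pc (Γ : Set (Finset V)) (j n : ℕ) : qdg.pc (QQ K κ ν Γ j) n = TT K (fun _ => ∅) j
    fun G A => (G ∈ Γ ∧ A.card = j) ∧ G.card + A.card = n := TT_inf_sp _ _ _ _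

variable {Δ : Set (Finset V)} {Δ' : Set (Finset W)} {σ : Finset W → Finset V} {lam : W → V}

theorem Transfer.Bet_eq (T : Transfer K Δ Δ' σ lam) (h : HSub K Δ Δ' σ) (j d : ℕ) :
    Bet K κ ν Δ j d = Bet K κ ν Δ' j d := by
  have hτ : ∀ n, ∀ c ∈ qdg.pc (QQ K κ ν Δ j) n, mext _ T.τ c ∈ qdg.pc (QQ K κ ν Δ' j) n := by
    intro n c hc
    rw [qdg_pc] at hc ⊢
    refine mext_mem_TT (fun F G A hq h1 => ⟨?_, le_rfl⟩) hc
    have := mem_ch'.1 (T.τ_mem F hq.1.1) G h1
    exact ⟨⟨this.1.1, hq.1.2⟩, by rw [this.2, hq.2]⟩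
  have hη : ∀ n, ∀ c ∈ qdg.pc (QQ K κ ν Δ' j) n,
      mext _ T.η c ∈ qdg.pc (QQ K κ ν Δ' j) (n + 1) := by
    intro n c hc
    rw [qdg_pc] at hc ⊢
    refine mext_mem_TT (fun F G A hq h1 => ⟨?_, le_rfl⟩) hc
    have := mem_ch'.1 (T.η_mem F hq.1.1) G h1
    exact ⟨⟨this.1.1, hq.1.2⟩, by rw [this.2, ← hq.2]; omega⟩
  have hp : ∀ n, ∀ c ∈ qdg.pc (QQ K κ ν Δ' j) n,
      mext _ (push K lam) c ∈ qdg.pc (QQ K κ ν Δ j) n := by
    intro n c hc
    rw [qdg_pc] at hc ⊢
    refine mext_mem_TT (fun F G A hq h1 => ⟨?_, le_rfl⟩) hc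
    have := mem_ch'.1 (T.push_mem hq.1.1) G h1
    exact ⟨⟨h.low this.1 (h.map_mem F hq.1.1), hq.1.2⟩, by rw [this.2, hq.2]⟩
  have hc : ∀ c ∈ QQ K κ ν Δ j, c ∈ ch K Δ := fun c hc => TT_mem_ch (fun _ _ h => h.1) hc
  have hc' : ∀ c ∈ QQ K κ ν Δ' j, c ∈ ch K Δ' := fun c hc => TT_mem_ch (fun _ _ h => h.1) hc
  refine sum_congr rfl fun n _ => congrArg _ (le_antisymm ?_ ?_)
  · refine DG.beta_le (sub_QQ h.low j) (sub_QQ h.low' j) n (mext _ T.τ)
      (fun x hx => ⟨hτ n x hx.1, ?_⟩) ?_
    · have h0 : bd K x = 0 := hx.2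
      change bd K (mext _ T.τ x) = 0
      rw [T.bd_τM (hc x hx.1.1), h0, map_zero]
    · rintro x hx ⟨y, hy, hyx⟩
      refine ⟨_, hp _ y hy, ?_⟩
      change bd K y = _ at hyx
      change bd K (mext _ (push K lam) y) = _
      rw [Transfer.bd_pushM, hyx, T.push_τM (hc x hx.1.1)]
  · refine DG.beta_le (sub_QQ h.low' j) (sub_QQ h.low j) n (mext _ (push K lam))
      (fun x hx => ⟨hp n x hx.1, ?_⟩) ?_
    · have h0 : bd K x = 0 := hx.2
      change bd K (mext _ (push K lam) x) = 0
      rw [Transfer.bd_pushM, h0, map_zero]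
    · rintro x hx ⟨y, hy, hyx⟩
      have h0 : bd K x = 0 := hx.2
      refine ⟨_, Submodule.add_mem _ (hτ _ y hy) (hη _ x hx.1), ?_⟩
      change bd K y = _ at hyx
      change bd K (mext _ T.τ y + mext _ T.η x) = _
      rw [map_add, T.bd_τM (hc y hy.1), hyx]
      have := T.homotM (hc' x hx.1.1)
      rw [h0, map_zero, add_zero] at this
      exact this.symm

section Systems

variable (K) in
/-- the system of face rings -/
noncomputable def killSys (ι : V ↪ ν) : Sys K V ν where
  S F := F.map ι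
  p F x := if x ∈ F.map ι then X x else 0
  card_S F := card_map ι
  p_mem F x := by
    split_ifs with h
    exacts [X_mem_PA h, Submodule.zero_mem _]
  p_self F x hx := if_pos hx
  comp F' F h x := by
    by_cases hx : x ∈ F.map ι
    · rw [if_pos hx, aeval_X]
    · rw [if_neg hx, if_neg fun h' => hx (map_subset_map.2 h h'), map_zero]

theorem killSys_isStd (ι : V ↪ ν) : (killSys K ι).IsStd ι :=
  ⟨fun _ => rfl, fun G v hv => if_neg (by simpa using hv)⟩

variable (lam)

/-- `v` is the smallest vertex of `G` with its label -/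
def IsBase (G : Finset W) (v : W) : Prop := ∀ v' ∈ G, lam v' = lam v → v ≤ v'

instance (G : Finset W) (v : W) : Decidable (IsBase lam G v) := by
  unfold IsBase; infer_instance

/-- the deformed retractions -/
noncomputable def pT (t : K) (G : Finset W) : V ⊕ W → MvPolynomial (V ⊕ W) K
  | Sum.inl j => if j ∈ G.image lam then X (Sum.inl j) else 0
  | Sum.inr v => if v ∈ G then (if IsBase lam G v then
      C t * X (Sum.inl (lam v)) - ∑ v' ∈ (G.filter (lam · = lam v)).erase v, X (Sum.inr v')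
      else X (Sum.inr v)) else 0

/-- the standard form of the deformed retractions -/
noncomputable def pS (t : K) (G : Finset W) : V ⊕ W → MvPolynomial (V ⊕ W) K
  | Sum.inl j => C t⁻¹ * ∑ v ∈ G.filter (lam · = j), X (Sum.inr v)
  | Sum.inr v => if v ∈ G then X (Sum.inr v) else 0

variable {lam}

theorem absorb {t : K} {G : Finset W} {ψ : V ⊕ W → MvPolynomial (V ⊕ W) K}
    (h2 : ∀ j, j ∉ G.image lam → ψ (Sum.inl j) = 0) (h1 : ∀ v, v ∉ G → ψ (Sum.inr v) = 0)
    (h3 : ∀ j, ∑ v ∈ G.filter (lam · = j), ψ (Sum.inr v) = C t * ψ (Sum.inl j)) (x : V ⊕ W) :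
    aeval ψ (pT lam t G x) = ψ x := by
  rcases x with j | v
  · simp only [pT]
    split_ifs with h
    · rw [aeval_X]
    · rw [map_zero, h2 j h]
  · simp only [pT]
    split_ifs with h h'
    · simp only [map_sub, map_mul, map_sum, aeval_X, aeval_C, algebraMap_eq]
      rw [← h3, ← add_sum_erase (G.filter (lam · = lam v)) _ (a := v) (mem_filter.2 ⟨h, rfl⟩),
        add_sub_cancel_right]
    · rw [aeval_X]
    · rw [map_zero, h1 v h]

theorem exists_base {G : Finset W} {j : V} (h : j ∈ G.image lam) :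
    ∃ v ∈ G, lam v = j ∧ IsBase lam G v := by
  obtain ⟨w, hw, rfl⟩ := mem_image.1 h
  obtain ⟨v, hv, hmin⟩ := (G.filter (lam · = lam w)).exists_min_image id
    ⟨w, mem_filter.2 ⟨hw, rfl⟩⟩
  have := mem_filter.1 hv
  exact ⟨v, this.1, this.2, fun v' hv' h' => hmin v' (mem_filter.2 ⟨hv', h'.trans this.2⟩)⟩

omit [LinearOrder V] [Fintype V] [Fintype W] in
theorem IsBase.unique {G : Finset W} {v v' : W} (h : IsBase lam G v) (h' : IsBase lam G v')
    (hv : v ∈ G) (hv' : v' ∈ G) (e : lam v = lam v') : v = v' :=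
  le_antisymm (h v' hv' e.symm) (h' v hv e)

theorem pT_rel (t : K) (G : Finset W) (j : V) :
    ∑ v ∈ G.filter (lam · = j), pT lam t G (Sum.inr v) = C t * pT lam t G (Sum.inl j) := by
  by_cases h : j ∈ G.image lam
  · obtain ⟨v, hv, rfl, hb⟩ := exists_base h
    rw [← add_sum_erase (G.filter (lam · = lam v)) _ (a := v) (mem_filter.2 ⟨hv, rfl⟩)]
    have : ∑ v' ∈ (G.filter (lam · = lam v)).erase v, pT lam t G (Sum.inr v') =
        ∑ v' ∈ (G.filter (lam · = lam v)).erase v, X (Sum.inr v') := by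
      refine sum_congr rfl fun v' hv' => ?_
      have h1 := mem_filter.1 (mem_of_mem_erase hv')
      simp only [pT]
      rw [if_pos h1.1, if_neg fun h' => ne_of_mem_erase hv' (h'.unique hb h1.1 hv h1.2)]
    rw [this]
    simp only [pT]
    rw [if_pos hv, if_pos hb, if_pos h, sub_add_cancel]
  · rw [filter_eq_empty_iff.2 fun v hv e => h (mem_image.2 ⟨v, hv, e⟩), sum_empty]
    simp only [pT]
    rw [if_neg h, mul_zero]

variable (lam) in
/-- the free variables of the deformed system -/
def ST (G : Finset W) : Finset (V ⊕ W) :=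
  G.image fun v => if IsBase lam G v then Sum.inl (lam v) else Sum.inr v

theorem inl_mem_ST {G : Finset W} {j : V} : Sum.inl j ∈ ST lam G ↔ j ∈ G.image lam := by
  refine ⟨fun h => ?_, fun h => ?_⟩
  · obtain ⟨v, hv, e⟩ := mem_image.1 h
    split_ifs at e
    exact mem_image.2 ⟨v, hv, Sum.inl_injective e⟩
  · obtain ⟨v, hv, rfl, hb⟩ := exists_base h
    exact mem_image.2 ⟨v, hv, if_pos hb⟩

theorem inr_mem_ST {G : Finset W} {v : W} : Sum.inr v ∈ ST lam G ↔ v ∈ G ∧ ¬ IsBase lam G v := by
  refine ⟨fun h => ?_, fun h => mem_image.2 ⟨v, h.1, if_neg h.2⟩⟩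
  obtain ⟨v', hv, e⟩ := mem_image.1 h
  split_ifs at e with hb
  obtain rfl := Sum.inr_injective e
  exact ⟨hv, hb⟩

variable (lam) in
/-- the deformed system -/
noncomputable def sysT (t : K) : Sys K W (V ⊕ W) where
  S := ST lam
  p := pT lam t
  card_S G := card_image_of_injOn fun v hv v' hv' e => by
    split_ifs at e with h1 h2 h2
    · exact h1.unique h2 hv hv' (Sum.inl_injective e)
    · exact Sum.inr_injective e
  p_mem G x := by
    rcases x with j | v
    · simp only [pT]
      split_ifs with h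
      exacts [X_mem_PA (inl_mem_ST.2 h), Submodule.zero_mem _]
    · simp only [pT]
      split_ifs with h hb
      · refine Submodule.sub_mem _ ?_ (Submodule.sum_mem _ fun v' hv' => X_mem_PA ?_)
        · rw [← smul_eq_C_mul]
          exact Submodule.smul_mem _ _ (X_mem_PA (inl_mem_ST.2 (mem_image_of_mem _ h)))
        · have h1 := mem_filter.1 (mem_of_mem_erase hv')
          exact inr_mem_ST.2 ⟨h1.1, fun h' => ne_of_mem_erase hv' (h'.unique hb h1.1 h h1.2)⟩
      · exact X_mem_PA (inr_mem_ST.2 ⟨h, hb⟩)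
      · exact Submodule.zero_mem _
  p_self G x hx := by
    rcases x with j | v
    · exact if_pos (inl_mem_ST.1 hx)
    · have := inr_mem_ST.1 hx
      simp only [pT]
      rw [if_pos this.1, if_neg this.2]
  comp G' G h := absorb (fun j hj => if_neg fun h' => hj (image_subset_image h h'))
    (fun v hv => if_neg fun h' => hv (h h')) fun j => by
      rw [← pT_rel]
      refine (sum_subset (filter_subset_filter _ h) fun v h1 h2 => ?_).symm
      exact if_neg fun h' => h2 (mem_filter.2 ⟨h', (mem_filter.1 h1).2⟩)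

variable (lam) in
/-- the standard form of the deformed system -/
noncomputable def sysS (t : K) : Sys K W (V ⊕ W) where
  S G := G.map Function.Embedding.inr
  p := pS lam t
  card_S G := card_map _
  p_mem G x := by
    rcases x with j | v
    · simp only [pS]
      rw [← smul_eq_C_mul]
      exact Submodule.smul_mem _ _ (Submodule.sum_mem _ fun v hv =>
        X_mem_PA (mem_map_of_mem Function.Embedding.inr (mem_filter.1 hv).1))
    · simp only [pS]
      split_ifs with h
      exacts [X_mem_PA (mem_map_of_mem Function.Embedding.inr h), Submodule.zero_mem _]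
  p_self G x hx := by
    obtain ⟨v, hv, rfl⟩ := mem_map.1 hx
    exact if_pos hv
  comp G' G h x := by
    rcases x with j | v
    · simp only [pS, map_mul, map_sum, aeval_X, aeval_C, algebraMap_eq]
      congr 1
      rw [← sum_filter, filter_comm, filter_mem_eq_inter, inter_eq_right.2 h]
    · simp only [pS]
      by_cases hv : v ∈ G
      · rw [if_pos hv, aeval_X]; rfl
      · rw [if_neg hv, if_neg fun h' => hv (h h'), map_zero]

theorem sysS_isStd (t : K) : (sysS lam t).IsStd Function.Embedding.inr :=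
  ⟨fun _ => rfl, fun _ _ hv => if_neg hv⟩

theorem pS_inl (t : K) {G : Finset W} {j : V} (hj : j ∉ G.image lam) :
    pS lam t G (Sum.inl j) = 0 := by
  simp only [pS]
  rw [filter_eq_empty_iff.2 fun v hv e => hj (mem_image.2 ⟨v, hv, e⟩), sum_empty, mul_zero]

theorem pS_pT {t : K} (ht : t ≠ 0) (G : Finset W) (x : V ⊕ W) :
    aeval (pS lam t G) (pT lam t G x) = pS lam t G x :=
  absorb (fun j hj => pS_inl t hj) (fun v hv => if_neg hv) (fun j => by
    simp only [pS]
    rw [← mul_assoc, ← map_mul, mul_inv_cancel₀ ht, map_one, one_mul]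
    exact sum_congr rfl fun v hv => if_pos (mem_filter.1 hv).1) x

theorem pT_zero {G : Finset W} (h : (G.image lam).card = G.card) :
    (killSys K (Function.Embedding.inl : V ↪ V ⊕ W)).p (G.image lam) = pT lam 0 G := by
  have hi := card_image_iff.1 h
  ext1 x
  rcases x with j | v
  · simp [killSys, pT]
  · simp only [killSys, pT]
    rw [if_neg (by simp)]
    split_ifs with hv hb
    · rw [map_zero, zero_mul, sum_eq_zero, sub_zero]
      intro v' hv'
      have h1 := mem_filter.1 (mem_of_mem_erase hv')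
      exact absurd (hi h1.1 hv h1.2) (ne_of_mem_erase hv')
    · exact absurd (fun v' hv' e => (hi hv' hv e).ge) hb
    · rfl

theorem pd_aeval_pT (G : Finset W) (f : MvPolynomial (V ⊕ W) K) :
    PD fun t : K => aeval (pT lam t G) f := by
  have h1 : ∀ x, ∃ q : Polynomial (MvPolynomial (V ⊕ W) K), ∀ t : K,
      pT lam t G x = q.eval (algebraMap K _ t) := by
    intro x
    rcases x with j | v
    · exact ⟨Polynomial.C (pT lam 0 G (Sum.inl j)), fun t => by rw [Polynomial.eval_C]; rfl⟩
    · simp only [pT]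
      split_ifs
      · exact ⟨Polynomial.X * Polynomial.C (X (Sum.inl (lam v))) - Polynomial.C
          (∑ v' ∈ (G.filter (lam · = lam v)).erase v, X (Sum.inr v')), fun t => by
          simp only [Polynomial.eval_sub, Polynomial.eval_mul, Polynomial.eval_X,
            Polynomial.eval_C, algebraMap_eq]⟩
      · exact ⟨Polynomial.C _, fun t => Polynomial.eval_C.symm⟩
      · exact ⟨0, fun t => Polynomial.eval_zero.symm⟩
  have h2 : ∃ q : Polynomial (MvPolynomial (V ⊕ W) K), ∀ t : K,
      aeval (pT lam t G) f = q.eval (algebraMap K _ t) := by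
    induction f using MvPolynomial.induction_on with
    | C a => exact ⟨Polynomial.C (C a), fun t => by rw [aeval_C, Polynomial.eval_C]; rfl⟩
    | add f g h1 h2 =>
      obtain ⟨p, hp⟩ := h1
      obtain ⟨q, hq⟩ := h2
      exact ⟨p + q, fun t => by rw [map_add, hp, hq, Polynomial.eval_add]⟩
    | mul_X f x h =>
      obtain ⟨p, hp⟩ := h
      obtain ⟨q, hq⟩ := h1 x
      exact ⟨p * q, fun t => by rw [map_mul, aeval_X, hp, hq, Polynomial.eval_mul]⟩
  obtain ⟨q, hq⟩ := h2
  simp only [hq]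
  exact PD.of_eval q

theorem pd_fw_pT (c : EE K W κ (V ⊕ W)) : PD fun t : K => fw (pT lam t) c :=
  PD.pi fun G => PD.pi fun A => pd_aeval_pT G (c G A)

end Systems

end Pool.Agent.Lib.MP_21db46_co
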