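import Mathlib

/-!
Definitions for the statement: finite simplicial complexes, links, reduced simplicial homology
over a field, Cohen-Macaulay and Buchsbaum complexes, geometric realization, topological
subdivisions and the h-polynomial.

A complex is given by its finite family of faces (finite subsets of a finite, linearly ordered
ground set `V`; the order only serves to orient simplices, and elements of `V` need not be
vertices).  The empty face is a face.
-/

namespace Pool.Agent.Lib.MP_21db46_co

open Finset

variable {V : Type*} [Fintype V] [LinearOrder V]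

/-- `Δ` is a simplicial complex: it contains the empty face and is closed under subsets. -/
def IsComplex (Δ : Finset (Finset V)) : Prop :=
  ∅ ∈ Δ ∧ ∀ F ∈ Δ, ∀ G ⊆ F, G ∈ Δ

/-- `d = dim Δ + 1`, the largest number of vertices of a face. -/
def rk (Δ : Finset (Finset V)) : ℕ := Δ.sup card

/-- The link of the face `F`. -/
def link (Δ : Finset (Finset V)) (F : Finset V) : Finset (Finset V) :=
  Δ.filter fun G => Disjoint G F ∧ G ∪ F ∈ Δ

/-- Every face lies in a face of the top dimension. -/
def IsPure (Δ : Finset (Finset V)) : Prop :=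
  ∀ F ∈ Δ, ∃ G ∈ Δ, F ⊆ G ∧ G.card = rk Δ

/-- The simplicial boundary map on chains `c = ∑ c G • [G]` with coefficients in `k`:
`∂ [G] = ∑ v ∈ G, (-1) ^ (number of w ∈ G with w < v) • [G \ {v}]`,
written as the coefficient of `[H]` in `∂ c`.  It includes the augmentation `∂ [{v}] = [∅]`. -/
def boundary (k : Type*) [Field k] (c : Finset V → k) : Finset V → k := fun H =>
  ∑ v ∈ Hᶜ, (-1) ^ (H.filter (· < v)).card * c (insert v H)

/-- `c` is a chain of `Δ` made of faces with `m` vertices (dimension `m - 1`). -/
def IsChain {k : Type*} [Field k] (Δ : Finset (Finset V)) (m : ℕ) (c : Finset V → k) : Prop :=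
  ∀ G, c G ≠ 0 → G ∈ Δ ∧ G.card = m

/-- The reduced homology of `Δ` over `k` vanishes in dimension `m - 1`:
every `(m-1)`-cycle of the augmented chain complex is a boundary. -/
def HomologyVanishes (k : Type*) [Field k] (Δ : Finset (Finset V)) (m : ℕ) : Prop :=
  ∀ c : Finset V → k, IsChain Δ m c → boundary k c = 0 →
    ∃ e : Finset V → k, IsChain Δ (m + 1) e ∧ boundary k e = c

/-- Cohen-Macaulay over `k`, by Reisner's criterion: for every face `F` the reduced homology of
the link of `F` vanishes in all dimensions `i = m - 1 < dim (link F) = rk (link F) - 1`. -/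
def IsCohenMacaulay (k : Type*) [Field k] (Δ : Finset (Finset V)) : Prop :=
  ∀ F ∈ Δ, ∀ m < rk (link Δ F), HomologyVanishes k (link Δ F) m

/-- Buchsbaum over `k`: pure, and the link of every nonempty face is Cohen-Macaulay. -/
def IsBuchsbaum (k : Type*) [Field k] (Δ : Finset (Finset V)) : Prop :=
  IsPure Δ ∧ ∀ F ∈ Δ, F.Nonempty → IsCohenMacaulay k (link Δ F)

/-- The closed geometric simplex spanned by `G`: points of the standard simplex in `ℝ^V` whose
barycentric coordinates vanish outside `G`. -/
def geomFace (G : Finset V) : Set (V → ℝ) :=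
  {x | x ∈ stdSimplex ℝ V ∧ ∀ v, v ∉ G → x v = 0}

/-- The geometric realization: the union of the closed geometric simplices of the faces. -/
def realization (Δ : Finset (Finset V)) : Set (V → ℝ) := ⋃ G ∈ Δ, geomFace G

/-- The number `f_{i-1}` of faces with `i` vertices. -/
def fnum (Δ : Finset (Finset V)) (i : ℕ) : ℕ := (Δ.filter fun F => F.card = i).card

/-- The h-polynomial `∑_{i=0}^d f_{i-1} x^i (1-x)^{d-i}`, `d = dim Δ + 1`. -/
noncomputable def hPoly (Δ : Finset (Finset V)) : Polynomial ℤ :=
  ∑ i ∈ range (rk Δ + 1),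
    Polynomial.C (fnum Δ i : ℤ) * Polynomial.X ^ i * (1 - Polynomial.X) ^ (rk Δ - i)

variable {W : Type*} [Fintype W] [LinearOrder W]

/-- The restriction `Δ'_F = σ⁻¹(2^F)`. -/
def restr (Δ' : Finset (Finset W)) (σ : Finset W → Finset V) (F : Finset V) :
    Finset (Finset W) :=
  Δ'.filter fun G => σ G ⊆ F

/-- `(Δ', σ)` is a topological subdivision of `Δ`: `σ` maps faces of `Δ'` to faces of `Δ`, and for
every face `F` of `Δ` the family `Δ'_F = σ⁻¹(2^F)` is a subcomplex whose realization is
homeomorphic to a closed ball of dimension `dim F = card F - 1`, and `σ⁻¹(F)` is the set of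
interior faces of `Δ'_F`, that is, of the faces not contained in the boundary sphere.
For `F = ∅` the ball of dimension `-1` is empty, so `Δ'_∅ = {∅}`. -/
structure IsTopSubdivision (Δ : Finset (Finset V)) (Δ' : Finset (Finset W))
    (σ : Finset W → Finset V) : Prop where
  map_mem : ∀ G ∈ Δ', σ G ∈ Δ
  subcomplex : ∀ F ∈ Δ, IsComplex (restr Δ' σ F)
  restr_empty : restr Δ' σ ∅ = {∅}
  ball : ∀ F ∈ Δ, F.Nonempty →
    ∃ φ : realization (restr Δ' σ F) ≃ₜ
        Metric.closedBall (0 : EuclideanSpace ℝ (Fin (F.card - 1))) 1,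
      ∀ G ∈ restr Δ' σ F, σ G = F ↔
        ¬ ∀ x : realization (restr Δ' σ F), (x : W → ℝ) ∈ geomFace G →
          ‖(φ x : EuclideanSpace ℝ (Fin (F.card - 1)))‖ = 1

end Pool.Agent.Lib.MP_21db46_co
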