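import Pool.Agent.Lib.MP_21db46_co.Ball

/-! A topological subdivision is a homology subdivision. -/

namespace Pool.Agent.Lib.MP_21db46_co

open Finset Metric

variable {K : Type*} [Field K] {V : Type*} [LinearOrder V] [Fintype V]
  {W : Type*} [LinearOrder W] [Fintype W]

omit [LinearOrder W] [Fintype W] in
theorem IsComplex.lower {Δ : Finset (Finset W)} (h : IsComplex Δ) :
    IsLowerSet (Δ : Set (Finset W)) := fun F G hle hF => h.2 F hF G hle

theorem exists_supp_eq {G : Finset W} (hG : G.Nonempty) :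
    ∃ x ∈ stdSimplex ℝ W, supp x = G := by
  have h : (0 : ℝ) < G.card := by exact_mod_cast hG.card_pos
  refine ⟨fun v => if v ∈ G then (G.card : ℝ)⁻¹ else 0, ⟨fun v => ?_, ?_⟩, ?_⟩
  · simp only; split_ifs <;> positivity
  · simp [h.ne']
  · ext v; simp [h.ne']

open unitInterval in
omit [LinearOrder W] in
theorem norm_eq_one_of_face {n : ℕ} {S : Set (Finset W)} (l : IsLowerSet S)
    (φ : rl S ≃ₜ closedBall (0 : EuclideanSpace ℝ (Fin n)) 1) (y z : rl S)
    (hz : supp z.1 ⊆ supp y.1) (hy : ‖(φ y : EuclideanSpace ℝ (Fin n))‖ = 1) :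
    ‖(φ z : EuclideanSpace ℝ (Fin n))‖ = 1 := by
  obtain ⟨y1, y2⟩ := (mem_rl l).1 y.2
  obtain ⟨z1, -⟩ := (mem_rl l).1 z.2
  have hm : ∀ s : I, (1 - (s : ℝ)) • z.1 + (s : ℝ) • y.1 ∈ rl S := fun s =>
    geomFace_subset_rl y2 (convex_geomFace _ (mem_geomFace.2 ⟨z1, hz⟩)
      (mem_geomFace.2 ⟨y1, subset_rfl⟩) (one_minus_nonneg s) s.2.1 (by ring))
  have hc : Continuous fun s : I => ‖(φ ⟨_, hm s⟩ : EuclideanSpace ℝ (Fin n))‖ :=
    (continuous_subtype_val.comp (φ.continuous.comp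
      (Continuous.subtype_mk (by fun_prop) _))).norm
  have h1 : Set.Ioi (0 : I) ⊆ {s : I | ‖(φ ⟨_, hm s⟩ : EuclideanSpace ℝ (Fin n))‖ = 1} := by
    intro s hs
    have hs' : 0 < (s : ℝ) := hs
    refine boundary_invariance l φ y _ ?_ hy
    ext v
    simp only [mem_supp, Pi.add_apply, Pi.smul_apply, smul_eq_mul]
    have a1 := mul_nonneg (one_minus_nonneg s) (z1.1 v)
    refine ⟨fun h => ?_, fun h h0 => h ?_⟩
    · have := mul_pos hs' ((y1.1 v).lt_of_ne' h)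
      linarith
    · have : z.1 v = 0 := by
        by_contra h'; exact mem_supp.1 (hz (mem_supp.2 h')) h0
      simp [this, h0]
  have h2 := (isClosed_eq hc continuous_const).closure_subset_iff.2 h1
  rw [closure_Ioi' ⟨1, Set.mem_Ioi.2 zero_lt_one⟩] at h2
  have h3 : ‖(φ ⟨_, hm 0⟩ : EuclideanSpace ℝ (Fin n))‖ = 1 := h2 (Set.mem_Ici.2 le_rfl)
  simpa using h3

theorem hsub_of_top {Δ : Finset (Finset V)} {Δ' : Finset (Finset W)} {σ : Finset W → Finset V}
    (hΔ : IsComplex Δ) (hΔ' : IsComplex Δ') (h : IsTopSubdivision Δ Δ' σ) :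
    HSub K (Δ : Set (Finset V)) (Δ' : Set (Finset W)) σ := by
  have mono : ∀ G ∈ Δ', ∀ G' ⊆ G, σ G' ⊆ σ G := fun G hG G' hle =>
    (mem_filter.1 ((h.subcomplex _ (h.map_mem G hG)).2 G (mem_filter.2 ⟨hG, subset_rfl⟩)
      G' hle)).2
  have eq_empty : ∀ G ∈ Δ', σ G = ∅ → G = ∅ := fun G hG h0 => by
    have : G ∈ restr Δ' σ ∅ := mem_filter.2 ⟨hG, h0.subset⟩
    rwa [h.restr_empty, mem_singleton] at this
  have map_empty : σ ∅ = ∅ := by
    have : ∅ ∈ restr Δ' σ ∅ := by rw [h.restr_empty]; exact mem_singleton_self _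
    exact subset_empty.1 (mem_filter.1 this).2
  refine ⟨hΔ.lower, hΔ'.lower, hΔ'.1, h.map_mem, mono, map_empty, eq_empty,
    fun F hF G hG hGF n => ?_, fun G hG n => ?_⟩
  · obtain ⟨φ, hφ⟩ := h.ball F hF ((exists_of_ssubset hGF).imp fun _ h => h.1)
    have l := (h.subcomplex F hF).lower
    have hGr : G ∈ restr Δ' σ F := mem_filter.2 ⟨hG, hGF.subset⟩
    rcases G.eq_empty_or_nonempty with rfl | hne
    · have e := ex_ball (K := K) l φ n
      rw [← ch_empty, ex_iff_exS l isLowerSet_empty] at e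
      convert e using 1
      ext H; simp [restr]
    · obtain ⟨x, hx, rfl⟩ := exists_supp_eq hne
      have h1 := not_not.1 ((hφ _ hGr).not.1 hGF.ne) ⟨x, (mem_rl l).2 ⟨hx, hGr⟩⟩
        (mem_geomFace.2 ⟨hx, subset_rfl⟩)
      convert exS_star_of_boundary (K := K) l φ ⟨x, (mem_rl l).2 ⟨hx, hGr⟩⟩ h1 n using 1
      ext H; simp [restr, and_assoc]
  · rcases G.eq_empty_or_nonempty with rfl | hne
    · intro c hc _ _
      exact ⟨0, Submodule.zero_mem _, Submodule.zero_mem _,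
        fun H hH => absurd (empty_subset H) hH.2.2⟩
    have hF := h.map_mem G hG
    obtain ⟨φ, hφ⟩ := h.ball _ hF
      (nonempty_iff_ne_empty.2 fun h0 => hne.ne_empty (eq_empty G hG h0))
    have l := (h.subcomplex _ hF).lower
    have hGr : G ∈ restr Δ' σ (σ G) := mem_filter.2 ⟨hG, subset_rfl⟩
    have lB : IsLowerSet {H | H ∈ restr Δ' σ (σ G) ∧ σ H ≠ σ G} := fun H H' hle hH =>
      ⟨l hle hH.1, fun h' => hH.2 (le_antisymm (mem_filter.1 hH.1).2
        (h' ▸ mono H (mem_filter.1 hH.1).1 H' hle))⟩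
    have hB : ∀ y : rl (restr Δ' σ (σ G) : Set (Finset W)),
        y.1 ∈ rl {H | H ∈ restr Δ' σ (σ G) ∧ σ H ≠ σ G} ↔
          ‖(φ y : EuclideanSpace ℝ (Fin ((σ G).card - 1)))‖ = 1 := fun y => by
      obtain ⟨y1, y2⟩ := (mem_rl l).1 y.2
      rw [mem_rl lB]
      refine ⟨fun hy => not_not.1 ((hφ _ y2).not.1 hy.2.2) y (mem_geomFace.2 ⟨y1, subset_rfl⟩),
        fun hy => ⟨y1, y2, (hφ _ y2).not.2 (not_not.2 fun z hz => ?_)⟩⟩
      exact norm_eq_one_of_face l φ y z (mem_geomFace.1 hz).2 hy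
    obtain ⟨x, hx, hxG⟩ := exists_supp_eq hne
    have hxm : x ∈ rl (restr Δ' σ (σ G) : Set (Finset W)) := (mem_rl l).2 ⟨hx, hxG ▸ hGr⟩
    have hx1 : ‖(φ ⟨x, hxm⟩ : EuclideanSpace ℝ (Fin ((σ G).card - 1)))‖ < 1 := by
      refine lt_of_le_of_ne (mem_closedBall_zero_iff.1 (φ ⟨x, hxm⟩).2) fun h1 => ?_
      have := ((mem_rl lB).1 ((hB ⟨x, hxm⟩).2 h1)).2.2
      exact this (by simp only [hxG])
    have e := ex_cost_of_interior (K := K) l φ ⟨x, hxm⟩ hx1 lB
      ⟨(h.subcomplex _ hF).1, fun h0 => hne.ne_empty (eq_empty G hG (h0.symm.trans map_empty))⟩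
      hB (fun H hH => ⟨hH.1, fun h' => hH.2 (le_antisymm (mem_filter.1 hH.1).2
        (mono H (mem_filter.1 hH.1).1 G (hxG ▸ h')))⟩) n
    rw [ex_iff_exS (low_cost l _) lB] at e
    convert e using 1
    ext H
    simp only [hxG, restr, Set.mem_sdiff, Set.mem_ofPred_eq, mem_coe, mem_filter]
    grind

end Pool.Agent.Lib.MP_21db46_co
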