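import Pool.Agent.Lib.MP_21db46_co.Core
import Pool.Agent.Lib.MP_21db46_co.TopSub

/-! Identification of the alternating sums with the h-numbers, and the main theorem. -/

namespace Pool.Agent.Lib.MP_21db46_co

open Finset

theorem coeff_one_sub_pow (n k : ℕ) :
    ((1 - Polynomial.X : Polynomial ℤ) ^ n).coeff k = (-1) ^ k * n.choose k := by
  induction n generalizing k with
  | zero => cases k <;> simp [Polynomial.coeff_one]
  | succ n ih =>
    rw [pow_succ, mul_sub, mul_one, Polynomial.coeff_sub, ih]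
    cases k with
    | zero => simp
    | succ k => rw [Polynomial.coeff_mul_X, ih, Nat.choose_succ_succ]; push_cast; ring

theorem one_sub_pow_mul_mk (m : ℕ) : (1 - PowerSeries.X : PowerSeries ℤ) ^ m *
    PowerSeries.mk (fun n => (m.multichoose n : ℤ)) = 1 := by
  induction m with
  | zero =>
    ext n
    cases n <;> simp [PowerSeries.coeff_one]
  | succ m ih =>
    rw [pow_succ, mul_assoc]
    refine Eq.trans (congrArg _ ?_) ih
    ext n
    rw [sub_mul, one_mul, map_sub]
    cases n with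
    | zero => simp
    | succ n =>
      rw [PowerSeries.coeff_succ_X_mul]
      simp [Nat.multichoose_succ_succ]

theorem sum_koszul {m d : ℕ} (h : m ≤ d) (j : ℕ) :
    ∑ A : Finset (Fin d), (if A.card < j + 1 then
      (-1) ^ A.card * (m.multichoose (j - A.card) : ℤ) else 0) = (-1) ^ j * (d - m).choose j := by
  have h1 : (1 - PowerSeries.X : PowerSeries ℤ) ^ d =
      ∑ A : Finset (Fin d), (-1 : ℤ) ^ A.card • PowerSeries.X ^ A.card := by
    have := Finset.prod_one_add (s := (univ : Finset (Fin d)))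
      (f := fun _ => (-PowerSeries.X : PowerSeries ℤ))
    simp only [prod_const, card_univ, Fintype.card_fin, powerset_univ] at this
    rw [sub_eq_add_neg, this]
    refine sum_congr rfl fun A _ => ?_
    rw [neg_pow]; simp
  have h2 : (1 - PowerSeries.X : PowerSeries ℤ) ^ d *
      PowerSeries.mk (fun n => (m.multichoose n : ℤ)) =
        (((1 - Polynomial.X : Polynomial ℤ) ^ (d - m) : Polynomial ℤ) : PowerSeries ℤ) := by
    conv_lhs => rw [← Nat.sub_add_cancel h, pow_add, mul_assoc, one_sub_pow_mul_mk, mul_one]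
    simp
  have h3 := congrArg (PowerSeries.coeff j) h2
  rw [Polynomial.coeff_coe, coeff_one_sub_pow, h1, sum_mul, map_sum] at h3
  rw [← h3]
  refine sum_congr rfl fun A _ => ?_
  rw [smul_mul_assoc, map_zsmul, PowerSeries.coeff_X_pow_mul', PowerSeries.coeff_mk]
  simp only [Nat.lt_succ_iff]
  split_ifs <;> simp

variable {V : Type*} [LinearOrder V] [Fintype V]

theorem eulT_eq (Δ : Finset (Finset V)) {d : ℕ} (hd : ∀ F ∈ Δ, F.card ≤ d) (j : ℕ) :
    (-1) ^ j * eulT (Fin d) (Δ : Set (Finset V)) j (d + j) =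
      ∑ G ∈ Δ, (-1 : ℤ) ^ (d + G.card + j) * (d - G.card).choose j := by
  classical
  simp only [eulT, dimT, Nat.cast_sum, mul_sum]
  rw [sum_comm, ← sum_subset (subset_univ Δ)]
  · refine sum_congr rfl fun G hG => ?_
    rw [pow_add, mul_assoc, ← sum_koszul (hd G hG), sum_comm, mul_sum]
    refine sum_congr rfl fun A _ => ?_
    have h1 := hd G hG
    by_cases hA : A.card < j + 1
    · rw [sum_eq_single (G.card + A.card), if_pos ⟨⟨hG, hA⟩, rfl⟩, if_pos hA, ← mul_assoc,
        ← mul_assoc, ← pow_add, ← pow_add]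
      · congr 1
        rw [neg_one_pow_eq_pow_mod_two, neg_one_pow_eq_pow_mod_two (n := d + _ + _)]
        congr 1; omega
      · intro n _ hn
        rw [if_neg fun h => hn h.2.symm]; simp
      · intro h; exact absurd (mem_range.2 (by omega)) h
    · rw [if_neg hA, mul_zero]
      exact sum_eq_zero fun n _ => by rw [if_neg fun h => hA h.1.2]; simp
  · intro G _ hG
    exact sum_eq_zero fun n _ => sum_eq_zero fun A _ => by
      rw [if_neg fun h => hG h.1.1]; simp

omit [LinearOrder V] [Fintype V] in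
theorem coeff_hPoly (Δ : Finset (Finset V)) (i : ℕ) : (hPoly Δ).coeff i =
    ∑ G ∈ Δ, if G.card ≤ i then
      (-1 : ℤ) ^ (i - G.card) * (rk Δ - G.card).choose (i - G.card) else 0 := by
  rw [hPoly, Polynomial.finsetSum_coeff, ← sum_fiberwise_of_maps_to (g := card)
    (t := range (rk Δ + 1)) fun G hG => mem_range.2 (Nat.lt_succ_of_le (le_sup (f := card) hG))]
  refine sum_congr rfl fun m _ => ?_
  rw [mul_assoc, Polynomial.coeff_C_mul, Polynomial.coeff_X_pow_mul', coeff_one_sub_pow,
    sum_congr rfl fun G hG => by rw [(mem_filter.1 hG).2], sum_const, fnum, nsmul_eq_mul]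

theorem coeff_hPoly_eq (Δ : Finset (Finset V)) {i j : ℕ} (h : i + j = rk Δ) :
    (hPoly Δ).coeff i = (-1) ^ j * eulT (Fin (rk Δ)) (Δ : Set (Finset V)) j (rk Δ + j) := by
  rw [eulT_eq Δ (d := rk Δ) fun F hF => le_sup (f := card) hF, coeff_hPoly]
  refine sum_congr rfl fun G hG => ?_
  split_ifs with h1
  · rw [Nat.choose_symm_of_eq_add (show rk Δ - G.card = (i - G.card) + j by omega)]
    congr 1
    rw [neg_one_pow_eq_pow_mod_two, neg_one_pow_eq_pow_mod_two (n := rk Δ + _ + _)]
    congr 1; omega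
  · have : G.card ≤ rk Δ := le_sup (f := card) hG
    rw [Nat.choose_eq_zero_of_lt (by omega)]; simp

omit [LinearOrder V] [Fintype V] in
theorem coeff_hPoly_of_lt (Δ : Finset (Finset V)) {i : ℕ} (h : rk Δ < i) :
    (hPoly Δ).coeff i = 0 := by
  rw [coeff_hPoly]
  refine sum_eq_zero fun G hG => ?_
  have : G.card ≤ rk Δ := le_sup (f := card) hG
  rw [if_pos (by omega), Nat.choose_eq_zero_of_lt (by omega)]; simp

theorem hPoly_mono (k : Type*) [Field k] {W : Type*} [LinearOrder W] [Fintype W]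
    {Δ : Finset (Finset V)} {Δ' : Finset (Finset W)} {σ : Finset W → Finset V}
    (hΔ : IsComplex Δ) (hΔ' : IsComplex Δ') (hB : IsBuchsbaum k Δ)
    (h : IsTopSubdivision Δ Δ' σ) (i : ℕ) : (hPoly Δ).coeff i ≤ (hPoly Δ').coeff i := by
  classical
  let K := AlgebraicClosure k
  have hs : HSub K (Δ : Set (Finset V)) (Δ' : Set (Finset W)) σ := hsub_of_top hΔ hΔ' h
  rcases isEmpty_or_nonempty V with hV | hV
  · have h1 : Δ = {∅} := eq_singleton_iff_unique_mem.2 ⟨hΔ.1, fun F _ => eq_empty_of_isEmpty F⟩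
    have h2 : Δ' = {∅} := eq_singleton_iff_unique_mem.2
      ⟨hΔ'.1, fun G hG => hs.eq_empty G hG (eq_empty_of_isEmpty _)⟩
    rw [coeff_hPoly, coeff_hPoly, h1, h2]
    simp [rk]
  have hlam : ∀ w : W, ∃ v : V, {w} ∈ (Δ' : Set (Finset W)) → v ∈ σ {w} := fun w => by
    by_cases hw : {w} ∈ (Δ' : Set (Finset W))
    · obtain ⟨v, hv⟩ := nonempty_iff_ne_empty.2 fun h0 =>
        singleton_ne_empty w (hs.eq_empty _ hw h0)
      exact ⟨v, fun _ => hv⟩
    · exact ⟨Classical.arbitrary V, fun h' => absurd h' hw⟩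
  choose lam hlam using hlam
  obtain ⟨T⟩ := hs.nonempty_transfer hlam
  have hd : ∀ F ∈ (Δ : Set (Finset V)), F.card ≤ rk Δ := fun F hF => le_sup (f := card) hF
  have hrk : rk Δ' = rk Δ := by
    refine le_antisymm (Finset.sup_le (T.card_le hs hd)) (Finset.sup_le fun F hF => ?_)
    obtain ⟨G, hG, e⟩ := T.exists_card_eq hF
    exact e ▸ le_sup (f := card) hG
  rcases le_or_gt i (rk Δ) with hi | hi
  · obtain ⟨j, hj⟩ := Nat.exists_eq_add_of_le hi
    rw [coeff_hPoly_eq Δ hj.symm, coeff_hPoly_eq Δ' (hj.symm.trans hrk.symm), hrk]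
    exact core T hs (locEx_of_buchsbaum hΔ hB) hd j
  · rw [coeff_hPoly_of_lt Δ hi, coeff_hPoly_of_lt Δ' (hrk ▸ hi)]

end Pool.Agent.Lib.MP_21db46_co
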