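import Mathlib

/-! Elementary homological algebra for graded differential vector spaces. -/

namespace Pool.Agent.Lib.MP_21db46_co

open Module

variable {K : Type*} [Field K] {E : Type*} [AddCommGroup E] [Module K E]

/-- A square-zero endomorphism lowering a family of degree pieces by one. -/
structure DG (K : Type*) [Field K] (E : Type*) [AddCommGroup E] [Module K E] where
  D : E →ₗ[K] E
  gr : ℕ → Submodule K E
  DD : ∀ x, D (D x) = 0
  D_gr : ∀ n x, x ∈ gr (n + 1) → D x ∈ gr n
  D_gr0 : ∀ x, x ∈ gr 0 → D x = 0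

namespace DG

variable (C : DG K E)

/-- Exactness of the pair `(A, B)` in degree `n`. -/
def Ex (A B : Submodule K E) (n : ℕ) : Prop :=
  ∀ x ∈ A, x ∈ C.gr n → C.D x ∈ B → ∃ y ∈ A, y ∈ C.gr (n + 1) ∧ x - C.D y ∈ B

/-- `A` is a subcomplex. -/
def Sub (A : Submodule K E) : Prop := ∀ x ∈ A, C.D x ∈ A

variable {C}

theorem Ex.self (A : Submodule K E) (n : ℕ) : C.Ex A A n := fun x hx _ _ =>
  ⟨0, A.zero_mem, Submodule.zero_mem _, by simpa using hx⟩

theorem Ex.trans {A B B' : Submodule K E} {n : ℕ} (hBA : B ≤ A) (hB'B : B' ≤ B)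
    (h1 : C.Ex A B n) (h2 : C.Ex B B' n) : C.Ex A B' n := by
  intro x hx hxn hD
  obtain ⟨y, hy, hyn, hb⟩ := h1 x hx hxn (hB'B hD)
  have hbn : x - C.D y ∈ C.gr n := Submodule.sub_mem _ hxn (C.D_gr _ _ hyn)
  obtain ⟨y', hy', hy'n, hb'⟩ := h2 _ hb hbn (by simpa [C.DD] using hD)
  refine ⟨y + y', A.add_mem hy (hBA hy'), Submodule.add_mem _ hyn hy'n, ?_⟩
  convert hb' using 1
  simp only [map_add]; abel

theorem Ex.upper {A B B' : Submodule K E} {n : ℕ} (hBA : B ≤ A) (hB'B : B' ≤ B)
    (h1 : C.Ex A B' n) (h2 : ∀ m, n = m + 1 → C.Ex B B' m) :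
    C.Ex A B n := by
  intro x hx hxn hD
  cases n with
  | zero =>
    obtain ⟨y, hy, hyn, hb⟩ := h1 x hx hxn (by rw [C.D_gr0 x hxn]; exact B'.zero_mem)
    exact ⟨y, hy, hyn, hB'B hb⟩
  | succ m =>
    obtain ⟨y, hy, hyn, hb⟩ := h2 m rfl (C.D x) hD (C.D_gr _ _ hxn)
      (by rw [C.DD]; exact B'.zero_mem)
    obtain ⟨z, hz, hzn, hb'⟩ := h1 (x - y) (A.sub_mem hx (hBA hy)) (Submodule.sub_mem _ hxn hyn)
      (by simpa using hb)
    refine ⟨z, hz, hzn, ?_⟩
    have : x - C.D z = (x - y - C.D z) + y := by abel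
    rw [this]
    exact B.add_mem (hB'B hb') hy

theorem Ex.lower {A B B' : Submodule K E} {n : ℕ} (hBA : B ≤ A) (hB'B : B' ≤ B)
    (h1 : C.Ex A B' n) (h2 : C.Ex A B (n + 1)) : C.Ex B B' n := by
  intro x hx hxn hD
  obtain ⟨y, hy, hyn, hb⟩ := h1 x (hBA hx) hxn hD
  have hDy : C.D y ∈ B := by
    have : C.D y = x - (x - C.D y) := by abel
    rw [this]; exact B.sub_mem hx (hB'B hb)
  obtain ⟨z, hz, hzn, hb'⟩ := h2 y hy hyn hDy
  refine ⟨y - C.D z, hb', Submodule.sub_mem _ hyn (C.D_gr _ _ hzn), ?_⟩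
  simpa [C.DD] using hb

theorem Ex.chain (F : ℕ → Submodule K E) (hF : Monotone F) {n : ℕ} (a b : ℕ) (hab : a ≤ b)
    (h : ∀ p, a ≤ p → p < b → C.Ex (F (p + 1)) (F p) n) : C.Ex (F b) (F a) n := by
  induction b, hab using Nat.le_induction with
  | base => exact Ex.self _ _
  | succ b hab ih =>
    exact Ex.trans (hF (Nat.le_succ b)) (hF hab) (h b hab (Nat.lt_succ_self b))
      (ih fun p hp hp' => h p hp (Nat.lt_succ_of_lt hp'))

variable (C)

/-- degree `n` part of `A` -/
def pc (A : Submodule K E) (n : ℕ) : Submodule K E := A ⊓ C.gr n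
/-- cycles -/
def Z (A : Submodule K E) (n : ℕ) : Submodule K E := C.pc A n ⊓ LinearMap.ker C.D
/-- boundaries -/
def B (A : Submodule K E) (n : ℕ) : Submodule K E := (C.pc A (n + 1)).map C.D
/-- Betti number -/
noncomputable def beta (A : Submodule K E) (n : ℕ) : ℤ :=
  (finrank K (C.Z A n) : ℤ) - finrank K (C.B A n)
/-- truncated Euler characteristic -/
noncomputable def eul (A : Submodule K E) (p : ℕ) : ℤ :=
  ∑ n ∈ Finset.range (p + 1), (-1) ^ (p - n) * (finrank K (C.pc A n) : ℤ)

end DG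

theorem finrank_eq_map_add_inf_ker {E' : Type*} [AddCommGroup E'] [Module K E']
    (L : E →ₗ[K] E') (F : Submodule K E) [FiniteDimensional K F] :
    finrank K F = finrank K (F.map L) + finrank K (F ⊓ LinearMap.ker L : Submodule K E) := by
  have h := LinearMap.finrank_range_add_finrank_ker (L.domRestrict F)
  rw [LinearMap.range_domRestrict] at h
  rw [← h]
  congr 1
  rw [LinearMap.ker_domRestrict]
  have : (F ⊓ LinearMap.ker L : Submodule K E) =
      (Submodule.comap F.subtype (LinearMap.ker L)).map F.subtype := by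
    rw [Submodule.map_comap_subtype]
  rw [this, Submodule.finrank_map_subtype_eq]

/-- Passing to images does not increase a codimension. -/
theorem finrank_codim_map_le {E' : Type*} [AddCommGroup E'] [Module K E']
    (L : E →ₗ[K] E') {W F : Submodule K E} [FiniteDimensional K F] (h : W ≤ F) :
    finrank K (F.map L) + finrank K W ≤ finrank K F + finrank K (W.map L) := by
  have : FiniteDimensional K W := Submodule.finiteDimensional_of_le h
  have h1 := finrank_eq_map_add_inf_ker L F
  have h2 := finrank_eq_map_add_inf_ker L W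
  have h3 : finrank K (W ⊓ LinearMap.ker L : Submodule K E) ≤
      finrank K (F ⊓ LinearMap.ker L : Submodule K E) :=
    Submodule.finrank_mono (inf_le_inf_right _ h)
  omega

theorem finrank_codim_map_eq {E' : Type*} [AddCommGroup E'] [Module K E']
    (L : E →ₗ[K] E') {W F : Submodule K E} [FiniteDimensional K F] (h : W ≤ F)
    (hk : F ⊓ LinearMap.ker L ≤ W) :
    finrank K (F.map L) + finrank K W = finrank K F + finrank K (W.map L) := by
  have : FiniteDimensional K W := Submodule.finiteDimensional_of_le h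
  have h1 := finrank_eq_map_add_inf_ker L F
  have h2 := finrank_eq_map_add_inf_ker L W
  have h3 : (W ⊓ LinearMap.ker L : Submodule K E) = F ⊓ LinearMap.ker L :=
    le_antisymm (inf_le_inf_right _ h) (le_inf hk inf_le_right)
  rw [h3] at h2
  omega

theorem finrank_sup_sub_anti {U U' O : Submodule K E} [FiniteDimensional K U']
    [FiniteDimensional K O] (h : U ≤ U') :
    finrank K (U' ⊔ O : Submodule K E) + finrank K U ≤
      finrank K (U ⊔ O : Submodule K E) + finrank K U' := by
  have : FiniteDimensional K U := Submodule.finiteDimensional_of_le h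
  have h1 := Submodule.finrank_sup_add_finrank_inf_eq U' O
  have h2 := Submodule.finrank_sup_add_finrank_inf_eq U O
  have h3 : finrank K (U ⊓ O : Submodule K E) ≤ finrank K (U' ⊓ O : Submodule K E) :=
    Submodule.finrank_mono (inf_le_inf_right _ h)
  omega

namespace DG

variable {C : DG K E}

theorem B_le_Z {A : Submodule K E} (hA : C.Sub A) (n : ℕ) : C.B A n ≤ C.Z A n := by
  rintro _ ⟨y, ⟨hy, hyn⟩, rfl⟩
  exact ⟨⟨hA y hy, C.D_gr _ _ hyn⟩, C.DD y⟩

theorem Z_zero (A : Submodule K E) : C.Z A 0 = C.pc A 0 :=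
  le_antisymm inf_le_left (le_inf le_rfl fun x hx => C.D_gr0 x hx.2)

theorem finrank_pc_succ (A : Submodule K E) (n : ℕ) [FiniteDimensional K (C.pc A (n + 1))] :
    finrank K (C.pc A (n + 1)) = finrank K (C.B A n) + finrank K (C.Z A (n + 1)) :=
  finrank_eq_map_add_inf_ker C.D _

theorem Z_eq_B_of_Ex {A : Submodule K E} (hA : C.Sub A) {n : ℕ} (h : C.Ex A ⊥ n) :
    C.Z A n = C.B A n := by
  refine le_antisymm ?_ (B_le_Z hA n)
  rintro x ⟨⟨hx, hxn⟩, hD⟩
  obtain ⟨y, hy, hyn, hb⟩ := h x hx hxn (by simpa using hD)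
  exact ⟨y, ⟨hy, hyn⟩, (sub_eq_zero.1 (by simpa using hb)).symm⟩

theorem beta_eq_zero_of_Ex {A : Submodule K E} (hA : C.Sub A) {n : ℕ} (h : C.Ex A ⊥ n) :
    C.beta A n = 0 := by
  rw [beta, Z_eq_B_of_Ex hA h, sub_self]

theorem eul_succ (A : Submodule K E) (p : ℕ) :
    C.eul A (p + 1) = finrank K (C.pc A (p + 1)) - C.eul A p := by
  unfold eul
  rw [Finset.sum_range_succ, Nat.sub_self, pow_zero, one_mul, sub_eq_neg_add,
    ← Finset.sum_neg_distrib]
  congr 1
  refine Finset.sum_congr rfl fun n hn => ?_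
  have : p + 1 - n = (p - n) + 1 := by have := Finset.mem_range.1 hn; omega
  rw [this, pow_succ]; ring

theorem eul_eq_Z (A : Submodule K E) (hfin : ∀ n, FiniteDimensional K (C.pc A n)) (p : ℕ) :
    C.eul A p = finrank K (C.Z A p) +
      ∑ n ∈ Finset.range p, (-1) ^ (p - n) * C.beta A n := by
  induction p with
  | zero => rw [Z_zero]; simp [eul]
  | succ p ih =>
    have := hfin (p + 1)
    rw [eul_succ, ih, finrank_pc_succ, Finset.sum_range_succ]
    have h1 : ∑ n ∈ Finset.range p, (-1 : ℤ) ^ (p + 1 - n) * C.beta A n =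
        -∑ n ∈ Finset.range p, (-1 : ℤ) ^ (p - n) * C.beta A n := by
      rw [← Finset.sum_neg_distrib]
      refine Finset.sum_congr rfl fun n hn => ?_
      have : p + 1 - n = (p - n) + 1 := by have := Finset.mem_range.1 hn; omega
      rw [this, pow_succ]; ring
    rw [h1]
    simp only [beta, Nat.add_sub_cancel_left, pow_one]
    push_cast; ring

theorem eul_eq_B (A : Submodule K E) (hfin : ∀ n, FiniteDimensional K (C.pc A n)) (p : ℕ) :
    C.eul A p = finrank K (C.B A p) +
      ∑ n ∈ Finset.range (p + 1), (-1) ^ (p - n) * C.beta A n := by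
  rw [eul_eq_Z A hfin, Finset.sum_range_succ]
  simp only [beta, Nat.sub_self, pow_zero]
  ring

/-- If `A` is exact below `p`, the cycles in degree `p` have dimension `eul A p`. -/
theorem finrank_Z_of_exact_below {A : Submodule K E} (hA : C.Sub A)
    (hfin : ∀ n, FiniteDimensional K (C.pc A n)) (p : ℕ) (h : ∀ n < p, C.Ex A ⊥ n) :
    (finrank K (C.Z A p) : ℤ) = C.eul A p := by
  rw [eul_eq_Z A hfin, Finset.sum_eq_zero, add_zero]
  intro n hn
  rw [beta_eq_zero_of_Ex hA (h n (Finset.mem_range.1 hn)), mul_zero]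

/-- If `A` is exact above `p`, the boundaries in degree `p` are determined by dimensions. -/
theorem finrank_B_of_exact_above {A : Submodule K E} (hA : C.Sub A)
    (hfin : ∀ n, FiniteDimensional K (C.pc A n)) (p q : ℕ) (h : ∀ n, p < n → C.Ex A ⊥ n)
    (htop : C.pc A (p + q + 1) = ⊥) :
    (finrank K (C.B A p) : ℤ) = C.eul A p - (-1) ^ q * C.eul A (p + q) := by
  have key : ∀ q, (finrank K (C.B A p) : ℤ) =
      C.eul A p - (-1) ^ q * (C.eul A (p + q) - finrank K (C.B A (p + q))) := by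
    intro q
    induction q with
    | zero => simp
    | succ q ih =>
      have := hfin (p + q + 1)
      rw [ih, ← add_assoc, eul_succ, finrank_pc_succ,
        Z_eq_B_of_Ex hA (h (p + q + 1) (by omega))]
      push_cast; ring
  have hB : C.B A (p + q) = ⊥ := by simp [B, htop]
  rw [key q, hB]; simp

/-- Betti numbers are monotone along a map with a homotopy left inverse. -/
theorem beta_le {E' : Type*} [AddCommGroup E'] [Module K E'] {C' : DG K E'}
    {A : Submodule K E} {A' : Submodule K E'} (hA : C.Sub A) (hA' : C'.Sub A') (n : ℕ)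
    [FiniteDimensional K (C.pc A n)] [FiniteDimensional K (C'.pc A' n)]
    (f : E →ₗ[K] E') (hfZ : ∀ x ∈ C.Z A n, f x ∈ C'.Z A' n)
    (hinj : ∀ x ∈ C.Z A n, f x ∈ C'.B A' n → x ∈ C.B A n) :
    C.beta A n ≤ C'.beta A' n := by
  have : FiniteDimensional K (C.Z A n) := Submodule.finiteDimensional_of_le inf_le_left
  have : FiniteDimensional K (C'.Z A' n) := Submodule.finiteDimensional_of_le inf_le_left
  have : FiniteDimensional K (C.B A n) := Submodule.finiteDimensional_of_le (B_le_Z hA n)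
  have : FiniteDimensional K (C'.B A' n) := Submodule.finiteDimensional_of_le (B_le_Z hA' n)
  have h1 := finrank_eq_map_add_inf_ker ((C'.B A' n).mkQ ∘ₗ f) (C.Z A n)
  have h2 := finrank_eq_map_add_inf_ker (C'.B A' n).mkQ (C'.Z A' n)
  rw [Submodule.ker_mkQ, inf_eq_right.2 (B_le_Z hA' n)] at h2
  have h3 : finrank K (C.Z A n ⊓ LinearMap.ker ((C'.B A' n).mkQ ∘ₗ f) : Submodule K E) ≤
      finrank K (C.B A n) := by
    refine Submodule.finrank_mono ?_
    rintro x ⟨hx, hk⟩
    exact hinj x hx (by simpa using hk)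
  have h4 : finrank K ((C.Z A n).map ((C'.B A' n).mkQ ∘ₗ f)) ≤
      finrank K ((C'.Z A' n).map (C'.B A' n).mkQ) := by
    refine Submodule.finrank_mono ?_
    rintro _ ⟨x, hx, rfl⟩
    exact ⟨f x, hfZ x hx, rfl⟩
  unfold beta
  omega

end DG

end Pool.Agent.Lib.MP_21db46_co
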