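import Pool.Agent.Lib.MP_21db46_co.ListChain
import Pool.Agent.Lib.MP_21db46_co.Defs

/-! Homotopy invariance of simplicial homology, in the form needed for subdivisions. -/

namespace Pool.Agent.Lib.MP_21db46_co

open Finset unitInterval

variable {V : Type*} [LinearOrder V] [Fintype V]

/-- support of a point -/
noncomputable def supp (x : V → ℝ) : Finset V := univ.filter fun v => x v ≠ 0

omit [LinearOrder V] in
@[simp] theorem mem_supp {x : V → ℝ} {v : V} : v ∈ supp x ↔ x v ≠ 0 := by simp [supp]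

/-- realization of a family of faces -/
def rl (S : Set (Finset V)) : Set (V → ℝ) := ⋃ G ∈ S, geomFace G

omit [LinearOrder V] in
theorem mem_geomFace {G : Finset V} {x : V → ℝ} :
    x ∈ geomFace G ↔ x ∈ stdSimplex ℝ V ∧ supp x ⊆ G := by
  refine and_congr_right fun _ => ⟨fun h v hv => ?_, fun h v hv => ?_⟩
  · by_contra h'; exact mem_supp.1 hv (h v h')
  · by_contra h'; exact hv (h (mem_supp.2 h'))

omit [LinearOrder V] in
theorem mem_rl {S : Set (Finset V)} (hS : IsLowerSet S) {x : V → ℝ} :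
    x ∈ rl S ↔ x ∈ stdSimplex ℝ V ∧ supp x ∈ S := by
  simp only [rl, Set.mem_iUnion, mem_geomFace]
  exact ⟨fun ⟨G, hG, h1, h2⟩ => ⟨h1, hS h2 hG⟩, fun h => ⟨_, h.2, h.1, subset_rfl⟩⟩

omit [LinearOrder V] in
theorem geomFace_subset_rl {S : Set (Finset V)} {G : Finset V} (hG : G ∈ S) :
    geomFace G ⊆ rl S := Set.subset_biUnion_of_mem (u := geomFace) hG

omit [LinearOrder V] in
theorem rl_mono {S T : Set (Finset V)} (h : S ⊆ T) : rl S ⊆ rl T :=
  Set.biUnion_subset_biUnion_left h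

omit [LinearOrder V] in
theorem isClosed_geomFace (G : Finset V) : IsClosed (geomFace G) := by
  have : geomFace G = stdSimplex ℝ V ∩ ⋂ v ∈ {v | v ∉ G}, {x : V → ℝ | x v = 0} := by
    ext x; simp [geomFace]
  rw [this]
  exact (isClosed_stdSimplex ℝ V).inter
    (isClosed_biInter fun v _ => isClosed_eq (continuous_apply v) continuous_const)

omit [LinearOrder V] in
theorem isCompact_rl (S : Set (Finset V)) : IsCompact (rl S) :=
  (Set.toFinite S).isCompact_biUnion fun G _ =>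
    (isCompact_stdSimplex ℝ V).of_isClosed_subset (isClosed_geomFace G) fun _ h => h.1

omit [LinearOrder V] in
theorem convex_geomFace (G : Finset V) : Convex ℝ (geomFace G) := fun x hx y hy a b ha hb hab =>
  ⟨convex_stdSimplex ℝ V hx.1 hy.1 ha hb hab, fun v hv => by simp [hx.2 v hv, hy.2 v hv]⟩

theorem single_mem_geomFace {G : Finset V} {v : V} (hv : v ∈ G) :
    (Pi.single v 1 : V → ℝ) ∈ geomFace G :=
  ⟨single_mem_stdSimplex ℝ v, fun w hw => Pi.single_eq_of_ne (by rintro rfl; exact hw hv) _⟩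

omit [LinearOrder V] in
theorem dist_le_one {x y : V → ℝ} (hx : x ∈ stdSimplex ℝ V) (hy : y ∈ stdSimplex ℝ V) :
    dist x y ≤ 1 :=
  (Metric.dist_le_diam_of_mem (bounded_stdSimplex V) hx hy).trans diam_stdSimplex_le

omit [LinearOrder V] in
theorem supp_nonempty {x : V → ℝ} (hx : x ∈ stdSimplex ℝ V) : (supp x).Nonempty := by
  by_contra h
  have h1 : ∀ v, x v = 0 := fun v => by
    by_contra h'; exact h ⟨v, mem_supp.2 h'⟩
  have := hx.2
  simp [h1] at this

omit [LinearOrder V] in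
theorem exists_top [Nonempty V] : ∃ top : (V → ℝ) → V, ∀ x ∈ stdSimplex ℝ V,
    1 / (Fintype.card V : ℝ) ≤ x (top x) := by
  have : ∀ x : V → ℝ, ∃ v, x ∈ stdSimplex ℝ V → 1 / (Fintype.card V : ℝ) ≤ x v := by
    intro x
    obtain ⟨v, hv⟩ := Finite.exists_max x
    refine ⟨v, fun hx => ?_⟩
    have h1 : (0 : ℝ) < Fintype.card V := by exact_mod_cast Fintype.card_pos
    rw [div_le_iff₀ h1, ← hx.2]
    calc ∑ w, x w ≤ ∑ _w : V, x v := Finset.sum_le_sum fun w _ => hv w
      _ = x v * Fintype.card V := by simp [mul_comm]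
  choose top h using this
  exact ⟨top, h⟩

variable {K : Type*} [Field K]

theorem bd_indicator_card {M : Type*} [AddCommGroup M] [Module K M] (n : ℕ) (y : Finset V → M) :
    bd K (Set.indicator {H : Finset V | H.card = n + 1} y) =
      Set.indicator {H : Finset V | H.card = n} (bd K y) := by
  ext H
  by_cases hH : H.card = n
  · rw [Set.indicator_of_mem (show H ∈ {H : Finset V | H.card = n} from hH)]
    exact bd_congr_at fun v hv => Set.indicator_of_mem
      (show insert v H ∈ {H : Finset V | H.card = n + 1} by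
        simp [card_insert_of_notMem hv, hH]) _
  · rw [Set.indicator_of_notMem (show H ∉ {H : Finset V | H.card = n} from hH)]
    exact (simpDG K M V).D_gr n _ (indicator_mem_ch _ _) H hH

theorem ex_of_ungraded {M : Type*} [AddCommGroup M] [Module K M] {S T : Set (Finset V)}
    (h : ∀ x : Finset V → M, x ∈ ch K S → bd K x ∈ ch K T → ∃ y ∈ ch K S, x - bd K y ∈ ch K T)
    (n : ℕ) : (simpDG K M V).Ex (ch K S) (ch K T) n := by
  intro x hx hxn hD
  obtain ⟨y, hy, hb⟩ := h x hx hD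
  refine ⟨Set.indicator {H : Finset V | H.card = n + 1} y, indicator_mem_ch_of _ hy,
    indicator_mem_ch _ _, fun H hH => ?_⟩
  rw [simpDG_D, bd_indicator_card, Pi.sub_apply]
  by_cases hn : H.card = n
  · rw [Set.indicator_of_mem (show H ∈ {H : Finset V | H.card = n} from hn)]
    exact hb H hH
  · rw [Set.indicator_of_notMem (show H ∉ {H : Finset V | H.card = n} from hn), hxn H hn, sub_zero]

theorem hi_core [Nonempty V] {S₁ S₂ S₃ : Set (Finset V)} (l1 : IsLowerSet S₁)
    (l2 : IsLowerSet S₂) (l3 : IsLowerSet S₃) (h21 : S₂ ⊆ S₁) (e3 : ∅ ∈ S₃)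
    (H : rl S₁ × I → (V → ℝ)) (hc : Continuous H) (hmem : ∀ p, H p ∈ rl S₁)
    (h0 : ∀ x, supp (H (x, 0)) ⊆ supp x.1)
    (h2 : ∀ x t, x.1 ∈ rl S₂ → H (x, t) ∈ rl S₂) (h3 : ∀ x, H (x, 1) ∈ rl S₃)
    {x : Finset V → K} (hx : x ∈ ch K S₁) (hD : bd K x ∈ ch K S₂) :
    ∃ y ∈ ch K S₁, x - bd K y ∈ (ch K S₂ ⊔ ch K S₃ : Submodule K (Finset V → K)) := by
  classical
  obtain ⟨top, htop⟩ := exists_top (V := V)
  have : CompactSpace (rl S₁) := isCompact_iff_compactSpace.1 (isCompact_rl S₁)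
  have hN : (0 : ℝ) < 1 / (Fintype.card V : ℝ) := by
    have : (0 : ℝ) < Fintype.card V := by exact_mod_cast Fintype.card_pos
    positivity
  obtain ⟨δ, hδ, hu⟩ := Metric.uniformContinuous_iff.1
    (CompactSpace.uniformContinuous_of_continuous hc) _ hN
  obtain ⟨n, hn⟩ := exists_nat_one_div_lt hδ
  have hstd : ∀ p, H p ∈ stdSimplex ℝ V := fun p => ((mem_rl l1).1 (hmem p)).1
  have near : ∀ p q, dist p q < δ → top (H p) ∈ supp (H q) := fun p q hpq => by
    have h1 := (dist_le_pi_dist (H p) (H q) (top (H p))).trans_lt (hu hpq)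
    have h2 := htop _ (hstd p)
    rw [Real.dist_eq, abs_lt] at h1
    exact mem_supp.2 (by linarith [h1.2] : 0 < H q (top (H p))).ne'
  let t : ℕ → I := fun k => Set.projIcc 0 1 zero_le_one ((k : ℝ) / ((n : ℝ) + 1))
  have t0 : t 0 = 0 := by simp [t]
  have t1 : t (n + 1) = 1 := by
    simp only [t]; push_cast; rw [div_self (by positivity)]; simp
  have ts : ∀ k, dist (t (k + 1)) (t k) < δ := fun k => by
    refine lt_of_le_of_lt ?_ hn
    rw [Subtype.dist_eq, Real.dist_eq]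
    refine (Set.abs_projIcc_sub_projIcc zero_le_one).trans (le_of_eq ?_)
    push_cast
    rw [← sub_div, add_sub_cancel_left, abs_of_pos (by positivity)]
  let f : ℕ → (V → ℝ) → V := fun k y =>
    if h : y ∈ rl S₁ then top (H (⟨y, h⟩, t k)) else Classical.arbitrary V
  have fnear : ∀ k k' y y' (hy : y ∈ rl S₁) (hy' : y' ∈ rl S₁), dist y y' < δ →
      dist (t k) (t k') < δ → f k y ∈ supp (H (⟨y', hy'⟩, t k')) := by
    intro k k' y y' hy hy' h1 h2
    simp only [f, dif_pos hy]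
    exact near _ _ (by rw [Prod.dist_eq]; exact max_lt h1 h2)
  -- small subdivision chains
  obtain ⟨sd, sd0, hsd⟩ := acyclic_carrier (K := K) l1 (lbd K)
    (fun G => Finsupp.supported K K (small (geomFace G) δ))
    (fun G => Finsupp.supported K K (small (geomFace G) δ)) 1 0 (Finsupp.single [] 1)
    (Finsupp.single_mem_supported K 1 (by simp [small])) (by simp [bdl])
    (fun _ _ _ => Submodule.zero_mem _)
    (fun G _ v _ => Finsupp.supported_mono fun l hl => ⟨fun y hy =>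
      ⟨(hl.1 y hy).1, fun w hw => (hl.1 y hy).2 w fun h' => hw (mem_of_mem_erase h')⟩, hl.2⟩)
    (fun G _ hne z hz hD => by
      obtain ⟨v, hv⟩ := hne
      exact small_acyclic (single_mem_geomFace hv)
        ((convex_geomFace G).starConvex (single_mem_geomFace hv))
        (fun y hy => dist_le_one hy.1 (single_mem_geomFace hv).1) hδ hz hD)
    (fun G _ => by simp [lin_apply])
  have bd_sd : ∀ c ∈ ch K S₁, lbd K (lin K sd c) = lin K sd (bd K c) := fun c hc =>
    ch_ext (L := lbd K ∘ₗ lin K sd) (L' := lin K sd ∘ₗ bd K) (fun G hG => by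
      simpa using (hsd G hG).2) hc
  have aux : ∀ {S : Set (Finset V)}, IsLowerSet S → ∀ G ∈ S, ∀ B : Set V, B ⊆ G →
      inS K B ≤ (ch K S).comap (orient K) := fun hS G hG B hB c hc =>
    ch_mono (fun F hF => hS hF hG) (orient_mem (inS_mono hB hc))
  -- the prisms
  have prism_mem : ∀ {S : Set (Finset V)}, IsLowerSet S → S ⊆ S₁ →
      (∀ x t, x.1 ∈ rl S → H (x, t) ∈ rl S) → ∀ c ∈ ch K S,
      orient K (prisms K f (n + 1) (lin K sd c)) ∈ ch K S := by
    intro S hS hS1 hH c hc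
    refine map_mem_of_ch (L := orient K ∘ₗ prisms K f (n + 1) ∘ₗ lin K sd) (fun G hG => ?_) hc
    simp only [LinearMap.comp_apply, lin_bv]
    refine prisms_mem (U := (ch K S).comap (orient K)) (fun k _ l hl => ?_) (hsd G (hS1 hG)).1
    have hl1 : ∀ y ∈ l, y ∈ rl S₁ := fun y hy => geomFace_subset_rl (hS1 hG) (hl.1 y hy)
    rcases l.eq_nil_or_concat' with rfl | ⟨l', y₀, hl'⟩
    · exact aux hS G hG _ (by simp)
    · have hy₀ : y₀ ∈ l := by simp [hl']
      refine aux hS (supp (H (⟨y₀, hl1 y₀ hy₀⟩, t k)))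
        ((mem_rl hS).1 (hH _ _ (geomFace_subset_rl hG (hl.1 y₀ hy₀)))).2 _ ?_
      rintro _ ⟨y, hy, rfl | rfl⟩
      · exact fnear k k y y₀ (hl1 y hy) _ (hl.2 y hy y₀ hy₀) (by simpa using hδ)
      · exact fnear (k + 1) k y y₀ (hl1 y hy) _ (hl.2 y hy y₀ hy₀) (ts k)
  have end_mem : ∀ c ∈ ch K S₁, orient K (lmap K (f (n + 1)) (lin K sd c)) ∈ ch K S₃ := by
    intro c hc
    refine map_mem_of_ch (L := orient K ∘ₗ lmap K (f (n + 1)) ∘ₗ lin K sd) (fun G hG => ?_) hc
    simp only [LinearMap.comp_apply, lin_bv]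
    refine lc_mem (U := (ch K S₃).comap (orient K)) (fun l hl => ?_) (hsd G hG).1
    have hl1 : ∀ y ∈ l, y ∈ rl S₁ := fun y hy => geomFace_subset_rl hG (hl.1 y hy)
    rw [lmap_single]
    rcases l.eq_nil_or_concat' with rfl | ⟨l', y₀, hl'⟩
    · exact aux l3 ∅ e3 ∅ (by simp) (Finsupp.single_mem_supported K 1 (by simp))
    · have hy₀ : y₀ ∈ l := by simp [hl']
      refine aux l3 (supp (H (⟨y₀, hl1 y₀ hy₀⟩, t (n + 1))))
        ((mem_rl l3).1 (by rw [t1]; exact h3 _)).2 _ subset_rfl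
        (Finsupp.single_mem_supported K 1 ?_)
      intro v hv
      obtain ⟨y, hy, rfl⟩ := List.mem_map.1 hv
      exact fnear _ _ y y₀ (hl1 y hy) _ (hl.2 y hy y₀ hy₀) (by simpa using hδ)
  have start_mem : ∀ G ∈ S₁, orient K (lmap K (f 0) (sd G)) ∈ ch K (Set.Iic G) := by
    intro G hG
    refine lc_mem (U := (ch K (Set.Iic G)).comap (orient K)) (fun l hl => ?_) (hsd G hG).1
    rw [lmap_single]
    refine orient_mem (Finsupp.single_mem_supported K 1 fun v hv => ?_)
    obtain ⟨y, hy, rfl⟩ := List.mem_map.1 hv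
    have hy1 : y ∈ rl S₁ := geomFace_subset_rl hG (hl.1 y hy)
    have := fnear 0 0 y y hy1 hy1 (by simpa using hδ) (by simpa using hδ)
    rw [t0] at this
    exact (mem_geomFace.1 (hl.1 y hy)).2 (h0 _ this)
  set ψ : (Finset V → K) →ₗ[K] (Finset V → K) := orient K ∘ₗ lmap K (f 0) ∘ₗ lin K sd with hψ
  have bd_ψ : ∀ c ∈ ch K S₁, bd K (ψ c) = ψ (bd K c) := fun c hc => by
    simp only [hψ, LinearMap.comp_apply, bd_orient, lbd_lmap, bd_sd c hc]
  obtain ⟨e, -, he⟩ := acyclic_carrier (K := K) l1 (bd K)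
    (fun G => ch K (Set.Iic G)) (fun G => ch K (Set.Iic G)) (-1)
    (fun G => bv K G - ψ (bv K G)) 0 (Submodule.zero_mem _)
    (by simp [hψ, sd0, wl])
    (fun G hG _ => Submodule.sub_mem _ (bv_mem_ch (Set.mem_Iic.2 le_rfl))
      (by simpa [hψ] using start_mem G hG))
    (fun G _ v _ => ch_mono (Set.Iic_subset_Iic.2 (erase_subset v G)))
    (fun G _ hne z hz hD => by
      obtain ⟨v, hv⟩ := hne
      exact ⟨cre K v z, cre_mem_ch hz fun H hH _ => insert_subset hv hH, by
        rw [bd_cre, hD]; simp⟩)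
    (fun G hG => by
      have h1 : lin K (fun G => bv K G - ψ (bv K G)) (bd K (bv K G)) =
          (LinearMap.id - ψ : (Finset V → K) →ₗ[K] (Finset V → K)) (bd K (bv K G)) :=
        ch_ext (S := Set.univ) (fun H _ => by simp) (fun _ h => absurd trivial h)
      rw [h1, map_sub, bd_ψ _ (bv_mem_ch hG)]
      simp)
  have e_mem : ∀ {S : Set (Finset V)}, IsLowerSet S → S ⊆ S₁ → ∀ c ∈ ch K S,
      lin K e c ∈ ch K S := fun hS hS1 c hc =>
    map_mem_of_ch (fun G hG => by
      rw [lin_bv]; exact ch_mono (fun F hF => hS hF hG) (he G (hS1 hG)).1) hc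
  have hom : bd K (lin K e x) = x - ψ x - lin K e (bd K x) :=
    ch_ext (L := bd K ∘ₗ lin K e) (L' := LinearMap.id - ψ - lin K e ∘ₗ bd K) (fun G hG => by
      simp only [LinearMap.comp_apply, lin_bv, (he G hG).2, LinearMap.sub_apply, LinearMap.id_apply,
        neg_smul, one_smul]
      abel) hx
  have hp := congrArg (orient K) (lbd_prisms f (n + 1) (lin K sd x))
  rw [map_add, map_sub, ← bd_orient, bd_sd x hx] at hp
  refine ⟨lin K e x - orient K (prisms K f (n + 1) (lin K sd x)),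
    Submodule.sub_mem _ (e_mem l1 subset_rfl x hx)
      (prism_mem l1 subset_rfl (fun x t _ => hmem _) x hx), ?_⟩
  have hfin : x - bd K (lin K e x - orient K (prisms K f (n + 1) (lin K sd x))) =
      (lin K e (bd K x) - orient K (prisms K f (n + 1) (lin K sd (bd K x)))) +
        orient K (lmap K (f (n + 1)) (lin K sd x)) := by
    rw [map_sub, hom, eq_sub_of_add_eq hp]
    simp only [hψ, LinearMap.comp_apply]
    abel
  rw [hfin]
  exact Submodule.add_mem_sup
    (Submodule.sub_mem _ (e_mem l2 h21 _ hD) (prism_mem l2 h21 h2 _ hD)) (end_mem x hx)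

/-- A pair which deforms into the subcomplex is acyclic. -/
theorem ex_of_deformation [Nonempty V] {S₁ S₂ : Set (Finset V)} (l1 : IsLowerSet S₁)
    (l2 : IsLowerSet S₂) (h21 : S₂ ⊆ S₁) (e2 : ∅ ∈ S₂)
    (H : rl S₁ × I → (V → ℝ)) (hc : Continuous H) (hmem : ∀ p, H p ∈ rl S₁)
    (h0 : ∀ x, supp (H (x, 0)) ⊆ supp x.1)
    (h2 : ∀ x t, x.1 ∈ rl S₂ → H (x, t) ∈ rl S₂) (h3 : ∀ x, H (x, 1) ∈ rl S₂) (n : ℕ) :
    (simpDG K K V).Ex (ch K S₁) (ch K S₂) n :=
  ex_of_ungraded (fun x hx hD => by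
    simpa using hi_core l1 l2 l2 h21 e2 H hc hmem h0 h2 h3 hx hD) n

/-- A complex with contractible realization is acyclic. -/
theorem ex_of_contraction {S : Set (Finset V)} (l : IsLowerSet S) {p : V → ℝ} (hp : p ∈ rl S)
    (H : rl S × I → (V → ℝ)) (hc : Continuous H) (hmem : ∀ q, H q ∈ rl S)
    (h0 : ∀ x, supp (H (x, 0)) ⊆ supp x.1) (h1 : ∀ x, H (x, 1) = p) (n : ℕ) :
    (simpDG K K V).Ex (ch K S) ⊥ n := by
  obtain ⟨hp1, hp2⟩ := (mem_rl l).1 hp
  obtain ⟨v, hv⟩ := supp_nonempty hp1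
  have : Nonempty V := ⟨v⟩
  rw [← ch_empty]
  refine ex_of_ungraded (fun x hx hD => ?_) n
  obtain ⟨y, hy, hb⟩ := hi_core l isLowerSet_empty (isLowerSet_Iic (supp p)) (Set.empty_subset _)
    (Set.mem_Iic.2 (empty_subset _)) H hc hmem h0 (fun x t hx => by simp [rl] at hx)
    (fun x => by rw [h1, mem_rl (isLowerSet_Iic _)]; exact ⟨hp1, Set.mem_Iic.2 le_rfl⟩) hx hD
  rw [ch_empty, bot_sup_eq] at hb
  rw [ch_empty, Submodule.mem_bot] at hD
  refine ⟨y + cre K v (x - bd K y), Submodule.add_mem _ hy (ch_mono (fun F hF => l hF hp2)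
    (cre_mem_ch (T := Set.Iic (supp p)) hb fun H hH _ => insert_subset hv hH)), ?_⟩
  rw [map_add, bd_cre, map_sub, hD, bd_bd]
  simp

end Pool.Agent.Lib.MP_21db46_co
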