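import Pool.Agent.Lib.MP_21db46_co.Carrier

/-! Graded pieces of polynomial rings and exactness of Koszul complexes of linear forms. -/

namespace Pool.Agent.Lib.MP_21db46_co

open Finset MvPolynomial

section Koszul

variable {R : Type*} [CommRing R] {κ : Type*} [LinearOrder κ] [Fintype κ] (w : κ → R)

/-- exactness of the Koszul complex on the elements indexed by `Y`, in degree `a` -/
def KE (Y : Finset κ) (a : ℕ) : Prop :=
  ∀ c : Finset κ → R, c ∈ ch R {A | A ⊆ Y ∧ A.card = a} → wbd R w c = 0 →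
    ∃ e ∈ ch R {A | A ⊆ Y ∧ A.card = a + 1}, wbd R w e = c

variable {w}

omit [Fintype κ] in
theorem ann_mem_of_insert {Y : Finset κ} {x : κ} {a : ℕ} {c : Finset κ → R}
    (hc : c ∈ ch R {A | A ⊆ insert x Y ∧ A.card = a + 1}) :
    ann R x c ∈ ch R {A | A ⊆ Y ∧ A.card = a} :=
  ann_mem_ch hc fun H hx h => ⟨(subset_insert_iff_of_notMem hx).1 ((subset_insert x H).trans h.1),
    by have := h.2; rw [card_insert_of_notMem hx] at this; omega⟩

theorem KE.cone {Y : Finset κ} {x : κ} {a : ℕ} (h1 : KE w Y (a + 1))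
    (h2 : ∀ c : Finset κ → R, c ∈ ch R {A | A ⊆ insert x Y ∧ A.card = a + 1} → wbd R w c = 0 →
      ∃ e ∈ ch R {A | A ⊆ Y ∧ A.card = a + 1}, wbd R w e = ann R x c) :
    KE w (insert x Y) (a + 1) := by
  intro c hc hD
  obtain ⟨e₁, he₁, hb₁⟩ := h2 c hc hD
  have hc0 : ann R x (cre R x c) ∈ ch R {A | A ⊆ Y ∧ A.card = a + 1} :=
    ann_mem_of_insert (cre_mem_ch hc fun H hH hx =>
      ⟨insert_subset (mem_insert_self x Y) hH.1, by rw [card_insert_of_notMem hx, hH.2]⟩)
  have key : c + wbd R w (cre R x e₁) = ann R x (cre R x c) + w x • e₁ := by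
    rw [wbd_cre, hb₁]
    conv_lhs => rw [← ann_cre_self R x c]
    rw [ann_cre_self]; nth_rewrite 1 [← ann_cre_self R x c]; abel
  obtain ⟨e₀, he₀, hb₀⟩ := h1 _ (Submodule.add_mem _ hc0 (Submodule.smul_mem _ (w x) he₁))
    (by rw [← key, map_add, hD, wbd_wbd, add_zero])
  refine ⟨e₀ - cre R x e₁, Submodule.sub_mem _
    (ch_mono (fun A hA => by exact ⟨hA.1.trans (subset_insert x Y), hA.2⟩) he₀)
    (cre_mem_ch he₁ fun H hH hx => ⟨insert_subset_insert x hH.1, by
      rw [card_insert_of_notMem hx, hH.2]⟩), ?_⟩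
  rw [map_sub, hb₀, ← key]; abel

theorem KE.insert {Y : Finset κ} (x : κ) {a : ℕ} (h1 : KE w Y (a + 1)) (h0 : KE w Y a) :
    KE w (insert x Y) (a + 1) :=
  h1.cone fun c hc hD => h0 _ (ann_mem_of_insert hc) (by
    rw [← neg_eq_zero, ← ann_wbd, hD, map_zero])

theorem wbd_apply_empty (c : Finset κ → R) : wbd R w c ∅ = ∑ v, w v * c {v} := by
  rw [wbd_apply_apply]; simp [sgn]

theorem KE.insert_one {Y : Finset κ} {x : κ} (hx : x ∉ Y) (h1 : KE w Y 1)
    (hreg : ∀ f, w x * f ∈ Ideal.span (w '' Y) → f ∈ Ideal.span (w '' Y)) :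
    KE w (Insert.insert x Y) 1 := by
  refine h1.cone fun c hc hD => ?_
  have h2 : w x * c {x} ∈ Ideal.span (w '' Y) := by
    have h3 := congrFun hD ∅
    rw [wbd_apply_empty, Pi.zero_apply, ← Finset.add_sum_erase _ _ (mem_univ x)] at h3
    rw [eq_neg_of_add_eq_zero_left h3]
    refine neg_mem (Ideal.sum_mem _ fun v hv => ?_)
    by_cases hvY : v ∈ Y
    · exact Ideal.mul_mem_right _ _ (Ideal.subset_span ⟨v, hvY, rfl⟩)
    · rw [hc {v} fun h => by
        have := h.1 (mem_singleton_self v)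
        simp [hvY, ne_of_mem_erase hv] at this, mul_zero]
      exact Ideal.zero_mem _
  obtain ⟨a, ha⟩ := (Submodule.mem_span_image_finset_iff_exists_fun' R).1 (hreg _ h2)
  have he : (∑ y ∈ Y, Pi.single {y} (a y) : Finset κ → R) ∈ ch R {A | A ⊆ Y ∧ A.card = 0 + 1} :=
    Submodule.sum_mem _ fun y hy => single_mem_ch (by simpa using hy) _
  refine ⟨_, he, ?_⟩
  ext H
  by_cases hH : H = ∅
  · subst hH
    rw [wbd_apply_empty, ann_apply, if_neg (notMem_empty x)]
    simp only [sgn, filter_empty, card_empty, pow_zero, insert_empty_eq, one_smul, ← ha,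
      Finset.sum_apply, Pi.single_apply, singleton_inj, sum_ite_eq, mul_ite, mul_zero,
      sum_ite_mem, univ_inter, smul_eq_mul, mul_comm]
  · rw [ann_mem_of_insert hc H (by simp [hH])]
    exact wbd_mem_ch (T := {A | A.card = 0}) w he (fun H v hv h => by
      have := h.2; rw [card_insert_of_notMem hv] at this
      simpa using this) H (by simpa using hH)

theorem KE.empty {a : ℕ} (ha : 0 < a) : KE w ∅ a := fun c hc _ =>
  ⟨0, Submodule.zero_mem _, by
    ext H
    rw [hc H fun h => by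
      have h1 := h.2; rw [subset_empty.1 h.1] at h1; simp at h1; omega]
    simp⟩

theorem KE.of_regular {B : Finset κ}
    (hreg : ∀ Y ⊆ B, ∀ x ∈ B, x ∉ Y → ∀ f, w x * f ∈ Ideal.span (w '' Y) →
      f ∈ Ideal.span (w '' Y)) {a : ℕ} (ha : Fintype.card κ < a + B.card) : KE w univ a := by
  have h1 : ∀ Y : Finset κ, Y ⊆ B → ∀ a, 0 < a → KE w Y a := by
    intro Y
    induction Y using Finset.induction_on with
    | empty => exact fun _ a ha => KE.empty ha
    | insert x Y hx ih =>
      intro hY a ha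
      have hY' := (subset_insert x Y).trans hY
      obtain _ | _ | a := a
      · omega
      · exact (ih hY' 1 one_pos).insert_one hx (hreg Y hY' x (hY (mem_insert_self x Y)) hx)
      · exact (ih hY' _ (by omega)).insert x (ih hY' _ (by omega))
  have h2 : ∀ Z : Finset κ, ∀ a, Z.card < a → KE w (Z ∪ B) a := by
    intro Z
    induction Z using Finset.induction_on with
    | empty => intro a ha; simpa using h1 B subset_rfl a (by simpa using ha)
    | insert x Z hx ih =>
      intro a ha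
      rw [card_insert_of_notMem hx] at ha
      obtain _ | a := a
      · omega
      · rw [insert_union]
        exact (ih _ (by omega)).insert x (ih _ (by omega))
  have := h2 Bᶜ a (by rw [card_compl]; have := card_le_univ B; omega)
  rwa [union_comm, union_compl] at this

end Koszul

section Poly

variable (K : Type*) [Field K] {ν : Type*} [DecidableEq ν]

/-- homogeneous polynomials of degree `s` in the variables of `S` -/
noncomputable def PA (S : Finset ν) (s : ℕ) : Submodule K (MvPolynomial ν K) :=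
  restrictSupport K (S.finsuppAntidiag s : Set (ν →₀ ℕ))

instance (S : Finset ν) (s : ℕ) : FiniteDimensional K (PA K S s) :=
  Module.Finite.of_basis (basisRestrictSupport K (S.finsuppAntidiag s : Set (ν →₀ ℕ)))

theorem finrank_PA (S : Finset ν) (s : ℕ) : Module.finrank K (PA K S s) = S.card.multichoose s := by
  rw [← card_finsuppAntidiag_nat_eq_multichoose, PA, Module.finrank_eq_card_basis
    (basisRestrictSupport K (S.finsuppAntidiag s : Set (ν →₀ ℕ)))]
  simp

variable {K}

theorem mem_PA {S : Finset ν} {s : ℕ} {f : MvPolynomial ν K} :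
    f ∈ PA K S s ↔ ∀ μ, coeff μ f ≠ 0 → μ.degree = s ∧ μ.support ⊆ S := by
  rw [PA, mem_restrictSupport_iff]
  refine forall_congr' fun μ => ?_
  rw [mem_coe, mem_support_iff, mem_coe, mem_finsuppAntidiag']
  rfl

attribute [irreducible] PA

theorem mem_PA_iff {S : Finset ν} {s : ℕ} {f : MvPolynomial ν K} :
    f ∈ PA K S s ↔ f.IsHomogeneous s ∧ f ∈ supported K (S : Set ν) := by
  rw [mem_PA, mem_supported]
  refine ⟨fun h => ⟨fun μ hμ => ?_, fun v hv => ?_⟩, fun h μ hμ => ⟨?_, fun v hv => ?_⟩⟩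
  · rw [← (h μ hμ).1, Finsupp.degree_eq_weight_one]; rfl
  · obtain ⟨μ, h1, h2⟩ := (mem_vars_iff_mem_support v).1 hv
    exact (h μ (mem_support_iff.1 h1)).2 h2
  · by_contra h'; exact hμ (h.1.coeff_eq_zero h')
  · exact h.2 ((mem_vars_iff_mem_support v).2 ⟨μ, mem_support_iff.2 hμ, hv⟩)

theorem PA_mono {S T : Finset ν} (h : S ⊆ T) (s : ℕ) : PA K S s ≤ PA K T s := fun _ hf =>
  mem_PA.2 fun μ hμ => ⟨(mem_PA.1 hf μ hμ).1, (mem_PA.1 hf μ hμ).2.trans h⟩

theorem PA_zero_le (S T : Finset ν) : PA K S 0 ≤ PA K T 0 := fun _ hf =>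
  mem_PA.2 fun μ hμ => by
    have h := (mem_PA.1 hf μ hμ).1
    refine ⟨h, ?_⟩
    rw [Finsupp.degree_eq_zero_iff] at h
    simp [h]

theorem mul_mem_PA {S : Finset ν} {s t : ℕ} {f g : MvPolynomial ν K} (hf : f ∈ PA K S s)
    (hg : g ∈ PA K S t) : f * g ∈ PA K S (s + t) := by
  rw [mem_PA_iff] at *
  exact ⟨hf.1.mul hg.1, mul_mem hf.2 hg.2⟩

theorem X_mem_PA {S : Finset ν} {y : ν} (hy : y ∈ S) : (X y : MvPolynomial ν K) ∈ PA K S 1 :=
  mem_PA_iff.2 ⟨isHomogeneous_X K y, X_mem_supported.2 hy⟩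

omit [DecidableEq ν] in
theorem algHom_eq_of_supported {A : Type*} [CommRing A] [Algebra K A] {S : Set ν}
    {φ ψ : MvPolynomial ν K →ₐ[K] A} (h : ∀ x ∈ S, φ (X x) = ψ (X x)) {f : MvPolynomial ν K}
    (hf : f ∈ supported K S) : φ f = ψ f := by
  rw [supported_eq_adjoin_X] at hf
  refine AlgHom.eqOn_adjoin_iff.2 ?_ hf
  rintro _ ⟨x, hx, rfl⟩
  exact h x hx

theorem aeval_mem_PA {T : Finset ν} {s : ℕ} {p : ν → MvPolynomial ν K}
    (hp : ∀ x, p x ∈ PA K T 1) {f : MvPolynomial ν K} (hf : f.IsHomogeneous s) :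
    aeval p f ∈ PA K T s := by
  refine mem_PA_iff.2 ⟨by simpa using hf.aeval p fun x => (mem_PA_iff.1 (hp x)).1, ?_⟩
  clear hf
  induction f using MvPolynomial.induction_on with
  | C a => rw [aeval_C]; exact Subalgebra.algebraMap_mem _ a
  | add f g h1 h2 => rw [map_add]; exact add_mem h1 h2
  | mul_X f x h => rw [map_mul, aeval_X]; exact mul_mem h (mem_PA_iff.1 (hp x)).2

variable (K) in
/-- set the variables outside `S` to zero -/
noncomputable def kill (S : Finset ν) : MvPolynomial ν K →ₐ[K] MvPolynomial ν K :=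
  aeval fun x => if x ∈ S then X x else 0

theorem kill_X (S : Finset ν) (x : ν) : kill K S (X x) = if x ∈ S then X x else 0 := by
  simp [kill]

theorem kill_of_mem {S : Finset ν} {s : ℕ} {f : MvPolynomial ν K} (hf : f ∈ PA K S s) :
    kill K S f = f :=
  algHom_eq_of_supported (ψ := AlgHom.id K _) (fun x hx => by
    rw [kill_X, if_pos (mem_coe.1 hx)]; rfl) (mem_PA_iff.1 hf).2

theorem kill_mem_PA (S : Finset ν) {s : ℕ} {f : MvPolynomial ν K} (hf : f.IsHomogeneous s) :
    kill K S f ∈ PA K S s :=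
  aeval_mem_PA (fun x => by
    split_ifs with h
    exacts [X_mem_PA h, Submodule.zero_mem _]) hf

theorem coeff_kill (S : Finset ν) (μ : ν →₀ ℕ) (f : MvPolynomial ν K) :
    coeff μ (kill K S f) = if μ.support ⊆ S then coeff μ f else 0 := by
  induction f using MvPolynomial.induction_on' with
  | add f g h1 h2 => rw [map_add, coeff_add, h1, h2, coeff_add]; split_ifs <;> simp
  | monomial μ' a =>
    by_cases h : μ'.support ⊆ S
    · rw [kill_of_mem (s := μ'.degree) (mem_PA.2 fun μ'' h' => by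
        rw [coeff_monomial] at h'
        obtain rfl : μ' = μ'' := by by_contra h''; exact h' (if_neg h'')
        exact ⟨rfl, h⟩)]
      split_ifs with h'
      · rfl
      · rw [coeff_monomial, if_neg]; rintro rfl; exact h' h
    · obtain ⟨x, hx, hxS⟩ := not_subset.1 h
      rw [kill, aeval_monomial, Finsupp.prod, Finset.prod_eq_zero hx (by
        rw [if_neg hxS, zero_pow (Finsupp.mem_support_iff.1 hx)]), mul_zero, coeff_zero]
      split_ifs with h'
      · rw [coeff_monomial, if_neg]; rintro rfl; exact h h'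
      · rfl

omit [DecidableEq ν] in
theorem hc_mul {θ : MvPolynomial ν K} (hθ : θ.IsHomogeneous 1) (n : ℕ) (f : MvPolynomial ν K) :
    homogeneousComponent n (θ * f) =
      if 1 ≤ n then θ * homogeneousComponent (n - 1) f else 0 := by
  classical
  letI := MvPolynomial.gradedAlgebra (σ := ν) (R := K)
  have h := DirectSum.coe_decompose_mul_of_left_mem (homogeneousSubmodule ν K) (b := f) n
    ((mem_homogeneousSubmodule 1 θ).2 hθ)
  have h' : ∀ (g : MvPolynomial ν K) (i : ℕ),
      (DirectSum.decompose (homogeneousSubmodule ν K) g i : MvPolynomial ν K) =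
        homogeneousComponent i g := fun g i => decomposition.decompose'_apply g i
  rwa [h', h'] at h

omit [DecidableEq ν] in
/-- Linearly independent linear forms are a regular sequence. -/
theorem regular_of_linearIndepOn {κ : Type*} [DecidableEq κ] {w : κ → MvPolynomial ν K}
    (hw : ∀ r, (w r).IsHomogeneous 1) {B : Finset κ} (hB : LinearIndepOn K w B)
    (Y : Finset κ) (hY : Y ⊆ B) (x : κ) (hx : x ∈ B) (hxY : x ∉ Y) (f : MvPolynomial ν K)
    (hf : w x * f ∈ Ideal.span (w '' Y)) : f ∈ Ideal.span (w '' Y) := by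
  obtain ⟨g, hg⟩ := LinearMap.exists_leftInverse_of_injective
    (Finsupp.linearCombination K fun b : (B : Set κ) => w b) (LinearMap.ker_eq_bot.2 hB)
  have hg' : ∀ b (hb : b ∈ B), g (w b) = Finsupp.single ⟨b, hb⟩ 1 := fun b hb => by
    simpa using LinearMap.congr_fun hg (Finsupp.single ⟨b, hb⟩ 1)
  let p : MvPolynomial ν K →ₗ[K] MvPolynomial ν K :=
    Finsupp.linearCombination K (fun b : (B : Set κ) => if b.1 ∈ Y then w b else 0) ∘ₗ g
  have hp : ∀ f, p f ∈ Ideal.span (w '' Y) := fun f => by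
    simp only [p, LinearMap.comp_apply, Finsupp.linearCombination_apply, Finsupp.sum]
    refine Ideal.sum_mem _ fun b _ => ?_
    split_ifs with h
    · rw [smul_eq_C_mul]
      exact Ideal.mul_mem_left _ _ (Ideal.subset_span ⟨b, h, rfl⟩)
    · simp
  let Ξ : MvPolynomial ν K →ₐ[K] MvPolynomial ν K := aeval fun y => X y - p (X y)
  have h1 : ∀ θ : MvPolynomial ν K, θ.IsHomogeneous 1 → Ξ θ = θ - p θ := fun θ hθ => by
    have : θ ∈ Submodule.span K (Set.range X) := by
      rw [← homogeneousSubmodule_one_eq_span_X]; exact hθ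
    refine LinearMap.eqOn_span' (f := Ξ.toLinearMap) (g := LinearMap.id - p) ?_ this
    rintro _ ⟨y, rfl⟩
    simp [Ξ]
  have h2 : ∀ f, f - Ξ f ∈ Ideal.span (w '' Y) := fun f => by
    induction f using MvPolynomial.induction_on with
    | C a => simp [Ξ]
    | add f g h1 h2 =>
      rw [map_add, add_sub_add_comm]; exact add_mem h1 h2
    | mul_X f y h =>
      have : f * X y - Ξ (f * X y) = (f - Ξ f) * X y + Ξ f * p (X y) := by
        rw [map_mul, h1 _ (isHomogeneous_X K y)]; ring
      rw [this]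
      exact add_mem (Ideal.mul_mem_right _ _ h) (Ideal.mul_mem_left _ _ (hp _))
  have h3 : Ideal.span (w '' Y) ≤ RingHom.ker Ξ := by
    rw [Ideal.span_le]
    rintro _ ⟨b, hb, rfl⟩
    have hb' : b ∈ Y := hb
    simp [RingHom.mem_ker, h1 _ (hw b), p, hg' b (hY hb), hb']
  have h4 : Ξ (w x) = w x := by simp [h1 _ (hw x), p, hg' x hx, hxY]
  have h5 := h3 hf
  rw [RingHom.mem_ker, map_mul, h4] at h5
  have h6 := (mul_eq_zero.1 h5).resolve_left (hB.ne_zero hx)
  simpa [h6] using h2 f

/-- Graded exactness of the Koszul complex of a spanning family of linear forms. -/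
theorem koszul_exact {κ : Type*} [LinearOrder κ] [Fintype κ] {S : Finset ν}
    {w : κ → MvPolynomial ν K} (hw : ∀ r, w r ∈ PA K S 1)
    (hspan : ∀ y ∈ S, X y ∈ Submodule.span K (Set.range w)) {a : ℕ}
    (ha : Fintype.card κ < a + S.card) {s : ℕ} (c : Finset κ → MvPolynomial ν K)
    (hc : ∀ A, c A ≠ 0 → A.card = a) (hcs : ∀ A, c A ∈ PA K S s)
    (hD : wbd (MvPolynomial ν K) w c = 0) :
    ∃ e : Finset κ → MvPolynomial ν K, (∀ A, e A ≠ 0 → A.card = a + 1 ∧ 1 ≤ s) ∧
      (∀ A, e A ∈ PA K S (s - 1)) ∧ wbd (MvPolynomial ν K) w e = c := by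
  classical
  obtain ⟨b, -, -, hb1, hb2⟩ := exists_linearIndepOn_extension (K := K) (v := w)
    (linearIndepOn_empty K w) (Set.empty_subset Set.univ)
  lift b to Finset κ using Set.toFinite b
  have hcard : S.card ≤ b.card := by
    have h1 := linearIndependent_le_span_aux' (R := K)
      (fun y : S => (X y.1 : MvPolynomial ν K))
      ((linearIndependent_X ν K).comp _ Subtype.val_injective) (b.image w : Set _) (by
        rintro _ ⟨y, rfl⟩
        rw [coe_image]
        refine Submodule.span_le.2 ?_ (hspan y y.2)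
        rwa [← Set.image_univ])
    simp only [Fintype.card_coe, coe_sort_coe] at h1
    exact h1.trans card_image_le
  have hw1 : ∀ r, (w r).IsHomogeneous 1 := fun r => (mem_PA_iff.1 (hw r)).1
  obtain ⟨e, he, hb⟩ := KE.of_regular (regular_of_linearIndepOn hw1 hb2) (a := a) (by omega) c
    (mem_ch'.2 fun A hA => ⟨subset_univ A, hc A hA⟩) hD
  refine ⟨fun A => if 1 ≤ s then kill K S (homogeneousComponent (s - 1) (e A)) else 0,
    fun A hA => ?_, fun A => ?_, ?_⟩
  · by_cases hs : 1 ≤ s
    · refine ⟨(mem_ch'.1 he A fun h => hA ?_).2, hs⟩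
      simp [h]
    · simp [hs] at hA
  · split_ifs
    · exact kill_mem_PA S (homogeneousComponent_isHomogeneous _ _)
    · exact Submodule.zero_mem _
  · ext1 A
    have h1 : c A = kill K S (homogeneousComponent s (c A)) := by
      rw [homogeneousComponent_eq_self (mem_PA_iff.1 (hcs A)).1, kill_of_mem (hcs A)]
    rw [h1, ← hb, wbd_apply_apply, wbd_apply_apply, map_sum, map_sum]
    refine Finset.sum_congr rfl fun v _ => ?_
    rw [map_zsmul, map_zsmul, smul_eq_mul, smul_eq_mul, hc_mul (hw1 v)]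
    split_ifs
    · rw [map_mul, kill_of_mem (hw v)]
    · simp

end Poly

end Pool.Agent.Lib.MP_21db46_co
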