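import Pool.Agent.Lib.MP_21db46_co.Defs
import Pool.Agent.Lib.MP_21db46_co.Subdiv

/-! From links to stars, change of coefficients, local exactness of Buchsbaum complexes. -/

namespace Pool.Agent.Lib.MP_21db46_co

open Finset

variable {K : Type*} [Field K] {V : Type*} [LinearOrder V] [Fintype V]
variable {M : Type*} [AddCommGroup M] [Module K M]

theorem exS_of_link_vertex {S : Set (Finset V)} {v : V} (hv : ∀ H ∈ S, v ∈ H) {n : ℕ}
    (h : ExS K M {H | v ∉ H ∧ insert v H ∈ S} n) : ExS K M S (n + 1) := by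
  intro c hc hcn hD
  obtain ⟨e, he, hen, hb⟩ := h (ann K v c) (ann_mem_ch hc fun H h1 h2 => ⟨h1, h2⟩)
    (ann_mem_ch hcn fun H h1 h2 => by
      simp only [Set.mem_ofPred_eq, card_insert_of_notMem h1] at h2 ⊢; omega)
    (fun H hH => by
      have := congrFun (ann_wbd K (fun _ => (1 : K)) v c) H
      rw [ann_apply, if_neg hH.1, Pi.neg_apply] at this
      have h3 := hD _ hH.2
      rw [bd] at h3 ⊢
      rw [h3, smul_zero] at this
      exact neg_eq_zero.1 this.symm)
  refine ⟨-cre K v e, Submodule.neg_mem _ (cre_mem_ch he fun H hH _ => hH.2),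
    Submodule.neg_mem _ (cre_mem_ch hen fun H hH h1 => by
      simp only [Set.mem_ofPred_eq, card_insert_of_notMem h1] at hH ⊢; omega), fun H hH => ?_⟩
  have h1 := hv H hH
  rw [map_neg, bd_cre, Pi.neg_apply, Pi.sub_apply, he H fun h' => h'.1 h1, cre_apply, if_pos h1,
    hb (H.erase v) ⟨notMem_erase v H, by rwa [insert_erase h1]⟩, ann_apply,
    if_neg (notMem_erase v H), insert_erase h1, sgn_erase_self, smul_smul, sgn_mul_self]
  simp

theorem exS_of_link (τ : Finset V) : ∀ {S : Set (Finset V)} (_ : ∀ H ∈ S, τ ⊆ H) {n : ℕ}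
    (_ : ExS K M {H | Disjoint H τ ∧ H ∪ τ ∈ S} n), ExS K M S (n + τ.card) := by
  induction τ using Finset.induction_on with
  | empty => intro S _ n h; simpa using h
  | insert v τ hv ih =>
    intro S hS n h
    rw [card_insert_of_notMem hv, ← add_assoc]
    refine exS_of_link_vertex (v := v) (fun H hH => hS H hH (mem_insert_self v τ))
      (ih (fun H hH x hx => ?_) ?_)
    · have := hS _ hH.2 (mem_insert_of_mem hx)
      rcases mem_insert.1 this with rfl | h'
      exacts [absurd hx hv, h']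
    · have : {H | Disjoint H τ ∧ H ∪ τ ∈ {H | v ∉ H ∧ insert v H ∈ S}} =
          {H | Disjoint H (insert v τ) ∧ H ∪ insert v τ ∈ S} := by
        ext H
        simp only [Set.mem_ofPred_eq, disjoint_insert_right, mem_union, union_insert]
        tauto
      rwa [this]

theorem bd_comp {M' : Type*} [AddCommGroup M'] [Module K M'] (ψ : M →ₗ[K] M')
    (c : Finset V → M) (H : Finset V) : bd K (fun G => ψ (c G)) H = ψ (bd K c H) := by
  simp only [bd_apply, map_sum, map_zsmul]

/-- Exactness coordinate by coordinate. -/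
theorem exS_basis {ι : Type*} (b : Module.Basis ι K M) (S : ι → Set (Finset V)) {n : ℕ}
    (h : ∀ i, ExS K K (S i) n) (c : Finset V → M)
    (hc : ∀ i G, b.repr (c G) i ≠ 0 → G ∈ S i) (hcn : c ∈ ch K {H | H.card = n})
    (hD : ∀ i, ∀ H ∈ S i, b.repr (bd K c H) i = 0) :
    ∃ e : Finset V → M, (∀ i G, b.repr (e G) i ≠ 0 → G ∈ S i) ∧
      e ∈ ch K {H | H.card = n + 1} ∧ ∀ i, ∀ H ∈ S i, b.repr (bd K e H) i = b.repr (c H) i := by
  classical
  choose e he hen hb using fun i => h i (fun G => b.coord i (c G)) (mem_ch'.2 (hc i))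
    (fun G hG => by simp only [hcn G hG, map_zero]) (fun H hH => by rw [bd_comp]; exact hD i H hH)
  let I : Finset ι := univ.biUnion fun G => (b.repr (c G)).support
  have key : ∀ i G, b.coord i (∑ l ∈ I, e l G • b l) = if i ∈ I then e i G else 0 := by
    intro i G
    simp [Finsupp.single_apply]
  refine ⟨fun G => ∑ l ∈ I, e l G • b l, fun i G hG => ?_, fun G hG => ?_, fun i H hH => ?_⟩
  · have := key i G
    rw [Module.Basis.coord_apply] at this
    rw [this] at hG
    split_ifs at hG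
    exacts [mem_ch'.1 (he i) G hG, absurd rfl hG]
  · exact sum_eq_zero fun l _ => by rw [hen l G hG, zero_smul]
  · rw [← Module.Basis.coord_apply, ← bd_comp]
    simp only [key]
    split_ifs with hi
    · exact hb i H hH
    · have : b.repr (c H) i = 0 := by
        by_contra h'
        exact hi (mem_biUnion.2 ⟨H, mem_univ H, Finsupp.mem_support_iff.2 h'⟩)
      rw [this]
      exact congrFun (map_zero (bd K : (Finset V → K) →ₗ[K] _)) H

theorem ExS.extend {k : Type*} [Field k] [Algebra k K] {S : Set (Finset V)} {n : ℕ}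
    (h : ExS k k S n) : ExS K K S n := by
  intro c hc hcn hD
  have hbd : ∀ c : Finset V → K, bd K c = bd k c := fun c => by
    ext H; rw [bd_apply, bd_apply]
  let b := Module.Basis.ofVectorSpace k K
  obtain ⟨e, he, hen, hb⟩ := exS_basis b (fun _ => S) (fun _ => h) c
    (fun i G hG => mem_ch'.1 hc G fun h0 => hG (by simp [h0])) hcn
    (fun i H hH => by rw [← hbd, hD H hH]; simp)
  refine ⟨e, fun G hG => ?_, hen, fun H hH => ?_⟩
  · refine b.repr.injective (Finsupp.ext fun i => ?_)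
    by_contra h'
    exact hG (he i G (by simpa using h'))
  · rw [hbd]
    exact b.repr.injective (Finsupp.ext fun i => hb i H hH)

theorem boundary_eq_bd (c : Finset V → K) : boundary K c = bd K c := by
  ext H
  simp [boundary, bd_apply, sgn]

theorem exS_of_vanishes {Δ : Finset (Finset V)} (l : IsLowerSet (Δ : Set (Finset V))) {m : ℕ}
    (h : HomologyVanishes K Δ m) : ExS K K (Δ : Set (Finset V)) m := by
  intro c hc hcn hD
  obtain ⟨e, he, hb⟩ := h c (fun G hG => ⟨mem_ch'.1 hc G hG, mem_ch'.1 hcn G hG⟩) (by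
    rw [boundary_eq_bd]
    ext H
    by_cases hH : H ∈ Δ
    · exact hD H hH
    · exact sub_of_lower (K := K) (M := K) l c hc H hH)
  exact ⟨e, mem_ch'.2 fun G hG => (he G hG).1, mem_ch'.2 fun G hG => (he G hG).2,
    fun H _ => by rw [← boundary_eq_bd, hb]⟩

variable (K) in
/-- local exactness below the top degree -/
def LocEx (Γ : Set (Finset V)) (d : ℕ) : Prop :=
  ∀ τ : Finset V, τ.Nonempty → ∀ m < d, ExS K K {F | F ∈ Γ ∧ τ ⊆ F} m

omit [Fintype V] in
theorem exS_of_empty [Fintype V] {S : Set (Finset V)} {n : ℕ} (h : ∀ H ∈ S, H.card ≠ n) :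
    ExS K M S n := fun c hc hcn _ =>
  ⟨0, Submodule.zero_mem _, Submodule.zero_mem _, fun H hH => by
    rw [hcn H (h H hH)]; simp⟩

theorem locEx_of_buchsbaum {k : Type*} [Field k] [Algebra k K] {Δ : Finset (Finset V)}
    (hΔ : IsComplex Δ) (h : IsBuchsbaum k Δ) : LocEx K (Δ : Set (Finset V)) (rk Δ) := by
  intro τ hτ m hm
  refine ExS.extend (k := k) ?_
  by_cases hτΔ : τ ∈ Δ
  swap
  · exact exS_of_empty fun H hH => absurd (hΔ.2 H hH.1 τ hH.2) hτΔ
  by_cases hle : τ.card ≤ m
  swap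
  · exact exS_of_empty fun H hH => by have := card_le_card hH.2; omega
  obtain ⟨n, rfl⟩ := Nat.exists_eq_add_of_le' hle
  refine exS_of_link τ (fun H hH => hH.2) ?_
  have h1 : {H | Disjoint H τ ∧ H ∪ τ ∈ {F | F ∈ (Δ : Set (Finset V)) ∧ τ ⊆ F}} =
      (link Δ τ : Set (Finset V)) := by
    ext H
    simp only [Set.mem_ofPred_eq, link, mem_coe, mem_filter, subset_union_right, and_true]
    exact ⟨fun h' => ⟨hΔ.2 _ h'.2 H subset_union_left, h'⟩, fun h' => h'.2⟩
  have h2 : link (link Δ τ) ∅ = link Δ τ := by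
    ext H; simp [link]
  rw [h1]
  refine exS_of_vanishes (fun F G hle hF => ?_) ?_
  · simp only [link, mem_coe, mem_filter] at hF ⊢
    exact ⟨hΔ.2 _ hF.1 G hle, hF.2.1.mono_left hle, hΔ.2 _ hF.2.2 _ (union_subset_union_left hle)⟩
  · have h3 := h.2 τ hτΔ hτ ∅ (by simp [link, hΔ.1, hτΔ]) n
    rw [h2] at h3
    refine h3 ?_
    obtain ⟨G, hG, h4, h5⟩ := h.1 τ hτΔ
    have h6 : (G \ τ).card ≤ rk (link Δ τ) := le_sup (f := card) (by
      simp only [link, mem_filter]
      exact ⟨hΔ.2 G hG _ sdiff_subset, sdiff_disjoint, by rwa [sdiff_union_of_subset h4]⟩)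
    rw [card_sdiff_of_subset h4] at h6
    omega

theorem Transfer.locEx {W : Type*} [LinearOrder W] [Fintype W] {Δ : Set (Finset V)}
    {Δ' : Set (Finset W)} {σ : Finset W → Finset V} {lam : W → V} (T : Transfer K Δ Δ' σ lam)
    (h : HSub K Δ Δ' σ) {d : ℕ} (hl : LocEx K Δ d) : LocEx K Δ' d := by
  intro G hG m hm
  by_cases hGΔ : G ∈ Δ'
  · exact T.exS_star h hGΔ (hl _ (nonempty_iff_ne_empty.2 fun h0 =>
      hG.ne_empty (h.eq_empty G hGΔ h0)) m hm)
  · exact exS_of_empty fun H hH => absurd (h.low' hH.2 hH.1) hGΔ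

end Pool.Agent.Lib.MP_21db46_co
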