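import Pool.Agent.Lib.MP_21db46_co.Carrier

/-! Ordered chains on arbitrary sets, prism operators, small chains in star-shaped sets. -/

namespace Pool.Agent.Lib.MP_21db46_co

open Finsupp

variable (K : Type*) [Field K] {X Y : Type*}

/-- prepend a point -/
noncomputable def lcons (a : X) : (List X →₀ K) →ₗ[K] (List X →₀ K) :=
  lmapDomain K K (List.cons a)

/-- apply a map to all points -/
noncomputable def lmap (f : X → Y) : (List X →₀ K) →ₗ[K] (List Y →₀ K) :=
  lmapDomain K K (List.map f)

@[simp] theorem lcons_single (a : X) (l : List X) (r : K) :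
    lcons K a (single l r) = single (a :: l) r := by simp [lcons]

@[simp] theorem lmap_single (f : X → Y) (l : List X) (r : K) :
    lmap K f (single l r) = single (l.map f) r := by simp [lmap]

/-- boundary of a list -/
noncomputable def bdl : List X → (List X →₀ K)
  | [] => 0
  | a :: l => single l 1 - lcons K a (bdl l)

/-- boundary of ordered chains -/
noncomputable def lbd : (List X →₀ K) →ₗ[K] (List X →₀ K) := linearCombination K (bdl K)

@[simp] theorem lbd_single (l : List X) : lbd K (single l 1) = bdl K l := by simp [lbd]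

variable {K}

theorem lc_ext {E : Type*} [AddCommGroup E] [Module K E] {L L' : (List X →₀ K) →ₗ[K] E}
    (h : ∀ l, L (single l 1) = L' (single l 1)) (c : List X →₀ K) : L c = L' c := by
  have : L = L' := Finsupp.lhom_ext' fun l => LinearMap.ext_ring (by simpa using h l)
  rw [this]

theorem lc_mem {E : Type*} [AddCommGroup E] [Module K E] {L : (List X →₀ K) →ₗ[K] E}
    {U : Submodule K E} {S : Set (List X)} (h : ∀ l ∈ S, L (single l 1) ∈ U)
    {c : List X →₀ K} (hc : c ∈ supported K K S) : L c ∈ U := by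
  rw [supported_eq_span_single] at hc
  have : Submodule.span K ((fun l => single l (1 : K)) '' S) ≤ U.comap L := by
    rw [Submodule.span_le]
    rintro _ ⟨l, hl, rfl⟩
    exact h l hl
  exact this hc

theorem lbd_lcons (a : X) (c : List X →₀ K) :
    lbd K (lcons K a c) = c - lcons K a (lbd K c) :=
  lc_ext (L := lbd K ∘ₗ lcons K a) (L' := LinearMap.id - lcons K a ∘ₗ lbd K)
    (fun l => by simp [bdl]) c

theorem lbd_lbd (c : List X →₀ K) : lbd K (lbd K c) = 0 :=
  lc_ext (L := lbd K ∘ₗ lbd K) (L' := 0) (fun l => by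
    simp only [LinearMap.comp_apply, lbd_single, LinearMap.zero_apply]
    induction l with
    | nil => simp [bdl]
    | cons a l ih => simp [bdl, lbd_lcons, ih]) c

theorem lmap_lcons (f : X → Y) (a : X) (c : List X →₀ K) :
    lmap K f (lcons K a c) = lcons K (f a) (lmap K f c) :=
  lc_ext (L := lmap K f ∘ₗ lcons K a) (L' := lcons K (f a) ∘ₗ lmap K f) (fun l => by simp) c

theorem lbd_lmap (f : X → Y) (c : List X →₀ K) : lbd K (lmap K f c) = lmap K f (lbd K c) :=
  lc_ext (L := lbd K ∘ₗ lmap K f) (L' := lmap K f ∘ₗ lbd K) (fun l => by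
    simp only [LinearMap.comp_apply, lbd_single, lmap_single]
    induction l with
    | nil => simp [bdl]
    | cons a l ih => simp [bdl, lmap_lcons, ih]) c

variable (K) in
/-- prism over a list -/
noncomputable def prl (f g : X → Y) : List X → (List Y →₀ K)
  | [] => 0
  | y :: l => single (f y :: g y :: l.map g) 1 - lcons K (f y) (prl f g l)

variable (K) in
/-- prism operator -/
noncomputable def prism (f g : X → Y) : (List X →₀ K) →ₗ[K] (List Y →₀ K) :=
  linearCombination K (prl K f g)

@[simp] theorem prism_single (f g : X → Y) (l : List X) :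
    prism K f g (single l 1) = prl K f g l := by simp [prism]

theorem prism_lcons (f g : X → Y) (y : X) (c : List X →₀ K) :
    prism K f g (lcons K y c) =
      lcons K (f y) (lcons K (g y) (lmap K g c)) - lcons K (f y) (prism K f g c) :=
  lc_ext (L := prism K f g ∘ₗ lcons K y)
    (L' := lcons K (f y) ∘ₗ lcons K (g y) ∘ₗ lmap K g - lcons K (f y) ∘ₗ prism K f g)
    (fun l => by simp [prl]) c

theorem lbd_prism (f g : X → Y) (c : List X →₀ K) :
    lbd K (prism K f g c) + prism K f g (lbd K c) = lmap K g c - lmap K f c :=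
  lc_ext (L := lbd K ∘ₗ prism K f g + prism K f g ∘ₗ lbd K) (L' := lmap K g - lmap K f)
    (fun l => by
      simp only [LinearMap.add_apply, LinearMap.comp_apply, LinearMap.sub_apply]
      induction l with
      | nil => simp [bdl, prl]
      | cons a l ih =>
        rw [← lcons_single, prism_lcons, lbd_lcons, map_sub, map_sub, prism_lcons, lbd_lcons,
          lbd_lcons, lbd_lcons, lbd_lmap, lmap_lcons, lmap_lcons,
          eq_sub_of_add_eq ih]
        simp only [map_sub]
        abel) c

variable (K) in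
/-- sum of the prisms of a sequence of maps -/
noncomputable def prisms (f : ℕ → X → Y) (n : ℕ) : (List X →₀ K) →ₗ[K] (List Y →₀ K) :=
  ∑ k ∈ Finset.range n, prism K (f k) (f (k + 1))

theorem lbd_prisms (f : ℕ → X → Y) (n : ℕ) (c : List X →₀ K) :
    lbd K (prisms K f n c) + prisms K f n (lbd K c) = lmap K (f n) c - lmap K (f 0) c := by
  induction n with
  | zero => simp [prisms]
  | succ n ih =>
    have h := lbd_prism (f n) (f (n + 1)) c
    simp only [prisms, Finset.sum_range_succ, LinearMap.add_apply, map_add] at ih ⊢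
    rw [add_add_add_comm, ih, h]; abel

variable (K) in
/-- chains of lists with entries in `A` -/
abbrev inS (A : Set X) : Submodule K (List X →₀ K) := supported K K {l | ∀ x ∈ l, x ∈ A}

theorem inS_mono {A B : Set X} (h : A ⊆ B) : inS K A ≤ inS K B :=
  supported_mono fun _ hl x hx => h (hl x hx)

theorem lcons_mem {A : Set X} {a : X} (ha : a ∈ A) {c : List X →₀ K} (hc : c ∈ inS K A) :
    lcons K a c ∈ inS K A :=
  lc_mem (fun l hl => by
    rw [lcons_single]
    exact single_mem_supported K 1 (by simpa using ⟨ha, hl⟩)) hc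

theorem bdl_mem (l : List X) : bdl K l ∈ inS K {x | x ∈ l} := by
  induction l with
  | nil => exact Submodule.zero_mem _
  | cons a l ih =>
    exact Submodule.sub_mem _ (single_mem_supported K 1 fun x hx => List.mem_cons_of_mem a hx)
      (lcons_mem (by simp) (inS_mono (fun x hx => List.mem_cons_of_mem a hx) ih))

theorem prl_mem (f g : X → Y) (l : List X) :
    prl K f g l ∈ inS K {y | ∃ x ∈ l, y = f x ∨ y = g x} := by
  induction l with
  | nil => exact Submodule.zero_mem _
  | cons a l ih =>
    refine Submodule.sub_mem _ (single_mem_supported K 1 fun y hy => ?_)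
      (lcons_mem (by exact ⟨a, by simp, Or.inl rfl⟩)
        (inS_mono (by exact fun y ⟨x, hx, h⟩ => ⟨x, List.mem_cons_of_mem a hx, h⟩) ih))
    simp only [List.mem_cons, List.mem_map] at hy
    rcases hy with rfl | rfl | ⟨x, hx, rfl⟩
    · exact ⟨a, by simp, Or.inl rfl⟩
    · exact ⟨a, by simp, Or.inr rfl⟩
    · exact ⟨x, List.mem_cons_of_mem a hx, Or.inr rfl⟩

theorem prisms_mem {f : ℕ → X → Y} {n : ℕ} {S : Set (List X)} {U : Submodule K (List Y →₀ K)}
    (h : ∀ k < n, ∀ l ∈ S, inS K {y | ∃ x ∈ l, y = f k x ∨ y = f (k + 1) x} ≤ U)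
    {c : List X →₀ K} (hc : c ∈ supported K K S) : prisms K f n c ∈ U := by
  rw [prisms, LinearMap.sum_apply]
  refine U.sum_mem fun k hk => lc_mem (fun l hl => ?_) hc
  rw [prism_single]
  exact h k (Finset.mem_range.1 hk) l hl (prl_mem _ _ l)

section Orient

variable {V : Type*} [LinearOrder V]

variable (K) in
/-- from ordered to oriented chains -/
noncomputable def orient : (List V →₀ K) →ₗ[K] (Finset V → K) := linearCombination K (wl K)

@[simp] theorem orient_single (l : List V) : orient K (single l 1) = wl K l := by simp [orient]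

theorem orient_lcons (a : V) (c : List V →₀ K) :
    orient K (lcons K a c) = cre K a (orient K c) :=
  lc_ext (L := orient K ∘ₗ lcons K a) (L' := cre K a ∘ₗ orient K) (fun l => by simp [wl]) c

theorem bd_orient [Fintype V] (c : List V →₀ K) : bd K (orient K c) = orient K (lbd K c) :=
  lc_ext (L := bd K ∘ₗ orient K) (L' := orient K ∘ₗ lbd K) (fun l => by
    simp only [LinearMap.comp_apply, orient_single, lbd_single]
    induction l with
    | nil => simp [wl, bdl, bd_bv_empty]
    | cons a l ih => simp [wl, bdl, bd_cre, ih, orient_lcons]) c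

theorem orient_mem {G : Finset V} {c : List V →₀ K} (hc : c ∈ inS K (G : Set V)) :
    orient K c ∈ ch K (Set.Iic G) :=
  lc_mem (fun l hl => by
    rw [orient_single]
    refine ch_mono ?_ (wl_mem K l)
    rintro H ⟨rfl, -⟩ v hv
    exact hl v (List.mem_toFinset.1 hv)) hc

end Orient

section Small

variable {E : Type*} [NormedAddCommGroup E] [NormedSpace ℝ E]

/-- lists in `A` of diameter less than `δ` -/
def small (A : Set E) (δ : ℝ) : Set (List E) :=
  {l | (∀ x ∈ l, x ∈ A) ∧ ∀ x ∈ l, ∀ y ∈ l, dist x y < δ}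

omit [NormedSpace ℝ E] in
theorem inS_le_small {A B : Set E} {δ : ℝ} (hBA : B ⊆ A)
    (hB : ∀ x ∈ B, ∀ y ∈ B, dist x y < δ) : inS K B ≤ supported K K (small A δ) :=
  supported_mono fun _ hl => ⟨fun x hx => hBA (hl x hx), fun x hx y hy => hB x (hl x hx) y (hl y hy)⟩

omit [NormedSpace ℝ E] in
theorem exists_margin {δ : ℝ} (S : Finset (List E))
    (hS : ∀ l ∈ S, ∀ x ∈ l, ∀ y ∈ l, dist x y < δ) :
    ∃ η > 0, ∀ l ∈ S, ∀ x ∈ l, ∀ y ∈ l, dist x y + η < δ := by
  classical
  have hfin : {r : ℝ | ∃ l ∈ S, ∃ x ∈ l, ∃ y ∈ l, r = dist x y}.Finite := by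
    refine (Set.Finite.biUnion S.finite_toSet fun l _ =>
      ((l.finite_toSet.prod l.finite_toSet).image fun p : E × E => dist p.1 p.2)).subset ?_
    rintro _ ⟨l, hl, x, hx, y, hy, rfl⟩
    exact Set.mem_biUnion hl ⟨(x, y), ⟨hx, hy⟩, rfl⟩
  rcases Set.eq_empty_or_nonempty {r : ℝ | ∃ l ∈ S, ∃ x ∈ l, ∃ y ∈ l, r = dist x y} with h | h
  · refine ⟨1, one_pos, fun l hl x hx y hy => ?_⟩
    exact absurd h (Set.Nonempty.ne_empty ⟨_, l, hl, x, hx, y, hy, rfl⟩)
  · obtain ⟨r, ⟨l, hl, x, hx, y, hy, rfl⟩, hr⟩ := Set.exists_max_image _ id hfin h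
    have h1 := hS l hl x hx y hy
    refine ⟨(δ - dist x y) / 2, by linarith, fun l' hl' x' hx' y' hy' => ?_⟩
    have h2 : dist x' y' ≤ dist x y := hr _ ⟨l', hl', x', hx', y', hy', rfl⟩
    linarith

/-- Small chains in a bounded star-shaped set are acyclic. -/
theorem small_acyclic {A : Set E} {p : E} (hp : p ∈ A) (hA : StarConvex ℝ p A)
    (hb : ∀ y ∈ A, dist y p ≤ 1) {δ : ℝ} (hδ : 0 < δ) {z : List E →₀ K}
    (hz : z ∈ supported K K (small A δ)) (hD : lbd K z = 0) :
    ∃ y ∈ supported K K (small A δ), lbd K y = z := by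
  obtain ⟨η, hη, hm⟩ := exists_margin z.support fun l hl => (hz hl).2
  obtain ⟨n, hn⟩ := exists_nat_one_div_lt hη
  set N : ℝ := (n : ℝ) + 1 with hN
  have hN0 : 0 < N := by positivity
  let g : ℕ → E → E := fun k y => y + ((k : ℝ) / N) • (p - y)
  have g0 : g 0 = id := by ext y; simp [g]
  have g1 : g (n + 1) = fun _ => p := by
    ext y; simp only [g]; push_cast; rw [← hN, div_self hN0.ne']; simp
  have hk : ∀ k ≤ n + 1, 0 ≤ (k : ℝ) / N ∧ (k : ℝ) / N ≤ 1 := fun k hk =>
    ⟨by positivity, by rw [div_le_one hN0, hN]; exact_mod_cast hk⟩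
  have gA : ∀ k ≤ n + 1, ∀ y ∈ A, g k y ∈ A := fun k hk' y hy => by
    have := hA hy (hk k hk').1 (sub_nonneg.2 (hk k hk').2) (add_sub_cancel _ _)
    convert this using 1
    simp only [g, smul_sub, sub_smul, one_smul]; abel
  have gd : ∀ k ≤ n + 1, ∀ x y, dist (g k x) (g k y) ≤ dist x y := fun k hk' x y => by
    have : g k x - g k y = (1 - (k : ℝ) / N) • (x - y) := by
      simp only [g, smul_sub, sub_smul, one_smul]; abel
    rw [dist_eq_norm, dist_eq_norm, this, norm_smul, Real.norm_of_nonneg
      (sub_nonneg.2 (hk k hk').2)]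
    nlinarith [norm_nonneg (x - y), (hk k hk').1]
  have gs : ∀ k, ∀ y ∈ A, dist (g k y) (g (k + 1) y) ≤ η := fun k y hy => by
    have : g k y - g (k + 1) y = (1 / N) • (y - p) := by
      simp only [g]; push_cast
      rw [add_div, add_smul, smul_sub (1 / N), smul_sub (1 / N)]; abel
    rw [dist_eq_norm, this, norm_smul, Real.norm_of_nonneg (by positivity), ← dist_eq_norm]
    have h1 := hb y hy
    have h2 : 0 < 1 / N := by positivity
    nlinarith
  have h1 := lbd_prisms g (n + 1) z
  rw [hD, map_zero, add_zero, g0, g1] at h1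
  have h2 : lmap K id z = z := lc_ext (L' := LinearMap.id) (fun l => by simp) z
  have h3 : lmap K (fun _ : E => p) z ∈ inS K {p} :=
    lc_mem (S := Set.univ) (fun l _ => by
      rw [lmap_single]; exact single_mem_supported K 1 (by simp)) (by simp)
  refine ⟨lcons K p (lmap K (fun _ => p) z) - prisms K g (n + 1) z,
    Submodule.sub_mem _ (inS_le_small (B := {p}) (by simpa using hp) (by simpa using hδ)
      (lcons_mem (Set.mem_singleton p) h3)) (prisms_mem (S := z.support) (fun k hk' l hl => ?_)
        (mem_supported_support K z)), ?_⟩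
  · refine inS_le_small ?_ ?_
    · rintro _ ⟨x, hx, rfl | rfl⟩
      · exact gA k (by omega) x ((hz hl).1 x hx)
      · exact gA (k + 1) (by omega) x ((hz hl).1 x hx)
    · have key : ∀ x ∈ l, ∀ y ∈ l, dist (g k x) (g (k + 1) y) < δ := fun x hx y hy =>
        calc dist (g k x) (g (k + 1) y)
            ≤ dist (g k x) (g k y) + dist (g k y) (g (k + 1) y) := dist_triangle _ _ _
          _ ≤ dist x y + η := add_le_add (gd k (by omega) x y) (gs k y ((hz hl).1 y hy))
          _ < δ := hm l hl x hx y hy
      rintro _ ⟨x, hx, rfl | rfl⟩ _ ⟨y, hy, rfl | rfl⟩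
      · exact (gd k (by omega) x y).trans_lt ((hz hl).2 x hx y hy)
      · exact key x hx y hy
      · rw [dist_comm]; exact key y hy x hx
      · exact (gd (k + 1) (by omega) x y).trans_lt ((hz hl).2 x hx y hy)
  · rw [map_sub, lbd_lcons, lbd_lmap, hD, h1, h2]; simp

end Small

end Pool.Agent.Lib.MP_21db46_co
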