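import Pool.Agent.Lib.MP_21db46_co.Homotopy

/-! Explicit retractions: away from a point of a simplex, radially in a ball, and between the
unit sphere and the boundary of a simplex. -/

namespace Pool.Agent.Lib.MP_21db46_co

open Finset

theorem exists_retraction {V : Type*} [Fintype V] {x₀ : V → ℝ} (hx : x₀ ∈ stdSimplex ℝ V) :
    ∃ ρ : (V → ℝ) → (V → ℝ), ContinuousOn ρ {y | y ∈ stdSimplex ℝ V ∧ y ≠ x₀} ∧
      (∀ y ∈ stdSimplex ℝ V, y ≠ x₀ →
        ρ y ∈ stdSimplex ℝ V ∧ supp (ρ y) ⊆ supp y ∧ ¬ supp x₀ ⊆ supp (ρ y) ∧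
          ∀ a : ℝ, 0 ≤ a → a ≤ 1 → (1 - a) • y + a • ρ y ≠ x₀) ∧
      ∀ y ∈ stdSimplex ℝ V, ¬ supp x₀ ⊆ supp y → ρ y = y := by
  have hG := supp_nonempty hx
  have hpos : ∀ v ∈ supp x₀, 0 < x₀ v := fun v hv => (hx.1 v).lt_of_ne' (mem_supp.1 hv)
  let μ : (V → ℝ) → ℝ := fun y => (supp x₀).inf' hG fun v => y v / x₀ v
  have hμc : Continuous μ := Continuous.finset_inf'_apply hG fun v _ => by fun_prop
  have hμ0 : ∀ y ∈ stdSimplex ℝ V, 0 ≤ μ y := fun y hy =>
    (le_inf'_iff hG _).2 fun v hv => div_nonneg (hy.1 v) (hx.1 v)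
  have hμle : ∀ y ∈ stdSimplex ℝ V, ∀ v, μ y * x₀ v ≤ y v := fun y hy v => by
    by_cases hv : v ∈ supp x₀
    · rw [← le_div_iff₀ (hpos v hv)]; exact inf'_le _ hv
    · have : x₀ v = 0 := by simpa using hv
      rw [this, mul_zero]; exact hy.1 v
  have hsum : ∀ y ∈ stdSimplex ℝ V, ∑ v, (y v - μ y * x₀ v) = 1 - μ y := fun y hy => by
    rw [sum_sub_distrib, ← mul_sum, hx.2, hy.2, mul_one]
  have hμ1 : ∀ y ∈ stdSimplex ℝ V, y ≠ x₀ → μ y < 1 := fun y hy hne => by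
    have h1 : 0 ≤ 1 - μ y := hsum y hy ▸ sum_nonneg fun v _ => sub_nonneg.2 (hμle y hy v)
    refine lt_of_le_of_ne (by linarith) fun h => hne ?_
    have h2 := (sum_eq_zero_iff_of_nonneg fun v _ => sub_nonneg.2 (hμle y hy v)).1
      (by rw [hsum y hy, h, sub_self])
    ext v
    have := h2 v (mem_univ v)
    rw [h, one_mul] at this; linarith
  have hμz : ∀ y ∈ stdSimplex ℝ V, ¬ supp x₀ ⊆ supp y → μ y = 0 := fun y hy h => by
    obtain ⟨v, hv, hv'⟩ := not_subset.1 h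
    have h1 : y v = 0 := by simpa using hv'
    refine le_antisymm ?_ (hμ0 y hy)
    have := inf'_le (fun v => y v / x₀ v) hv
    rwa [h1, zero_div] at this
  refine ⟨fun y v => (1 - μ y)⁻¹ * (y v - μ y * x₀ v), ?_, fun y hy hne => ?_, fun y hy h => ?_⟩
  · refine continuousOn_pi.2 fun v => ContinuousOn.mul (ContinuousOn.inv₀ (by fun_prop) ?_)
      (by fun_prop)
    exact fun y hy => (sub_pos.2 (hμ1 y hy.1 hy.2)).ne'
  · have h1 := sub_pos.2 (hμ1 y hy hne)
    obtain ⟨v₀, hv₀, hv₀'⟩ := exists_mem_eq_inf' hG fun v => y v / x₀ v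
    have hz : y v₀ - μ y * x₀ v₀ = 0 := by
      have : μ y = y v₀ / x₀ v₀ := hv₀'
      rw [this, div_mul_cancel₀ _ (hpos v₀ hv₀).ne', sub_self]
    refine ⟨⟨fun v => mul_nonneg (inv_nonneg.2 h1.le) (sub_nonneg.2 (hμle y hy v)), ?_⟩,
      fun v hv => ?_, fun h => ?_, fun a ha0 ha1 h => ?_⟩
    · rw [← mul_sum, hsum y hy, inv_mul_cancel₀ h1.ne']
    · rw [mem_supp] at hv ⊢
      intro h0
      apply hv
      have h2 := hμle y hy v
      have h3 := mul_nonneg (hμ0 y hy) (hx.1 v)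
      simp only [show y v - μ y * x₀ v = 0 by linarith, mul_zero]
    · exact mem_supp.1 (h hv₀) (by simp only [hz, mul_zero])
    · have h2 := congrFun h v₀
      simp only [Pi.add_apply, Pi.smul_apply, smul_eq_mul, hz, mul_zero, add_zero] at h2
      have h3 := hpos v₀ hv₀
      have h4 := hμ0 y hy
      have h5 : y v₀ = μ y * x₀ v₀ := by linarith
      rw [h5] at h2
      have h6 : (1 - a) * μ y < 1 := by nlinarith
      nlinarith
  · ext v; simp [hμz y hy h]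

theorem exists_radial {E : Type*} [NormedAddCommGroup E] [InnerProductSpace ℝ E] {c : E}
    (hc : ‖c‖ < 1) : ∃ τ : E → ℝ, ContinuousOn τ {b | b ≠ c} ∧
      (∀ b, b ≠ c → 0 < τ b ∧ ‖c + τ b • (b - c)‖ = 1) ∧ ∀ b, ‖b‖ = 1 → τ b = 1 := by
  have hk : 0 < 1 - ‖c‖ ^ 2 := by nlinarith [norm_nonneg c]
  refine ⟨fun b => (-inner ℝ c (b - c) +
    √(inner ℝ c (b - c) ^ 2 + ‖b - c‖ ^ 2 * (1 - ‖c‖ ^ 2))) / ‖b - c‖ ^ 2, ?_, fun b hb => ?_,
    fun b hb => ?_⟩
  · refine ContinuousOn.div (by fun_prop) (by fun_prop) fun b hb => ?_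
    exact pow_ne_zero 2 (norm_ne_zero_iff.2 (sub_ne_zero.2 hb))
  · set u := b - c with hu
    have hs : 0 < ‖u‖ ^ 2 := pow_pos (norm_pos_iff.2 (sub_ne_zero.2 hb)) 2
    set a := inner ℝ c u
    set s := ‖u‖ ^ 2 with hs'
    have hD : 0 ≤ a ^ 2 + s * (1 - ‖c‖ ^ 2) := by positivity
    set r := √(a ^ 2 + s * (1 - ‖c‖ ^ 2))
    have hr : r ^ 2 = a ^ 2 + s * (1 - ‖c‖ ^ 2) := Real.sq_sqrt hD
    have hr0 : 0 ≤ r := Real.sqrt_nonneg _
    have hra : a < r := by
      by_contra h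
      push Not at h
      nlinarith [mul_pos hs hk]
    refine ⟨div_pos (by linarith) hs, ?_⟩
    have h1 : ‖c + ((-a + r) / s) • u‖ ^ 2 = 1 := by
      rw [norm_add_sq_real, inner_smul_right, norm_smul, mul_pow, Real.norm_eq_abs, sq_abs, ← hs']
      field_simp
      nlinarith
    have h2 := norm_nonneg (c + ((-a + r) / s) • u)
    nlinarith
  · have hne : b ≠ c := by rintro rfl; linarith
    set u := b - c with hu
    have hs : 0 < ‖u‖ ^ 2 := pow_pos (norm_pos_iff.2 (sub_ne_zero.2 hne)) 2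
    have h1 : ‖c + u‖ ^ 2 = 1 := by rw [hu, add_sub_cancel, hb]; simp
    rw [norm_add_sq_real] at h1
    have h2 : inner ℝ b c ≤ 1 := by
      have := real_inner_le_norm b c
      rw [hb] at this; linarith
    have h3 : inner ℝ c u + ‖u‖ ^ 2 = 1 - inner ℝ b c := by
      rw [← real_inner_self_eq_norm_sq, ← inner_add_left, hu, add_sub_cancel, inner_sub_right,
        real_inner_self_eq_norm_sq, hb]; simp
    have h4 : inner ℝ c u ^ 2 + ‖u‖ ^ 2 * (1 - ‖c‖ ^ 2) = (inner ℝ c u + ‖u‖ ^ 2) ^ 2 := by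
      nlinarith
    simp only
    rw [h4, Real.sqrt_sq (by linarith), div_eq_one_iff_eq hs.ne']
    ring

theorem exists_sphere_retract (n : ℕ) :
    ∃ (α : (Fin (n + 1) → ℝ) → EuclideanSpace ℝ (Fin n))
      (β : EuclideanSpace ℝ (Fin n) → (Fin (n + 1) → ℝ)),
      ContinuousOn α (rl {H | H ≠ univ}) ∧ ContinuousOn β {b | b ≠ 0} ∧
      (∀ p ∈ rl {H | H ≠ univ}, ‖α p‖ = 1 ∧ β (α p) = p) ∧
      ∀ b, b ≠ 0 → β b ∈ rl {H | H ≠ univ} := by
  have low : IsLowerSet {H : Finset (Fin (n + 1)) | H ≠ univ} := fun H H' hle hH h =>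
    hH (eq_univ_of_forall fun v => hle (h ▸ mem_univ v))
  let L : (Fin (n + 1) → ℝ) → EuclideanSpace ℝ (Fin n) := fun p =>
    WithLp.toLp 2 fun i => p i.succ - p 0
  have hLc : Continuous L := (PiLp.continuous_toLp 2 _).comp (by fun_prop)
  have hz : ∀ p ∈ rl {H : Finset (Fin (n + 1)) | H ≠ univ}, p ∈ stdSimplex ℝ _ ∧ ∃ j, p j = 0 := by
    intro p hp
    obtain ⟨h1, h2⟩ := (mem_rl low).1 hp
    refine ⟨h1, ?_⟩
    by_contra h
    push Not at h
    exact h2 (eq_univ_of_forall fun v => mem_supp.2 (h v))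
  have hL : ∀ p ∈ rl {H : Finset (Fin (n + 1)) | H ≠ univ}, L p ≠ 0 := by
    intro p hp h
    obtain ⟨h1, j, hj⟩ := hz p hp
    have h2 : ∀ i, p i = p 0 := fun i => by
      refine Fin.cases rfl (fun i => ?_) i
      have := congrArg (fun b : EuclideanSpace ℝ (Fin n) => b i) h
      simpa [L, sub_eq_zero] using this
    have h3 : ∀ i, p i = 0 := fun i => by rw [h2 i, ← h2 j, hj]
    have := h1.2
    simp [h3] at this
  let y : EuclideanSpace ℝ (Fin n) → Fin (n + 1) → ℝ := fun b => Fin.cons 0 fun i => b i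
  have hyc : ∀ i, Continuous fun b => y b i := fun i => by
    refine Fin.cases ?_ (fun i => ?_) i
    · simpa [y] using continuous_const
    · simp only [y, Fin.cons_succ]; fun_prop
  let m : EuclideanSpace ℝ (Fin n) → ℝ := fun b => univ.inf' univ_nonempty (y b)
  have hmc : Continuous m := Continuous.finset_inf'_apply univ_nonempty fun i _ => hyc i
  have hm : ∀ b i, 0 ≤ y b i - m b := fun b i => sub_nonneg.2 (inf'_le _ (mem_univ i))
  have hS : ∀ b, b ≠ 0 → 0 < ∑ i, (y b i - m b) := fun b hb => by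
    refine lt_of_le_of_ne (sum_nonneg fun i _ => hm b i) fun h => hb ?_
    have h1 := (sum_eq_zero_iff_of_nonneg fun i _ => hm b i).1 h.symm
    have h2 := h1 0 (mem_univ _)
    ext i
    have h3 := h1 i.succ (mem_univ _)
    simp only [y, Fin.cons_zero, Fin.cons_succ] at h2 h3
    simp only [PiLp.zero_apply]
    linarith
  refine ⟨fun p => ‖L p‖⁻¹ • L p, fun b i => (∑ i, (y b i - m b))⁻¹ * (y b i - m b), ?_, ?_,
    fun p hp => ⟨?_, ?_⟩, fun b hb => ?_⟩
  · exact ContinuousOn.smul (ContinuousOn.inv₀ (by fun_prop) fun p hp =>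
      norm_ne_zero_iff.2 (hL p hp)) hLc.continuousOn
  · refine continuousOn_pi.2 fun i => ContinuousOn.mul (ContinuousOn.inv₀ ?_ fun b hb =>
      (hS b hb).ne') ((hyc i).sub hmc).continuousOn
    exact (continuous_finsetSum _ fun i _ => (hyc i).sub hmc).continuousOn
  · exact norm_smul_inv_norm (𝕜 := ℝ) (hL p hp)
  · obtain ⟨h1, j, hj⟩ := hz p hp
    have hs : 0 < ‖L p‖⁻¹ := inv_pos.2 (norm_pos_iff.2 (hL p hp))
    set s := ‖L p‖⁻¹
    have h2 : ∀ i, y (s • L p) i = s * (p i - p 0) := fun i => by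
      refine Fin.cases ?_ (fun i => ?_) i <;> simp [y, L]
    have h3 : m (s • L p) = -(s * p 0) := by
      refine le_antisymm ?_ ((le_inf'_iff _ _).2 fun i _ => ?_)
      · have : m (s • L p) ≤ y (s • L p) j := inf'_le (y (s • L p)) (mem_univ j)
        rw [h2, hj] at this
        linarith
      · rw [h2]; nlinarith [h1.1 i]
    have h4 : ∀ i, y (s • L p) i - m (s • L p) = s * p i := fun i => by rw [h2, h3]; ring
    ext i
    change (∑ x, (y (s • L p) x - m (s • L p)))⁻¹ * (y (s • L p) i - m (s • L p)) = p i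
    simp only [h4]
    rw [← mul_sum, h1.2, mul_one, ← mul_assoc, inv_mul_cancel₀ hs.ne', one_mul]
  · rw [mem_rl low]
    refine ⟨⟨fun i => mul_nonneg (inv_nonneg.2 (hS b hb).le) (hm b i), ?_⟩, fun h => ?_⟩
    · rw [← mul_sum, inv_mul_cancel₀ (hS b hb).ne']
    · obtain ⟨j, -, hj⟩ := exists_mem_eq_inf' univ_nonempty (y b)
      have : j ∈ supp fun i => (∑ i, (y b i - m b))⁻¹ * (y b i - m b) :=
        (eq_univ_iff_forall.1 h) j
      refine mem_supp.1 this ?_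
      have h1 : m b = y b j := hj
      simp only [h1, sub_self, mul_zero]

theorem sphere_not_acyclic (n : ℕ) :
    ¬ (simpDG ℚ ℚ (Fin (n + 1))).Ex (ch ℚ {H | H ≠ univ}) ⊥ n := by
  intro h
  obtain ⟨y, hy, hyn, hb⟩ := h (bd ℚ (bv ℚ univ)) (ch_mono (by
    rintro _ ⟨v, hv, rfl⟩ h; exact notMem_erase v univ (eq_univ_iff_forall.1 h v)) (bd_bv_mem _))
    ((simpDG ℚ ℚ (Fin (n + 1))).D_gr n _ (bv_mem_ch (by simp)))
    (by simp [bd_bd])
  have hy0 : y = 0 := by
    ext H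
    by_contra hne
    exact mem_ch'.1 hy H hne (eq_univ_of_card _ (by simpa using mem_ch'.1 hyn H hne))
  have h1 : bd ℚ (bv ℚ (univ : Finset (Fin (n + 1)))) = 0 := by simpa [hy0] using hb
  have h2 := bd_cre ℚ (0 : Fin (n + 1)) (bv ℚ univ)
  have h3 : cre ℚ (0 : Fin (n + 1)) (bv ℚ univ) = 0 := by
    ext H
    rw [cre_apply]
    split_ifs with h
    · rw [bv, Pi.single_eq_of_ne, smul_zero]; · rfl
      intro h'; exact notMem_erase 0 H (h' ▸ mem_univ _)
    · rfl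
  rw [h3, h1] at h2
  have := congrFun h2 univ
  simp [bv] at this

end Pool.Agent.Lib.MP_21db46_co
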