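import Pool.Agent.Lib.MP_21db46_co.Sys

/-! Standard systems (face rings): exactness below the top degree and dimension counts. -/

namespace Pool.Agent.Lib.MP_21db46_co

open Finset MvPolynomial

variable {K : Type*} [Field K] {V : Type*} [LinearOrder V] [Fintype V]
  {κ : Type*} [LinearOrder κ] [Fintype κ] {ν : Type*} [DecidableEq ν]

variable (K κ) in
/-- filtration of the total complex by the Koszul degree -/
noncomputable def Tf (S : Finset V → Finset ν) (Γ : Set (Finset V)) (j a : ℕ) :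
    Submodule K (EE K V κ ν) := TT K S j fun G A => G ∈ Γ ∧ A.card < a

instance (S : Finset V → Finset ν) (Γ : Set (Finset V)) (j a : ℕ) :
    FiniteDimensional K (Tf K κ S Γ j a) := by unfold Tf; infer_instance

instance {E : Type*} [AddCommGroup E] [Module K E] (C : DG K E) (A : Submodule K E)
    [FiniteDimensional K A] (n : ℕ) : FiniteDimensional K (C.pc A n) :=
  Submodule.finiteDimensional_of_le inf_le_left

instance {E : Type*} [AddCommGroup E] [Module K E] (C : DG K E) (A : Submodule K E)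
    [FiniteDimensional K A] (n : ℕ) : FiniteDimensional K (C.Z A n) :=
  Submodule.finiteDimensional_of_le inf_le_left

instance {E : Type*} [AddCommGroup E] [Module K E] (C : DG K E) (A : Submodule K E)
    [FiniteDimensional K A] (n : ℕ) : FiniteDimensional K (C.B A n) := by
  unfold DG.B; infer_instance

omit [LinearOrder V] [Fintype V] [LinearOrder κ] [Fintype κ] in
theorem Tf_mono (S : Finset V → Finset ν) (Γ : Set (Finset V)) (j : ℕ) :
    Monotone (Tf K κ S Γ j) := fun _ _ hab =>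
  TT_mono (fun _ => subset_rfl) fun _ _ h => ⟨h.1, h.2.trans_le hab⟩

/-- the complex of constants -/
noncomputable def qdg : DG K (EE K V κ ν) where
  D := bd K
  gr n := sp K ν fun G A => G.card + A.card = n
  DD := bd_bd K
  D_gr n c hc G A h := by
    rw [bd_apply, Finset.sum_apply]
    refine sum_eq_zero fun v hv => ?_
    rw [Pi.smul_apply, hc _ A fun h' => h (by
      simp only [card_insert_of_notMem (mem_compl.1 hv)] at h' ⊢; omega), smul_zero]
  D_gr0 c hc := by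
    ext1 G; ext1 A
    rw [bd_apply, Finset.sum_apply]
    refine sum_eq_zero fun v hv => ?_
    rw [Pi.smul_apply, hc _ A fun h' => by
      simp only [card_insert_of_notMem (mem_compl.1 hv)] at h'; omega, smul_zero]

variable (K κ ν) in
/-- the quotient of the total complex in top Koszul degree -/
noncomputable def QQ (Γ : Set (Finset V)) (j : ℕ) : Submodule K (EE K V κ ν) :=
  TT K (fun _ => ∅) j fun G A => G ∈ Γ ∧ A.card = j

instance (Γ : Set (Finset V)) (j : ℕ) : FiniteDimensional K (QQ K κ ν Γ j) := by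
  unfold QQ; infer_instance

variable (K κ ν) in
/-- alternating sum of Betti numbers -/
noncomputable def Bet (Γ : Set (Finset V)) (j d : ℕ) : ℤ :=
  ∑ n ∈ range (d + 1), (-1) ^ (d - n) * (qdg (K := K) (V := V) (κ := κ) (ν := ν)).beta
    (QQ K κ ν Γ j) n

open Classical in
variable (κ) in
/-- dimension of a graded piece of a total complex -/
noncomputable def dimT (Γ : Set (Finset V)) (j n : ℕ) : ℕ :=
  ∑ G : Finset V, ∑ A : Finset κ, if (G ∈ Γ ∧ A.card < j + 1) ∧ G.card + A.card = n then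
    G.card.multichoose (j - A.card) else 0

variable (κ) in
/-- truncated Euler characteristic of a total complex -/
noncomputable def eulT (Γ : Set (Finset V)) (j p : ℕ) : ℤ :=
  ∑ n ∈ range (p + 1), (-1) ^ (p - n) * (dimT κ Γ j n : ℤ)

/-- projection to top Koszul degree -/
noncomputable def prj (j : ℕ) : EE K V κ ν →ₗ[K] EE K V κ ν where
  toFun c G A := if A.card = j then c G A else 0
  map_add' c c' := by ext1 G; ext1 A; by_cases h : A.card = j <;> simp [h]
  map_smul' r c := by ext1 G; ext1 A; by_cases h : A.card = j <;> simp [h]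

omit [LinearOrder V] [Fintype V] [LinearOrder κ] [Fintype κ] [DecidableEq ν] in
theorem prj_apply (j : ℕ) (c : EE K V κ ν) (G : Finset V) (A : Finset κ) :
    prj j c G A = if A.card = j then c G A else 0 := rfl

namespace Sys

variable (Y : Sys K V ν)

theorem finrank_pc (θ : κ → MvPolynomial ν K) (Γ : Set (Finset V)) (j n : ℕ) :
    Module.finrank K ((Y.dg θ).pc (Tf K κ Y.S Γ j (j + 1)) n) = dimT κ Γ j n := by
  classical
  rw [Tf, dg_pc, finrank_TT, dimT]
  simp only [Y.card_S]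

theorem eul_eq (θ : κ → MvPolynomial ν K) (Γ : Set (Finset V)) (j p : ℕ) :
    (Y.dg θ).eul (Tf K κ Y.S Γ j (j + 1)) p = eulT κ Γ j p := by
  simp only [DG.eul, eulT, finrank_pc]

variable [Fintype ν]

theorem sub_Tf {θ : κ → MvPolynomial ν K} (hθ : ∀ r, θ r ∈ PA K univ 1) {Γ : Set (Finset V)}
    (l : IsLowerSet Γ) {j a : ℕ} (ha : a ≤ j + 1) : (Y.dg θ).Sub (Tf K κ Y.S Γ j a) :=
  Y.sub_TT hθ (fun G A h => by have := h.2; omega)
    (fun G A v _ h => ⟨l (subset_insert v G) h.1, h.2⟩)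
    (fun G A r _ h => ⟨h.1, (card_le_card (subset_insert r A)).trans_lt h.2⟩)

theorem finrank_B {θ : κ → MvPolynomial ν K} (hθ : ∀ r, θ r ∈ PA K univ 1)
    {Γ : Set (Finset V)} (l : IsLowerSet Γ) (hs : Y.Spans θ Γ) (j : ℕ)
    (hd : ∀ G ∈ Γ, G.card ≤ Fintype.card κ) :
    (Module.finrank K ((Y.dg θ).B (Tf K κ Y.S Γ j (j + 1)) (Fintype.card κ)) : ℤ) =
      eulT κ Γ j (Fintype.card κ) - (-1) ^ j * eulT κ Γ j (Fintype.card κ + j) := by
  rw [DG.finrank_B_of_exact_above (Y.sub_Tf hθ l le_rfl) (fun _ => inferInstance) _ j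
    (fun n hn => ?_) ?_, eul_eq, eul_eq]
  · rw [Tf, dg_pc]
    exact TT_eq_bot fun G A h => by have := hd G h.1.1; have := h.1.2; have := h.2; omega
  · have := Y.exact_above hθ l hs j hn
    simpa only [Tf, Nat.lt_succ_iff] using this

theorem finrank_sup {θ : κ → MvPolynomial ν K} (hθ : ∀ r, θ r ∈ PA K univ 1)
    {Γ : Set (Finset V)} (l : IsLowerSet Γ) (j d : ℕ) :
    Module.finrank K ((Y.dg θ).Z (Tf K κ Y.S Γ j j) d ⊔ (Y.dg θ).B (Tf K κ Y.S Γ j (j + 1)) d :
      Submodule K _) = Module.finrank K (qdg.B (QQ K κ ν Γ j) d) +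
        Module.finrank K ((Y.dg θ).Z (Tf K κ Y.S Γ j j) d) := by
  have h1 : ∀ x ∈ Tf K κ Y.S Γ j (j + 1), prj j ((Y.dg θ).D x) = bd K (prj j x) := by
    intro x hx
    ext1 G; ext1 A
    rw [prj_apply, bd_apply, Finset.sum_apply]
    simp only [Pi.smul_apply, prj_apply]
    split_ifs with hA
    · rw [dg_D, fw_apply, DT_apply_apply, sum_eq_zero (s := Aᶜ), smul_zero, add_zero]
      · refine Y.aeval_of_mem (s := 0) (Submodule.sum_mem _ fun v _ => zsmul_mem ?_ _)
        have := hx.1 (insert v G) A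
        rw [hA, Nat.sub_self] at this
        exact PA_zero_le _ _ this
      · intro r hr
        rw [hx.2 G _ fun h => by
          have := h.2; rw [card_insert_of_notMem (mem_compl.1 hr)] at this; omega]
        simp
    · simp
  have h2 : ∀ x ∈ Tf K κ Y.S Γ j j, prj j x = 0 := fun x hx => by
    ext1 G; ext1 A
    rw [prj_apply]
    split_ifs with hA
    · exact hx.2 G A fun h => by have := h.2; omega
    · rfl
  have h3 : (Y.dg θ).Z (Tf K κ Y.S Γ j j) d ⊔ (Y.dg θ).B (Tf K κ Y.S Γ j (j + 1)) d ≤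
      (Y.dg θ).Z (Tf K κ Y.S Γ j (j + 1)) d :=
    sup_le (inf_le_inf_right _ (inf_le_inf_right _ (Tf_mono _ _ _ (Nat.le_succ j))))
      (DG.B_le_Z (Y.sub_Tf hθ l le_rfl) d)
  have e1 : ((Y.dg θ).Z (Tf K κ Y.S Γ j j) d ⊔ (Y.dg θ).B (Tf K κ Y.S Γ j (j + 1)) d).map (prj j) =
      qdg.B (QQ K κ ν Γ j) d := by
    refine le_antisymm ?_ ?_
    · rw [Submodule.map_sup, sup_le_iff]
      constructor
      · rintro _ ⟨x, hx, rfl⟩
        rw [h2 x hx.1.1]; exact Submodule.zero_mem _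
      · rintro _ ⟨_, ⟨y, hy, rfl⟩, rfl⟩
        refine ⟨prj j y, ⟨⟨fun G A => ?_, fun G A h => ?_⟩, fun G A h => ?_⟩, (h1 y hy.1).symm⟩
        · rw [prj_apply]
          split_ifs with hA
          · have := hy.1.1 G A
            rw [hA, Nat.sub_self] at this ⊢
            exact PA_zero_le _ _ this
          · exact Submodule.zero_mem _
        · rw [prj_apply]
          split_ifs with hA
          · exact hy.1.2 G A fun h' => h ⟨h'.1, hA⟩
          · rfl
        · rw [prj_apply, hy.2 G A h, ite_self]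
    · rintro _ ⟨y, hy, rfl⟩
      have hy' : y ∈ Tf K κ Y.S Γ j (j + 1) :=
        TT_mono (fun _ => empty_subset _) (fun G A h => ⟨h.1, by have := h.2; omega⟩) hy.1
      refine ⟨_, Submodule.mem_sup_right ⟨y, ⟨hy', hy.2⟩, rfl⟩, ?_⟩
      rw [h1 y hy']
      refine congrArg (bd K) ?_
      ext1 G; ext1 A
      rw [prj_apply]
      split_ifs with hA
      · rfl
      · exact (hy.1.2 G A fun h => hA h.2).symm
  have e2 : ((Y.dg θ).Z (Tf K κ Y.S Γ j j) d ⊔ (Y.dg θ).B (Tf K κ Y.S Γ j (j + 1)) d) ⊓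
      LinearMap.ker (prj j) = (Y.dg θ).Z (Tf K κ Y.S Γ j j) d := by
    refine le_antisymm ?_ (le_inf le_sup_left fun x hx => h2 x hx.1.1)
    rintro x ⟨hx, hk⟩
    have h4 := h3 hx
    refine ⟨⟨⟨h4.1.1.1, fun G A h => ?_⟩, h4.1.2⟩, h4.2⟩
    by_cases hA : A.card = j
    · have := congrFun (congrFun (LinearMap.mem_ker.1 hk) G) A
      rwa [prj_apply, if_pos hA] at this
    · exact h4.1.1.2 G A fun h' => h ⟨h'.1, by have := h'.2; omega⟩
  rw [finrank_eq_map_add_inf_ker (prj j), e1, e2]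

omit [Fintype ν] in
theorem eul_add (θ : κ → MvPolynomial ν K) (Γ : Set (Finset V)) (j p : ℕ) :
    eulT κ Γ j p = (Y.dg θ).eul (Tf K κ Y.S Γ j j) p + qdg.eul (QQ K κ ν Γ j) p := by
  classical
  simp only [DG.eul, eulT, ← sum_add_distrib, ← mul_add]
  refine sum_congr rfl fun n _ => ?_
  have : qdg.pc (QQ K κ ν Γ j) n = TT K (fun _ => ∅) j
      fun G A => (G ∈ Γ ∧ A.card = j) ∧ G.card + A.card = n := TT_inf_sp _ _ _ _
  rw [this, Tf, dg_pc, finrank_TT, finrank_TT, dimT, ← Nat.cast_add, ← sum_add_distrib]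
  congr 2
  refine sum_congr rfl fun G _ => ?_
  rw [← sum_add_distrib]
  refine sum_congr rfl fun A _ => ?_
  rw [Y.card_S]
  by_cases h1 : G ∈ Γ <;> by_cases h2 : G.card + A.card = n <;> simp only [h1, h2, true_and,
    and_true, false_and, and_false, if_false]
  rcases lt_trichotomy A.card j with h | h | h
  · rw [if_pos (by omega), if_pos h, if_neg (by omega), add_zero]
  · rw [if_pos (by omega), if_neg (by omega), if_pos h, h]; simp
  · rw [if_neg (by omega), if_neg (by omega), if_neg (by omega)]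

/-- the system consists of the face rings -/
def IsStd (ι : V ↪ ν) : Prop := (∀ G, Y.S G = G.map ι) ∧ ∀ G v, v ∉ G → Y.p G (ι v) = 0

variable {Y}

omit [Fintype V] [Fintype ν] in
theorem IsStd.aeval_eq {ι : V ↪ ν} (h : Y.IsStd ι) (H : Finset V) {f : MvPolynomial ν K}
    (hf : f ∈ supported K (Set.range ι)) : aeval (Y.p H) f = kill K (H.map ι) f := by
  refine algHom_eq_of_supported ?_ hf
  rintro _ ⟨v, rfl⟩
  rw [aeval_X, kill_X]
  split_ifs with hv
  · exact Y.p_self H _ (by rwa [h.1])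
  · exact h.2 H v (by simpa using hv)

omit [Fintype ν] in
theorem IsStd.row_exact {ι : V ↪ ν} (h : Y.IsStd ι) {Γ : Set (Finset V)} {d : ℕ}
    (hl : LocEx K Γ d) {s : ℕ} (hs : 1 ≤ s) {m : ℕ} (hm : m < d)
    (c : Finset V → MvPolynomial ν K) (hc : ∀ G, c G ∈ PA K (Y.S G) s)
    (hc' : ∀ G, c G ≠ 0 → G ∈ Γ ∧ G.card = m) (hD : ∀ H, aeval (Y.p H) (bd K c H) = 0) :
    ∃ e : Finset V → MvPolynomial ν K, (∀ G, e G ∈ PA K (Y.S G) s) ∧
      (∀ G, e G ≠ 0 → G ∈ Γ ∧ G.card = m + 1) ∧ ∀ H ∈ Γ, aeval (Y.p H) (bd K e H) = c H := by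
  classical
  have hb : ∀ (f : MvPolynomial ν K) μ, (basisMonomials ν K).repr f μ = coeff μ f :=
    fun _ _ => rfl
  have hsup : ∀ e : Finset V → MvPolynomial ν K, (∀ G, e G ∈ PA K (Y.S G) s) → ∀ H,
      bd K e H ∈ PA K (univ.map ι) s := fun e he H => by
    rw [bd_apply]
    refine Submodule.sum_mem _ fun v _ => zsmul_mem (PA_mono ?_ s (he _)) _
    rw [h.1]; exact map_subset_map.2 (subset_univ _)
  have hco : ∀ e : Finset V → MvPolynomial ν K, (∀ G, e G ∈ PA K (Y.S G) s) → ∀ H μ,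
      coeff μ (aeval (Y.p H) (bd K e H)) =
        if μ.support ⊆ H.map ι then coeff μ (bd K e H) else 0 := fun e he H μ => by
    rw [h.aeval_eq H (by simpa using (mem_PA_iff.1 (hsup e he H)).2), coeff_kill]
  obtain ⟨e, he, hen, hbd⟩ := exS_basis (basisMonomials ν K)
    (fun μ => {G | G ∈ Γ ∧ μ.degree = s ∧ μ.support ⊆ G.map ι}) (n := m) (fun μ => by
      by_cases hμ : μ.degree = s ∧ μ.support ⊆ univ.map ι
      · have h1 : {G | G ∈ Γ ∧ μ.degree = s ∧ μ.support ⊆ G.map ι} =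
            {G | G ∈ Γ ∧ univ.filter (fun v => ι v ∈ μ.support) ⊆ G} := by
          ext G
          simp only [Set.mem_ofPred_eq, hμ.1, true_and]
          refine and_congr_right fun _ => ⟨fun h' v hv => ?_, fun h' x hx => ?_⟩
          · simpa using h' (mem_filter.1 hv).2
          · obtain ⟨v, -, rfl⟩ := mem_map.1 (hμ.2 hx)
            exact mem_map_of_mem _ (h' (mem_filter.2 ⟨mem_univ v, hx⟩))
        rw [h1]
        refine hl _ ?_ m hm
        have h2 : μ ≠ 0 := by rintro rfl; have := hμ.1; simp at this; omega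
        obtain ⟨x, hx⟩ := Finsupp.support_nonempty_iff.2 h2
        obtain ⟨v, -, rfl⟩ := mem_map.1 (hμ.2 hx)
        exact ⟨v, mem_filter.2 ⟨mem_univ v, hx⟩⟩
      · exact exS_of_empty fun H hH => absurd
          ⟨hH.2.1, hH.2.2.trans (map_subset_map.2 (subset_univ _))⟩ hμ) c
    (fun μ G hG => ⟨(hc' G fun h0 => hG (by simp [h0])).1, by
      rw [← h.1]; exact mem_PA.1 (hc G) μ hG⟩)
    (mem_ch'.2 fun G hG => (hc' G hG).2)
    (fun μ H hH => by
      have := hco c hc H μ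
      rw [hD H, if_pos hH.2.2] at this
      exact this.symm)
  have he' : ∀ G, e G ∈ PA K (Y.S G) s := fun G => mem_PA.2 fun μ hμ => by
    rw [h.1]; exact (he μ G hμ).2
  refine ⟨e, he', fun G hG => ⟨?_, mem_ch'.1 hen G hG⟩, fun H hH => ?_⟩
  · obtain ⟨μ, hμ⟩ := ne_zero_iff.1 hG
    exact (he μ G hμ).1
  · ext μ
    rw [hco e he']
    by_cases hμ : μ.degree = s ∧ μ.support ⊆ H.map ι
    · rw [if_pos hμ.2]; exact hbd μ H ⟨hH, hμ⟩
    · have h1 : coeff μ (c H) = 0 := by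
        by_contra h'
        exact hμ (by rw [← h.1]; exact mem_PA.1 (hc H) μ h')
      rw [h1]
      split_ifs with h2
      · by_contra h'
        exact hμ ⟨(mem_PA.1 (hsup e he' H) μ h').1, h2⟩
      · rfl

theorem IsStd.ex_step {ι : V ↪ ν} (h : Y.IsStd ι) {θ : κ → MvPolynomial ν K}
    (hθ : ∀ r, θ r ∈ PA K univ 1) {Γ : Set (Finset V)} (l : IsLowerSet Γ) {d : ℕ}
    (hl : LocEx K Γ d) {j a : ℕ} (ha : a < j) {n : ℕ} (hn : n < d + a) :
    (Y.dg θ).Ex (Tf K κ Y.S Γ j (a + 1)) (Tf K κ Y.S Γ j a) n := by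
  classical
  intro x hx hxn hD
  have key : ∀ x ∈ Tf K κ Y.S Γ j (a + 1), ∀ A : Finset κ, A.card = a → ∀ G,
      (Y.dg θ).D x G A = aeval (Y.p G) (bd K (fun H => x H A) G) := by
    intro x hx A hA G
    rw [dg_D, fw_apply, DT_apply_apply, sum_eq_zero (s := Aᶜ), smul_zero, add_zero, bd_apply]
    intro r hr
    rw [hx.2 G _ fun h => by
      have := h.2; rw [card_insert_of_notMem (mem_compl.1 hr)] at this; omega]
    simp
  have step : ∀ A : Finset κ, A.card = a → ∃ e : Finset V → MvPolynomial ν K,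
      (∀ G, e G ∈ PA K (Y.S G) (j - a)) ∧ (∀ G, e G ≠ 0 → G ∈ Γ ∧ G.card + a = n + 1) ∧
        ∀ H ∈ Γ, aeval (Y.p H) (bd K e H) = x H A := by
    intro A hA
    by_cases hp : a ≤ n
    swap
    · refine ⟨0, fun G => Submodule.zero_mem _, fun G h => absurd rfl h, fun H _ => ?_⟩
      rw [map_zero, Pi.zero_apply, map_zero]
      exact (hxn H A (by omega)).symm
    obtain ⟨e, he1, he2, he3⟩ := h.row_exact hl (s := j - a) (by omega) (m := n - a) (by omega)
      (fun H => x H A) (fun G => hA ▸ hx.1 G A)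
      (fun G hG => ⟨(mem_sp.1 hx.2 G A hG).1, by have := mem_sp.1 hxn G A hG; omega⟩)
      (fun H => by
        rw [← key x hx A hA]
        exact hD.2 H A fun h => absurd h.2 (by omega))
    exact ⟨e, he1, fun G hG => ⟨(he2 G hG).1, by have := (he2 G hG).2; omega⟩, he3⟩
  choose! e he1 he2 he3 using step
  let y : EE K V κ ν := fun G A => if A.card = a then e A G else 0
  have hy0 : ∀ G A, y G A ≠ 0 → A.card = a ∧ e A G ≠ 0 := fun G A h => by
    simp only [y] at h
    split_ifs at h with h'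
    · exact ⟨h', h⟩
    · exact absurd rfl h
  have hy : y ∈ Tf K κ Y.S Γ j (a + 1) := ⟨fun G A => by
      simp only [y]
      split_ifs with h'
      · exact h' ▸ he1 A h' G
      · exact Submodule.zero_mem _,
    mem_sp.2 fun G A h => by
      obtain ⟨h', h''⟩ := hy0 G A h
      exact ⟨(he2 A h' G h'').1, by omega⟩⟩
  refine ⟨y, hy, mem_sp.2 fun G A h => ?_, ?_⟩
  · obtain ⟨h', h''⟩ := hy0 G A h
    have := (he2 A h' G h'').2
    omega
  · have h4 := Submodule.sub_mem _ hx (Y.sub_Tf hθ l (by omega) y hy)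
    refine ⟨h4.1, mem_sp.2 fun G A h => ?_⟩
    have h5 := mem_sp.1 h4.2 G A h
    refine ⟨h5.1, lt_of_le_of_ne (Nat.lt_succ_iff.1 h5.2) fun hA => h ?_⟩
    rw [Pi.sub_apply, Pi.sub_apply, key y hy A hA]
    simp only [y, if_pos hA, he3 A hA G h5.1, sub_self]

theorem IsStd.finrank_sup {ι : V ↪ ν} (h : Y.IsStd ι) {θ : κ → MvPolynomial ν K}
    (hθ : ∀ r, θ r ∈ PA K univ 1) {Γ : Set (Finset V)} (l : IsLowerSet Γ) {d : ℕ}
    (hl : LocEx K Γ d) (j : ℕ) :
    (Module.finrank K ((Y.dg θ).Z (Tf K κ Y.S Γ j j) d ⊔ (Y.dg θ).B (Tf K κ Y.S Γ j (j + 1)) d :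
      Submodule K _) : ℤ) = eulT κ Γ j d - Bet K κ ν Γ j d := by
  have h0 : Tf K κ Y.S Γ j 0 = ⊥ := TT_eq_bot fun G A h => absurd h.2 (by omega)
  rw [Y.finrank_sup hθ l, Nat.cast_add, DG.finrank_Z_of_exact_below (Y.sub_Tf hθ l (by omega))
    (fun _ => inferInstance) d fun n hn => ?_, Y.eul_add θ,
    DG.eul_eq_B (QQ K κ ν Γ j) (fun _ => inferInstance), Bet]
  · ring
  · rw [← h0]
    exact DG.Ex.chain _ (Tf_mono _ _ _) 0 j (Nat.zero_le j) fun p _ hp =>
      h.ex_step hθ l hl hp (by omega)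

theorem IsStd.Z_le {ι : V ↪ ν} (h : Y.IsStd ι) {θ : κ → MvPolynomial ν K}
    (hθ : ∀ r, θ r ∈ PA K univ 1) {Γ : Set (Finset V)} (l : IsLowerSet Γ) {d : ℕ}
    (hl : LocEx K Γ d) {j : ℕ} (hj : 1 ≤ j) :
    (Y.dg θ).Z (Tf K κ Y.S Γ j j) d ≤
      (Y.dg θ).B (Tf K κ Y.S Γ j (j + 1)) d ⊔ (Y.dg θ).Z (Tf K κ Y.S Γ j 1) d := by
  intro z hz
  have hz0 : (Y.dg θ).D z = 0 := hz.2
  obtain ⟨y, hy, hyn, hb⟩ := DG.Ex.chain _ (Tf_mono _ _ _) 1 j hj (fun p h1 hp =>
    h.ex_step hθ l hl hp (n := d) (by omega)) z hz.1.1 hz.1.2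
    (by rw [hz0]; exact Submodule.zero_mem _)
  have : z = (Y.dg θ).D y + (z - (Y.dg θ).D y) := by abel
  rw [this]
  refine Submodule.add_mem_sup ⟨y, ⟨Tf_mono _ _ _ (Nat.le_succ j) hy, hyn⟩, rfl⟩
    ⟨⟨hb, Submodule.sub_mem _ hz.1.2 ((Y.dg θ).D_gr _ _ hyn)⟩, ?_⟩
  rw [SetLike.mem_coe, LinearMap.mem_ker, map_sub, hz0, (Y.dg θ).DD, sub_self]

end Sys

end Pool.Agent.Lib.MP_21db46_co
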