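import Pool.Agent.Lib.MP_21db46_co.Link
import Pool.Agent.Lib.MP_21db46_co.Koszul

/-! Systems of polynomial rings over a complex and their total Koszul complexes. -/

namespace Pool.Agent.Lib.MP_21db46_co

open Finset MvPolynomial

variable (K : Type*) [Field K] (V : Type*) [LinearOrder V] [Fintype V]
  (κ : Type*) [LinearOrder κ] [Fintype κ] (ν : Type*) [DecidableEq ν]

/-- the ambient space of all total complexes -/
abbrev EE := Finset V → Finset κ → MvPolynomial ν K

variable {K V κ ν}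

/-- the Koszul part of the differential -/
noncomputable def dl (θ : κ → MvPolynomial ν K) : EE K V κ ν →ₗ[K] EE K V κ ν where
  toFun c G := (-1 : ℤ) ^ G.card • wbd (MvPolynomial ν K) θ (c G)
  map_add' c c' := by ext1 G; simp
  map_smul' r c := by
    ext1 G
    simp only [Pi.smul_apply, RingHom.id_apply, LinearMap.map_smul_of_tower, smul_comm r]

omit [LinearOrder V] [Fintype V] [DecidableEq ν] in
theorem dl_apply (θ : κ → MvPolynomial ν K) (c : EE K V κ ν) (G : Finset V) :
    dl θ c G = (-1 : ℤ) ^ G.card • wbd (MvPolynomial ν K) θ (c G) := rfl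

/-- the total differential -/
noncomputable def DT (θ : κ → MvPolynomial ν K) : EE K V κ ν →ₗ[K] EE K V κ ν := bd K + dl θ

omit [DecidableEq ν] in
theorem DT_apply (θ : κ → MvPolynomial ν K) (c : EE K V κ ν) : DT θ c = bd K c + dl θ c := rfl

omit [DecidableEq ν] in
theorem DT_apply_apply (θ : κ → MvPolynomial ν K) (c : EE K V κ ν) (G : Finset V) (A : Finset κ) :
    DT θ c G A = ∑ v ∈ Gᶜ, sgn v G • c (insert v G) A +
      (-1 : ℤ) ^ G.card • ∑ r ∈ Aᶜ, sgn r A • (θ r * c G (insert r A)) := by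
  rw [DT_apply, Pi.add_apply, Pi.add_apply, bd_apply, dl_apply, Pi.smul_apply, wbd_apply_apply,
    Finset.sum_apply]
  rfl

omit [DecidableEq ν] in
theorem DT_DT (θ : κ → MvPolynomial ν K) (c : EE K V κ ν) : DT θ (DT θ c) = 0 := by
  have h1 : dl θ (dl θ c) = 0 := by
    ext1 G; simp only [dl_apply, map_zsmul, wbd_wbd, smul_zero, Pi.zero_apply]
  have h2 : bd K (dl θ c) + dl θ (bd K c) = 0 := by
    ext1 G
    simp only [Pi.add_apply, bd_apply, dl_apply, map_sum, map_zsmul, smul_sum,
      ← sum_add_distrib, Pi.zero_apply]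
    refine sum_eq_zero fun v hv => ?_
    rw [card_insert_of_notMem (mem_compl.1 hv), smul_smul, smul_smul, ← add_smul, pow_succ]
    simp [mul_comm]
  rw [DT_apply, DT_apply, map_add, map_add, bd_bd, h1, zero_add, add_zero, h2]

variable (K ν) in
/-- support condition -/
noncomputable def sp (q : Finset V → Finset κ → Prop) : Submodule K (EE K V κ ν) where
  carrier := {c | ∀ G A, ¬ q G A → c G A = 0}
  add_mem' ha hb G A h := by simp [ha G A h, hb G A h]
  zero_mem' _ _ _ := rfl
  smul_mem' r c hc G A h := by simp [hc G A h]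

variable (K κ) in
/-- degree condition -/
noncomputable def vals (S : Finset V → Finset ν) (j : ℕ) : Submodule K (EE K V κ ν) where
  carrier := {c | ∀ G A, c G A ∈ PA K (S G) (j - A.card)}
  add_mem' ha hb G A := Submodule.add_mem _ (ha G A) (hb G A)
  zero_mem' _ _ := Submodule.zero_mem _
  smul_mem' r _ hc G A := Submodule.smul_mem _ r (hc G A)

variable (K) in
/-- the pieces of the total complexes -/
noncomputable def TT (S : Finset V → Finset ν) (j : ℕ) (q : Finset V → Finset κ → Prop) :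
    Submodule K (EE K V κ ν) := vals K κ S j ⊓ sp K ν q

section
omit [LinearOrder V] [Fintype V] [LinearOrder κ] [Fintype κ]

omit [DecidableEq ν] in
theorem mem_sp {q : Finset V → Finset κ → Prop} {c : EE K V κ ν} :
    c ∈ sp K ν q ↔ ∀ G A, c G A ≠ 0 → q G A :=
  forall₂_congr fun _ _ => not_imp_comm

omit [DecidableEq ν] in
theorem sp_mono {q q' : Finset V → Finset κ → Prop} (h : ∀ G A, q G A → q' G A) :
    sp K ν q ≤ sp K ν q' := fun _ hc G A hq => hc G A fun h' => hq (h G A h')

theorem TT_mono {S S' : Finset V → Finset ν} {j : ℕ} {q q' : Finset V → Finset κ → Prop}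
    (hS : ∀ G, S G ⊆ S' G) (h : ∀ G A, q G A → q' G A) : TT K S j q ≤ TT K S' j q' :=
  fun _ hc => ⟨fun G A => PA_mono (hS G) _ (hc.1 G A), sp_mono h hc.2⟩

theorem TT_inf_sp (S : Finset V → Finset ν) (j : ℕ) (q q' : Finset V → Finset κ → Prop) :
    TT K S j q ⊓ sp K ν q' = TT K S j fun G A => q G A ∧ q' G A := by
  ext c
  simp only [TT, Submodule.mem_inf, mem_sp]
  exact ⟨fun h => ⟨h.1.1, fun G A h' => ⟨h.1.2 G A h', h.2 G A h'⟩⟩,
    fun h => ⟨⟨h.1, fun G A h' => (h.2 G A h').1⟩, fun G A h' => (h.2 G A h').2⟩⟩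

theorem TT_eq_bot {S : Finset V → Finset ν} {j : ℕ} {q : Finset V → Finset κ → Prop}
    (h : ∀ G A, ¬ q G A) : TT K S j q = ⊥ := by
  rw [eq_bot_iff]
  intro c hc
  ext1 G; ext1 A
  exact hc.2 G A (h G A)

end

/-- a product of subspaces -/
def piEquiv {ι M : Type*} [AddCommGroup M] [Module K M] (U : ι → Submodule K M) :
    Submodule.pi Set.univ U ≃ₗ[K] ∀ i, U i where
  toFun x i := ⟨x.1 i, x.2 i trivial⟩
  invFun y := ⟨fun i => y i, fun i _ => (y i).2⟩
  map_add' _ _ := rfl
  map_smul' _ _ := rfl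
  left_inv _ := rfl
  right_inv _ := rfl

instance {ι M : Type*} [Finite ι] [AddCommGroup M] [Module K M] (U : ι → Submodule K M)
    [∀ i, FiniteDimensional K (U i)] : FiniteDimensional K (Submodule.pi Set.univ U) :=
  (piEquiv U).symm.finiteDimensional

theorem finrank_pi_univ {ι M : Type*} [Fintype ι] [AddCommGroup M] [Module K M]
    (U : ι → Submodule K M) [∀ i, FiniteDimensional K (U i)] :
    Module.finrank K (Submodule.pi Set.univ U) = ∑ i, Module.finrank K (U i) := by
  rw [(piEquiv U).finrank_eq, Module.finrank_pi_fintype]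

instance (p : Prop) [Decidable p] (S : Finset ν) (s : ℕ) :
    FiniteDimensional K (if p then PA K S s else ⊥ : Submodule K (MvPolynomial ν K)) := by
  by_cases h : p
  · rw [if_pos h]; infer_instance
  · rw [if_neg h]; infer_instance

omit [LinearOrder V] [Fintype V] [LinearOrder κ] [Fintype κ] in
theorem TT_eq_pi (S : Finset V → Finset ν) (j : ℕ) (q : Finset V → Finset κ → Prop)
    [∀ G A, Decidable (q G A)] :
    TT K S j q = Submodule.pi Set.univ fun G => Submodule.pi Set.univ fun A =>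
      if q G A then PA K (S G) (j - A.card) else ⊥ := by
  ext c
  simp only [Submodule.mem_pi, Set.mem_univ, true_imp_iff]
  refine ⟨fun h G A => ?_, fun h => ⟨fun G A => ?_, fun G A hq => ?_⟩⟩
  · split_ifs with hq
    exacts [h.1 G A, h.2 G A hq]
  · have := h G A
    split_ifs at this
    · exact this
    · rw [(Submodule.mem_bot K).1 this]; exact Submodule.zero_mem _
  · have := h G A
    rwa [if_neg hq] at this

instance (S : Finset V → Finset ν) (j : ℕ) (q : Finset V → Finset κ → Prop) :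
    FiniteDimensional K (TT K S j q) := by
  classical
  rw [TT_eq_pi]; infer_instance

omit [LinearOrder V] [LinearOrder κ] in
theorem finrank_TT (S : Finset V → Finset ν) (j : ℕ) (q : Finset V → Finset κ → Prop)
    [∀ G A, Decidable (q G A)] :
    Module.finrank K (TT K S j q) =
      ∑ G, ∑ A, if q G A then (S G).card.multichoose (j - A.card) else 0 := by
  rw [TT_eq_pi, finrank_pi_univ]
  refine sum_congr rfl fun G _ => ?_
  rw [finrank_pi_univ]
  refine sum_congr rfl fun A _ => ?_
  by_cases h : q G A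
  · rw [if_pos h, if_pos h, finrank_PA]
  · rw [if_neg h, if_neg h, finrank_bot]

omit [DecidableEq ν] in
theorem DT_mem_sp (θ : κ → MvPolynomial ν K) {q q' : Finset V → Finset κ → Prop}
    (h1 : ∀ G A v, v ∉ G → q (insert v G) A → q' G A)
    (h2 : ∀ G A r, r ∉ A → q G (insert r A) → q' G A) {c : EE K V κ ν} (hc : c ∈ sp K ν q) :
    DT θ c ∈ sp K ν q' := by
  intro G A hq
  rw [DT_apply_apply, sum_eq_zero, sum_eq_zero, smul_zero, add_zero]
  · intro r hr
    rw [hc G _ fun h => hq (h2 G A r (mem_compl.1 hr) h), mul_zero, smul_zero]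
  · intro v hv
    rw [hc _ A fun h => hq (h1 G A v (mem_compl.1 hv) h), smul_zero]

variable [Fintype ν]

theorem DT_mem_vals {θ : κ → MvPolynomial ν K} (hθ : ∀ r, θ r ∈ PA K univ 1) {j : ℕ}
    {c : EE K V κ ν} (hc : c ∈ TT K (fun _ => univ) j fun _ A => A.card ≤ j) :
    DT θ c ∈ vals K κ (fun _ => univ) j := by
  intro G A
  rw [DT_apply_apply]
  refine Submodule.add_mem _ (Submodule.sum_mem _ fun v _ => zsmul_mem (hc.1 _ A) _)
    (zsmul_mem (Submodule.sum_mem _ fun r hr => zsmul_mem ?_ _) _)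
  have h0 := card_insert_of_notMem (mem_compl.1 hr)
  by_cases h : (insert r A).card ≤ j
  · have := mul_mem_PA (hθ r) (hc.1 G (insert r A))
    rwa [show 1 + (j - (insert r A).card) = j - A.card by omega] at this
  · rw [hc.2 G _ h, mul_zero]; exact Submodule.zero_mem _

theorem DT_mem_TT {θ : κ → MvPolynomial ν K} (hθ : ∀ r, θ r ∈ PA K univ 1) {j : ℕ}
    {S : Finset V → Finset ν} {q q' : Finset V → Finset κ → Prop} (h0 : ∀ G A, q G A → A.card ≤ j)
    (h1 : ∀ G A v, v ∉ G → q (insert v G) A → q' G A)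
    (h2 : ∀ G A r, r ∉ A → q G (insert r A) → q' G A) {c : EE K V κ ν} (hc : c ∈ TT K S j q) :
    DT θ c ∈ TT K (fun _ => univ) j q' :=
  ⟨DT_mem_vals hθ (TT_mono (fun _ => subset_univ _) h0 hc), DT_mem_sp θ h1 h2 hc.2⟩

variable (K V ν) in
/-- A system of polynomial rings: to each `G` a retraction of the big polynomial ring onto the
polynomial ring in `card G` of the variables, compatible with inclusions. -/
structure Sys where
  S : Finset V → Finset ν
  p : Finset V → ν → MvPolynomial ν K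
  card_S : ∀ G, (S G).card = G.card
  p_mem : ∀ G x, p G x ∈ PA K (S G) 1
  p_self : ∀ G, ∀ x ∈ S G, p G x = X x
  comp : ∀ G' G, G' ⊆ G → ∀ x, aeval (p G') (p G x) = p G' x

/-- apply algebra maps facewise -/
noncomputable def fw (p : Finset V → ν → MvPolynomial ν K) : EE K V κ ν →ₗ[K] EE K V κ ν where
  toFun c G A := aeval (p G) (c G A)
  map_add' c c' := by ext1 G; ext1 A; simp
  map_smul' r c := by ext1 G; ext1 A; simp

omit [LinearOrder V] [Fintype V] [LinearOrder κ] [Fintype κ] [DecidableEq ν] [Fintype ν] in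
theorem fw_apply (p : Finset V → ν → MvPolynomial ν K) (c : EE K V κ ν) (G : Finset V)
    (A : Finset κ) : fw p c G A = aeval (p G) (c G A) := rfl

omit [DecidableEq ν] [Fintype ν] in
theorem aeval_aeval {p p' : ν → MvPolynomial ν K} (h : ∀ x, aeval p' (p x) = p' x)
    (f : MvPolynomial ν K) : aeval p' (aeval p f) = aeval p' f := by
  have : (aeval p').comp (aeval p) = aeval p' := algHom_ext fun x => by
    rw [AlgHom.comp_apply, aeval_X, aeval_X, h]
  exact DFunLike.congr_fun this f

omit [LinearOrder V] [Fintype V] [LinearOrder κ] [Fintype κ] [DecidableEq ν] [Fintype ν] in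
theorem fw_mem_sp (p : Finset V → ν → MvPolynomial ν K) {q : Finset V → Finset κ → Prop}
    {c : EE K V κ ν} (hc : c ∈ sp K ν q) : fw p c ∈ sp K ν q := fun G A h => by
  rw [fw_apply, hc G A h, map_zero]

omit [LinearOrder V] [Fintype V] [LinearOrder κ] [Fintype κ] [Fintype ν] in
theorem fw_mem_TT {p : Finset V → ν → MvPolynomial ν K} {S S' : Finset V → Finset ν}
    (hp : ∀ G x, p G x ∈ PA K (S G) 1) {j : ℕ} {q : Finset V → Finset κ → Prop}
    {c : EE K V κ ν} (hc : c ∈ TT K S' j q) : fw p c ∈ TT K S j q :=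
  ⟨fun G A => aeval_mem_PA (hp G) (mem_PA_iff.1 (hc.1 G A)).1, fw_mem_sp p hc.2⟩

namespace Sys

variable (Y : Sys K V ν)

omit [LinearOrder V] [Fintype V] [Fintype ν] in
theorem aeval_of_mem {G : Finset V} {s : ℕ} {f : MvPolynomial ν K} (hf : f ∈ PA K (Y.S G) s) :
    aeval (Y.p G) f = f :=
  algHom_eq_of_supported (ψ := AlgHom.id K _) (fun x hx => by
    rw [aeval_X, Y.p_self G x hx]; rfl) (mem_PA_iff.1 hf).2

omit [LinearOrder V] [Fintype V] [LinearOrder κ] [Fintype κ] [Fintype ν] in
theorem fw_of_mem {j : ℕ} {q : Finset V → Finset κ → Prop} {c : EE K V κ ν}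
    (hc : c ∈ TT K Y.S j q) : fw Y.p c = c := by
  ext1 G; ext1 A; exact Y.aeval_of_mem (hc.1 G A)

omit [Fintype ν] in
theorem fw_DT_fw (θ : κ → MvPolynomial ν K) (c : EE K V κ ν) :
    fw Y.p (DT θ (fw Y.p c)) = fw Y.p (DT θ c) := by
  ext1 G; ext1 A
  simp only [fw_apply, DT_apply_apply, map_add, map_sum, map_zsmul, map_mul,
    aeval_aeval (Y.comp G _ (subset_insert _ G)), aeval_aeval (Y.comp G G subset_rfl)]

/-- the total complex of the system -/
noncomputable def dg (θ : κ → MvPolynomial ν K) : DG K (EE K V κ ν) where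
  D := fw Y.p ∘ₗ DT θ
  gr n := sp K ν fun G A => G.card + A.card = n
  DD c := by simp only [LinearMap.comp_apply, fw_DT_fw, DT_DT, map_zero]
  D_gr n c hc := fw_mem_sp _ (DT_mem_sp θ
    (fun G A v hv h => by rw [card_insert_of_notMem hv] at h; omega)
    (fun G A v hv h => by rw [card_insert_of_notMem hv] at h; omega) hc)
  D_gr0 c hc := by
    have : DT θ c ∈ sp K ν fun _ _ => False := DT_mem_sp θ
      (fun G A v hv h => by rw [card_insert_of_notMem hv] at h; omega)
      (fun G A v hv h => by rw [card_insert_of_notMem hv] at h; omega) hc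
    have h0 : DT θ c = 0 := by ext1 G; ext1 A; exact this G A not_false
    rw [LinearMap.comp_apply, h0, map_zero]

omit [Fintype ν] in
theorem dg_D (θ : κ → MvPolynomial ν K) (c : EE K V κ ν) : (Y.dg θ).D c = fw Y.p (DT θ c) := rfl

omit [Fintype ν] in
theorem dg_pc (θ : κ → MvPolynomial ν K) (S : Finset V → Finset ν) (j : ℕ)
    (q : Finset V → Finset κ → Prop) (n : ℕ) :
    (Y.dg θ).pc (TT K S j q) n = TT K S j fun G A => q G A ∧ G.card + A.card = n :=
  TT_inf_sp S j q _

theorem sub_TT {θ : κ → MvPolynomial ν K} (hθ : ∀ r, θ r ∈ PA K univ 1) {j : ℕ}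
    {q : Finset V → Finset κ → Prop} (h0 : ∀ G A, q G A → A.card ≤ j)
    (h1 : ∀ G A v, v ∉ G → q (insert v G) A → q G A)
    (h2 : ∀ G A r, r ∉ A → q G (insert r A) → q G A) : (Y.dg θ).Sub (TT K Y.S j q) :=
  fun _ hc => fw_mem_TT Y.p_mem (DT_mem_TT hθ h0 h1 h2 hc)

omit [LinearOrder V] [Fintype V] [Fintype ν] in
theorem aeval_wbd (θ : κ → MvPolynomial ν K) {G : Finset V} {c : Finset κ → MvPolynomial ν K}
    {s : Finset κ → ℕ} (hc : ∀ A, c A ∈ PA K (Y.S G) (s A)) (A : Finset κ) :
    aeval (Y.p G) (wbd (MvPolynomial ν K) θ c A) =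
      wbd (MvPolynomial ν K) (fun r => aeval (Y.p G) (θ r)) c A := by
  simp only [wbd_apply_apply, map_sum, map_zsmul, smul_eq_mul, map_mul, Y.aeval_of_mem (hc _)]

/-- the forms `θ` span the linear forms of each face ring -/
def Spans (θ : κ → MvPolynomial ν K) (Γ : Set (Finset V)) : Prop :=
  ∀ G ∈ Γ, ∀ y ∈ Y.S G, X y ∈ Submodule.span K (Set.range fun r => aeval (Y.p G) (θ r))

/-- The total complex is exact above the number of linear forms. -/
theorem exact_above {θ : κ → MvPolynomial ν K} (hθ : ∀ r, θ r ∈ PA K univ 1)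
    {Γ : Set (Finset V)} (l : IsLowerSet Γ) (hs : Y.Spans θ Γ) (j : ℕ) {n : ℕ}
    (hn : Fintype.card κ < n) :
    (Y.dg θ).Ex (TT K Y.S j fun G A => G ∈ Γ ∧ A.card ≤ j) ⊥ n := by
  classical
  let F : ℕ → Submodule K (EE K V κ ν) := fun p =>
    TT K Y.S j fun G A => (G ∈ Γ ∧ A.card ≤ j) ∧ G.card < p
  have hF : ∀ p, (Y.dg θ).Sub (F p) := fun p => Y.sub_TT hθ (fun G A h => h.1.2)
    (fun G A v hv h => ⟨⟨l (subset_insert v G) h.1.1, h.1.2⟩,
      (card_le_card (subset_insert v G)).trans_lt h.2⟩)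
    (fun G A r hr h => ⟨⟨h.1.1, (card_le_card (subset_insert r A)).trans h.1.2⟩, h.2⟩)
  have h0 : F 0 = ⊥ := TT_eq_bot fun G A h => by omega
  have h1 : F (Fintype.card V + 1) = TT K Y.S j fun G A => G ∈ Γ ∧ A.card ≤ j := by
    simp only [F, Nat.lt_succ_iff, card_le_univ, and_true]
  rw [← h0, ← h1]
  refine DG.Ex.chain F (fun a b hab => TT_mono (fun _ => subset_rfl) fun G A h =>
    ⟨h.1, h.2.trans_le hab⟩) _ _ (Nat.zero_le _) fun p _ _ x hx hxn hD => ?_
  have key : ∀ x ∈ F (p + 1), ∀ G : Finset V, G.card = p → (Y.dg θ).D x G =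
      (-1 : ℤ) ^ p • wbd (MvPolynomial ν K) (fun r => aeval (Y.p G) (θ r)) (x G) := by
    intro x hx G hG
    ext1 A
    rw [dg_D, fw_apply, DT_apply, Pi.add_apply, Pi.add_apply, dl_apply, bd_apply, sum_eq_zero,
      Pi.zero_apply, zero_add, Pi.smul_apply, map_zsmul, Y.aeval_wbd θ (hx.1 G), hG,
      Pi.smul_apply]
    intro v hv
    have : x (insert v G) = 0 := funext fun A => hx.2 _ A fun h => by
      have := h.2; rw [card_insert_of_notMem (mem_compl.1 hv)] at this; omega
    rw [this, smul_zero]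
  have step : ∀ G : Finset V, G ∈ Γ ∧ G.card = p → ∃ e : Finset κ → MvPolynomial ν K,
      (∀ A, e A ≠ 0 → A.card ≤ j ∧ p + A.card = n + 1) ∧ (∀ A, e A ∈ PA K (Y.S G) (j - A.card)) ∧
        wbd (MvPolynomial ν K) (fun r => aeval (Y.p G) (θ r)) e = x G := by
    rintro G ⟨hG, hGp⟩
    by_cases hp : p ≤ n
    swap
    · refine ⟨0, fun A h => absurd rfl h, fun A => Submodule.zero_mem _, ?_⟩
      rw [map_zero]; ext1 A
      exact (hxn G A (by omega)).symm
    have h2 : ∀ A, x G A ≠ 0 → A.card = n - p := fun A h => by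
      have := mem_sp.1 hxn G A h; omega
    obtain ⟨e, he1, he2, he3⟩ := koszul_exact (S := Y.S G) (a := n - p) (s := j - (n - p))
      (fun r => aeval_mem_PA (Y.p_mem G) (mem_PA_iff.1 (hθ r)).1) (hs G hG)
      (by rw [Y.card_S]; omega) (x G) h2
      (fun A => by
        by_cases h : x G A = 0
        · rw [h]; exact Submodule.zero_mem _
        · rw [← h2 A h]; exact hx.1 G A)
      (by
        have h3 : (Y.dg θ).D x G = 0 := by
          ext1 A
          exact hD.2 G A fun h => absurd h.2 (by omega)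
        rw [key x hx G hGp] at h3
        have h4 := congrArg (fun z => (-1 : ℤ) ^ p • z) h3
        simpa only [smul_smul, ← mul_pow, neg_mul_neg, one_mul, one_pow, one_smul, smul_zero]
          using h4)
    refine ⟨e, fun A h => by have := he1 A h; omega, fun A => ?_, he3⟩
    by_cases h : e A = 0
    · rw [h]; exact Submodule.zero_mem _
    · rw [(he1 A h).1, ← Nat.sub_sub]; exact he2 A
  choose! e he1 he2 he3 using step
  let y : EE K V κ ν := fun G => if G ∈ Γ ∧ G.card = p then (-1 : ℤ) ^ p • e G else 0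
  have hy0 : ∀ G A, y G A ≠ 0 → (G ∈ Γ ∧ G.card = p) ∧ e G A ≠ 0 := fun G A h => by
    simp only [y] at h
    split_ifs at h with h'
    · exact ⟨h', fun h0 => h (by simp [h0])⟩
    · exact absurd rfl h
  have hy : y ∈ F (p + 1) := ⟨fun G A => by
      simp only [y]
      split_ifs with h'
      · exact zsmul_mem (he2 G h' A) _
      · exact Submodule.zero_mem _,
    mem_sp.2 fun G A h => by
      obtain ⟨h', h''⟩ := hy0 G A h
      exact ⟨⟨h'.1, (he1 G h' A h'').1⟩, by omega⟩⟩
  refine ⟨y, hy, mem_sp.2 fun G A h => ?_, ?_⟩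
  · obtain ⟨h', h''⟩ := hy0 G A h
    have := (he1 G h' A h'').2
    omega
  · have h4 := Submodule.sub_mem _ hx (hF _ y hy)
    refine ⟨h4.1, mem_sp.2 fun G A h => ?_⟩
    have h5 := mem_sp.1 h4.2 G A h
    refine ⟨h5.1, lt_of_le_of_ne (Nat.lt_succ_iff.1 h5.2) fun hGp => h ?_⟩
    rw [Pi.sub_apply, key y hy G hGp]
    simp only [y, if_pos (And.intro h5.1.1 hGp), map_zsmul, he3 G ⟨h5.1.1, hGp⟩, smul_smul,
      ← mul_pow]
    simp

end Sys

end Pool.Agent.Lib.MP_21db46_co
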